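import Pool.Agent.H10.W.Def

set_option autoImplicit false

namespace Pool.Agent.H10.W.SIGN

open Pool.Agent.H10.Inj (LocInd Joined)

/-- the element with its sign -/
def sg {Γ ι : Type} [Group Γ] (x : ι → Γ) (σ : ι → Bool) (j : ι) : Γ :=
  if σ j = true then x j else (x j)⁻¹

theorem aux {Γ ι : Type} [Group Γ] [DecidableEq ι] (hΓ : LocInd Γ) (x : ι → Γ) :
    ∀ J : Finset ι, (∀ j ∈ J, x j ≠ 1) →
      ∃ σ : ι → Bool, (1 : Γ) ∉ Subsemigroup.closure (sg x σ '' J) := by
  intro J
  induction J using Finset.strongInduction with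
  | H J ih =>
    intro hx
    rcases J.eq_empty_or_nonempty with rfl | ⟨j0, hj0⟩
    · refine ⟨fun _ => true, ?_⟩
      simp [Subsemigroup.closure_empty, Subsemigroup.notMem_bot]
    set H : Subgroup Γ := Subgroup.closure (x '' J) with hH
    have hmem : ∀ j ∈ J, x j ∈ H := fun j hj => Subgroup.subset_closure ⟨j, hj, rfl⟩
    have hfg : H.FG := (Subgroup.fg_iff H).2 ⟨x '' J, rfl, J.finite_toSet.image x⟩
    have hbot : H ≠ ⊥ := by
      intro h
      have := hmem j0 hj0
      rw [h, Subgroup.mem_bot] at this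
      exact hx j0 hj0 this
    obtain ⟨ψ, hψ⟩ := hΓ H hfg hbot
    classical
    let φ : ι → ℤ := fun j => if h : x j ∈ H then Multiplicative.toAdd (ψ ⟨x j, h⟩) else 0
    have hφ : ∀ j (h : x j ∈ H), φ j = Multiplicative.toAdd (ψ ⟨x j, h⟩) := fun j h => by
      simp only [φ, dif_pos h]
    have hss : J.filter (fun j => φ j = 0) ⊂ J := by
      refine (Finset.filter_subset _ _).ssubset_of_ne fun heq => ?_
      have h0 : ∀ j ∈ J, φ j = 0 := fun j hj => by
        rw [← heq] at hj
        exact (Finset.mem_filter.1 hj).2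
      have htriv : ∀ z (hz : z ∈ H), ψ ⟨z, hz⟩ = 1 := by
        intro z hz
        induction hz using Subgroup.closure_induction with
        | mem z hz =>
          obtain ⟨j, hj, rfl⟩ := hz
          have := h0 j hj
          rw [hφ j (hmem j hj)] at this
          exact toAdd_eq_zero.1 this
        | one => exact map_one ψ
        | mul a b ha hb iha ihb =>
          have : (⟨a * b, mul_mem ha hb⟩ : H) = ⟨a, ha⟩ * ⟨b, hb⟩ := rfl
          rw [this, map_mul, iha, ihb, one_mul]
        | inv a ha iha =>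
          have : (⟨a⁻¹, inv_mem ha⟩ : H) = (⟨a, ha⟩ : H)⁻¹ := rfl
          rw [this, map_inv, iha, inv_one]
      obtain ⟨z, hz⟩ := hψ (Multiplicative.ofAdd 1)
      rw [show z = ⟨z.1, z.2⟩ from rfl, htriv] at hz
      exact absurd (congrArg Multiplicative.toAdd hz) (by simp)
    obtain ⟨σ0, hσ0⟩ := ih _ hss fun j hj => hx j (Finset.mem_filter.1 hj).1
    refine ⟨fun j => if φ j = 0 then σ0 j else decide (0 < φ j), fun h1 => hσ0 ?_⟩
    set σ : ι → Bool := fun j => if φ j = 0 then σ0 j else decide (0 < φ j) with hσ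
    have key : ∀ z ∈ Subsemigroup.closure (sg x σ '' J), ∃ hz : z ∈ H,
        0 ≤ Multiplicative.toAdd (ψ ⟨z, hz⟩) ∧ (Multiplicative.toAdd (ψ ⟨z, hz⟩) = 0 →
          z ∈ Subsemigroup.closure (sg x σ0 '' (J.filter (fun j => φ j = 0)))) := by
      intro z hz
      induction hz using Subsemigroup.closure_induction with
      | mem z hz =>
        obtain ⟨j, hj, rfl⟩ := hz
        have hj' := hmem j hj
        have hinv : (⟨(x j)⁻¹, inv_mem hj'⟩ : H) = (⟨x j, hj'⟩ : H)⁻¹ := rfl
        by_cases h0 : φ j = 0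
        · have hs : sg x σ j = sg x σ0 j := by simp [sg, hσ, h0]
          have hm : sg x σ j ∈ H := by
            unfold sg; split_ifs
            · exact hj'
            · exact inv_mem hj'
          have h2 : ψ ⟨x j, hj'⟩ = 1 := by
            rw [hφ j hj'] at h0
            exact toAdd_eq_zero.1 h0
          have h3 : ψ ⟨sg x σ j, hm⟩ = 1 := by
            by_cases h4 : σ j = true
            · have : (⟨sg x σ j, hm⟩ : H) = ⟨x j, hj'⟩ := Subtype.ext (by simp [sg, h4])
              rw [this, h2]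
            · have : (⟨sg x σ j, hm⟩ : H) = (⟨x j, hj'⟩ : H)⁻¹ :=
                Subtype.ext (by simp [sg, h4])
              rw [this, map_inv, h2, inv_one]
          refine ⟨hm, by rw [h3]; simp, fun _ => ?_⟩
          rw [hs]
          exact Subsemigroup.subset_closure ⟨j, by simpa using ⟨hj, h0⟩, rfl⟩
        · by_cases hpos : 0 < φ j
          · have hσj : σ j = true := by simp [hσ, h0, hpos]
            have hs : sg x σ j = x j := by simp [sg, hσj]
            rw [hs]
            refine ⟨hj', ?_, ?_⟩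
            · rw [← hφ j hj']; exact hpos.le
            · rw [← hφ j hj']; intro h; exact absurd h h0
          · have hσj : σ j = false := by simp [hσ, h0, hpos]
            have hs : sg x σ j = (x j)⁻¹ := by simp [sg, hσj]
            rw [hs]
            refine ⟨inv_mem hj', ?_, ?_⟩
            · rw [hinv, map_inv, toAdd_inv, ← hφ j hj']; omega
            · rw [hinv, map_inv, toAdd_inv, ← hφ j hj']; intro h; omega
      | mul a b _ _ iha ihb =>
        obtain ⟨ha, ha1, ha2⟩ := iha
        obtain ⟨hb, hb1, hb2⟩ := ihb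
        have : (⟨a * b, mul_mem ha hb⟩ : H) = ⟨a, ha⟩ * ⟨b, hb⟩ := rfl
        refine ⟨mul_mem ha hb, ?_, ?_⟩
        · rw [this, map_mul, toAdd_mul]; omega
        · rw [this, map_mul, toAdd_mul]; intro h
          exact mul_mem (ha2 (by omega)) (hb2 (by omega))
    obtain ⟨h2, -, h3⟩ := key 1 h1
    refine h3 ?_
    rw [show (⟨1, h2⟩ : H) = 1 from rfl, map_one]; rfl

theorem main : S_SIGN := by
  intro Γ _ hΓ n x hx
  obtain ⟨σ, hσ⟩ := aux hΓ x Finset.univ fun j _ => hx j
  refine ⟨σ, ?_⟩
  rw [Finset.coe_univ, Set.image_univ] at hσ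
  exact hσ

end Pool.Agent.H10.W.SIGN
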