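import Pool.Agent.H10.W.Def
import Pool.Agent.H10.Inj.Rel2

/-!
# The relative weight test: the blown up complex and its reduction
-/

set_option autoImplicit false

namespace Pool.Agent.H10.W

open Pool.Agent.H10.Inj (LocInd Joined)
open Pool.Agent.H10.Inj.Rel (Ai mem_Ai st Comp cmp joined_out mk_act)

open Classical

section paths

variable {V Ω : Type}

theorem ev_append (act : V → Equiv.Perm Ω) (W W' : List (V × Bool)) (p : Ω) :
    ev act (W ++ W') p = ev act W' (ev act W p) := by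
  induction W generalizing p with
  | nil => rfl
  | cons x W ih => exact ih _

theorem val_append (act : V → Equiv.Perm Ω) (f : Ω × V → ℚ) (W W' : List (V × Bool)) (p : Ω) :
    val act f (W ++ W') p = val act f W p + val act f W' (ev act W p) := by
  induction W generalizing p with
  | nil => simp [val, ev]
  | cons x W ih =>
    simp only [List.cons_append, val, ev]
    rw [ih]
    ring

theorem pathIn_append (act : V → Equiv.Perm Ω) (A : Finset (Ω × V)) (W W' : List (V × Bool))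
    (p : Ω) : PathIn act A (W ++ W') p ↔ PathIn act A W p ∧ PathIn act A W' (ev act W p) := by
  induction W generalizing p with
  | nil => simp [PathIn, ev]
  | cons x W ih =>
    simp only [List.cons_append, PathIn, ev]
    rw [ih, and_assoc]

end paths

variable {I : Type} {K : I → Type} {R : Type} [∀ i, Group (K i)] {Ω : Type}

/-- the generator -/
noncomputable def gen (P : Sys I K R) (x : Σ i, K i) : PG P.Rel := PresentedGroup.of x

/-- a word in one block -/
def blkW (i : I) (W : List (K i × Bool)) : List ((Σ i, K i) × Bool) :=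
  W.map fun x => (⟨i, x.1⟩, x.2)

theorem rel_inner (P : Sys I K R) (i : I) (W : List (K i × Bool)) (h : wval (fun x : K i => x) W = 1) :
    blkW i W ∈ P.Rel := Or.inl ⟨i, W, h, rfl⟩

theorem gen_mul (P : Sys I K R) (i : I) (x y : K i) :
    gen P ⟨i, x * y⟩ = gen P ⟨i, x⟩ * gen P ⟨i, y⟩ := by
  have h1 : PresentedGroup.mk (FreeGroup.mk '' P.Rel)
      (FreeGroup.mk (blkW i [(x, true), (y, true), (x * y, false)])) = 1 :=
    PresentedGroup.one_of_mem ⟨_, rel_inner P i _ (by simp [wval, uval]), rfl⟩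
  have h2 : (FreeGroup.mk (blkW i [(x, true), (y, true), (x * y, false)]) :
      FreeGroup (Σ i, K i)) =
      FreeGroup.of ⟨i, x⟩ * FreeGroup.of ⟨i, y⟩ * (FreeGroup.of ⟨i, x * y⟩)⁻¹ := by
    simp [blkW, FreeGroup.of, FreeGroup.mul_mk, FreeGroup.inv_mk, FreeGroup.invRev]
  rw [h2, map_mul, map_mul, map_inv, mul_inv_eq_one] at h1
  exact h1.symm

/-- the homomorphism from a block -/
noncomputable def incP (P : Sys I K R) (i : I) : K i →* PG P.Rel :=
  MonoidHom.mk' (fun x => gen P ⟨i, x⟩) (gen_mul P i)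

theorem gen_word (P : Sys I K R) (r : R) :
    ((List.range (P.n r)).map fun j => gen P (P.l r j)).prod = 1 := by
  have h1 : PresentedGroup.mk (FreeGroup.mk '' P.Rel)
      (FreeGroup.mk ((List.range (P.n r)).map fun j => (P.l r j, true))) = 1 :=
    PresentedGroup.one_of_mem ⟨_, Or.inr ⟨r, rfl⟩, rfl⟩
  have h2 : ∀ m : ℕ, PresentedGroup.mk (FreeGroup.mk '' P.Rel)
      (FreeGroup.mk ((List.range m).map fun j => (P.l r j, true))) =
      ((List.range m).map fun j => gen P (P.l r j)).prod := by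
    intro m
    induction m with
    | zero => exact map_one _
    | succ m ih =>
      rw [List.range_succ, List.map_append, List.map_append, List.prod_append, ← ih,
        ← FreeGroup.mul_mk, map_mul]
      simp only [List.map_cons, List.map_nil, List.prod_cons, List.prod_nil, mul_one]
      rfl
  rw [← h2, h1]

/-! ### The blown up complex -/

/-- the positions of the corners of the cell `s` -/
def pos (P : Sys I K R) (act : (Σ i, K i) → Equiv.Perm Ω) (s : Ω × R) : ℕ → Ω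
  | 0 => s.1
  | j + 1 => act (P.l s.2 j) (pos P act s j)

/-- the incidence of an end of a letter -/
def slot (P : Sys I K R) (act : (Σ i, K i) → Equiv.Perm Ω) (s : Ω × R) (x : ℕ × Bool) : Ω × I :=
  (pos P act s (if x.2 then x.1 else x.1 + 1), (P.l s.2 x.1).1)

/-- the sign of an end in the boundary of the cell -/
def sgn (t : Bool) : ℚ := if t then 1 else -1

theorem sgn_mul (t : Bool) : sgn t * sgn t = 1 := by cases t <;> simp [sgn]

/-- the slots of the cell -/
def sl (P : Sys I K R) (s : Ω × R) : Finset (ℕ × Bool) := Finset.range (P.n s.2) ×ˢ Finset.univ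

theorem mem_sl {P : Sys I K R} {s : Ω × R} {x : ℕ × Bool} : x ∈ sl P s ↔ x.1 < P.n s.2 := by
  unfold sl
  rw [Finset.mem_product, Finset.mem_range]
  exact ⟨fun h => h.1, fun h => ⟨h, Finset.mem_univ _⟩⟩

/-- the cocycle condition at the cell `s` -/
noncomputable def coc (P : Sys I K R) (act : (Σ i, K i) → Equiv.Perm Ω)
    (f : Ω × (Σ i, K i) → ℚ) (ψ : Ω × I → ℚ) (s : Ω × R) : ℚ :=
  ∑ j ∈ Finset.range (P.n s.2), f (pos P act s j, P.l s.2 j) +
    ∑ x ∈ sl P s, sgn x.2 * ψ (slot P act s x)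

/-- the cell of `s` with its sides in `A` -/
def CellIn (P : Sys I K R) (act : (Σ i, K i) → Equiv.Perm Ω) (A : Finset (Ω × (Σ i, K i)))
    (s : Ω × R) : Prop :=
  (∀ j < P.n s.2, (pos P act s j, P.l s.2 j) ∈ A) ∧ pos P act s (P.n s.2) = s.1

/-- the cocycle conditions for the blocks -/
def Cin (act : (Σ i, K i) → Equiv.Perm Ω) (A : Finset (Ω × (Σ i, K i)))
    (f : Ω × (Σ i, K i) → ℚ) : Prop :=
  ∀ (i : I) (W : List (K i × Bool)) (p : Ω), PathIn act A (blkW i W) p →
    ev act (blkW i W) p = p → wval (fun x : K i => x) W = 1 → val act f (blkW i W) p = 0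

/-- no first cohomology -/
def H1 (P : Sys I K R) (act : (Σ i, K i) → Equiv.Perm Ω) (A : Finset (Ω × (Σ i, K i)))
    (Inc : Finset (Ω × I)) (S : Finset (Ω × R)) : Prop :=
  ∀ (f : Ω × (Σ i, K i) → ℚ) (ψ : Ω × I → ℚ), Cin act A f → (∀ s ∈ S, coc P act f ψ s = 0) →
    ∃ (gP : Ω → ℚ) (g : I → Ω → ℚ),
      (∀ a ∈ A, f a = g a.2.1 (act a.2 a.1) - g a.2.1 a.1) ∧
      ∀ a ∈ Inc, ψ a = g a.2 a.1 - gP a.1

/-- developable -/
def Dev (P : Sys I K R) (act : (Σ i, K i) → Equiv.Perm Ω) (A : Finset (Ω × (Σ i, K i)))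
    (Inc : Finset (Ω × I)) : Prop :=
  ∃ (τP : Ω → PG P.Rel) (τ : I → Ω → PG P.Rel),
    (∀ a ∈ A, τ a.2.1 (act a.2 a.1) = τ a.2.1 a.1 * gen P a.2) ∧
    ∀ a ∈ Inc, τ a.2 a.1 = τP a.1

theorem h1_mono {P : Sys I K R} {act : (Σ i, K i) → Equiv.Perm Ω}
    {A : Finset (Ω × (Σ i, K i))} {Inc Inc' : Finset (Ω × I)} {S : Finset (Ω × R)}
    (h : H1 P act A Inc S) (hs : Inc' ⊆ Inc) : H1 P act A Inc' S := by
  intro f ψ h1 h2
  obtain ⟨gP, g, h3, h4⟩ := h f ψ h1 h2
  exact ⟨gP, g, h3, fun a ha => h4 a (hs ha)⟩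

theorem val_zero {V : Type} (act : V → Equiv.Perm Ω) (W : List (V × Bool)) (p : Ω) :
    val act (fun _ => 0) W p = 0 := by
  induction W generalizing p with
  | nil => rfl
  | cons x W ih => simp [val, ih]

theorem cin_zero (act : (Σ i, K i) → Equiv.Perm Ω) (A : Finset (Ω × (Σ i, K i))) :
    Cin act A (fun _ => 0) := fun _ _ _ _ _ _ => val_zero _ _ _

theorem dev_unused {P : Sys I K R} {act : (Σ i, K i) → Equiv.Perm Ω}
    {A : Finset (Ω × (Σ i, K i))} {Inc : Finset (Ω × I)} {S : Finset (Ω × R)}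
    (h : H1 P act A Inc S) (a₀ : Ω × I) (ha₀ : a₀ ∈ Inc)
    (hu : ∀ s ∈ S, ∀ x ∈ sl P s, slot P act s x ≠ a₀) (hd : Dev P act A (Inc.erase a₀)) :
    Dev P act A Inc := by
  obtain ⟨τP, τ, hτ, hi⟩ := hd
  obtain ⟨gP, g, h3, h4⟩ := h (fun _ => 0) (fun a => if a = a₀ then 1 else 0)
    (cin_zero act A) (fun s hs => by
      unfold coc
      rw [Finset.sum_const_zero, zero_add, Finset.sum_eq_zero]
      intro x hx
      beta_reduce
      rw [if_neg (hu s hs x hx), mul_zero])
  have h0 := h4 a₀ ha₀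
  rw [if_pos rfl] at h0
  refine ⟨fun q => if gP q = gP a₀.1 + 1 then τP a₀.1 * (τ a₀.2 a₀.1)⁻¹ * τP q else τP q,
    fun i q => if g i q = gP a₀.1 + 1 then τP a₀.1 * (τ a₀.2 a₀.1)⁻¹ * τ i q else τ i q, ?_, ?_⟩
  · intro a ha
    have h5 := h3 a ha
    have h6 : g a.2.1 (act a.2 a.1) = g a.2.1 a.1 := by linarith
    simp only [h6]
    split_ifs with hc
    · rw [hτ a ha]; group
    · exact hτ a ha
  · intro a ha
    by_cases haa : a = a₀
    · subst haa
      have h6 : g a.2 a.1 = gP a.1 + 1 := by linarith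
      simp only [h6, if_true]
      rw [if_neg (by linarith)]
      group
    · have h5 := h4 a ha
      rw [if_neg haa] at h5
      have h6 : g a.2 a.1 = gP a.1 := by linarith
      simp only [h6]
      rw [hi a (Finset.mem_erase.2 ⟨haa, ha⟩)]

theorem h1_once {P : Sys I K R} {act : (Σ i, K i) → Equiv.Perm Ω}
    {A : Finset (Ω × (Σ i, K i))} {Inc : Finset (Ω × I)} {S : Finset (Ω × R)}
    (h : H1 P act A Inc S) (a₀ : Ω × I) (s₀ : Ω × R) (x₀ : ℕ × Bool) (hx₀' : x₀ ∈ sl P s₀)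
    (hx₀ : slot P act s₀ x₀ = a₀)
    (hu : ∀ s ∈ S, ∀ x ∈ sl P s, slot P act s x = a₀ → s = s₀ ∧ x = x₀) (hs₀ : s₀ ∈ S) :
    H1 P act A (Inc.erase a₀) (S.erase s₀) := by
  intro f ψ h1 h2
  set r : ℚ := coc P act f (fun a => if a = a₀ then 0 else ψ a) s₀ with hr
  have key : ∀ (c : ℚ), coc P act f (fun a => if a = a₀ then c else ψ a) s₀ =
      r + sgn x₀.2 * c := by
    intro c
    rw [hr]
    unfold coc
    rw [add_assoc]
    congr 1
    rw [← Finset.add_sum_erase _ _ hx₀']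
    rw [← Finset.add_sum_erase _ (fun x => sgn x.2 * if slot P act s₀ x = a₀ then 0
      else ψ (slot P act s₀ x)) hx₀']
    beta_reduce
    rw [if_pos hx₀, if_pos hx₀, mul_zero, zero_add, add_comm]
    congr 1
    apply Finset.sum_congr rfl
    intro x hx
    have hne : slot P act s₀ x ≠ a₀ := by
      intro h5
      exact (Finset.mem_erase.1 hx).1 (hu s₀ hs₀ x (Finset.mem_of_mem_erase hx) h5).2
    rw [if_neg hne, if_neg hne]
  obtain ⟨gP, g, h3, h4⟩ := h f (fun a => if a = a₀ then - (sgn x₀.2 * r) else ψ a) h1 (by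
    intro s hs
    by_cases hss : s = s₀
    · rw [hss, key]
      have : sgn x₀.2 * -(sgn x₀.2 * r) = - r := by
        calc sgn x₀.2 * -(sgn x₀.2 * r) = - ((sgn x₀.2 * sgn x₀.2) * r) := by ring
          _ = - r := by rw [sgn_mul, one_mul]
      rw [this]; ring
    · have h5 := h2 s (Finset.mem_erase.2 ⟨hss, hs⟩)
      rw [← h5]
      unfold coc
      congr 1
      apply Finset.sum_congr rfl
      intro x hx
      beta_reduce
      rw [if_neg (fun h6 => hss (hu s hs x hx h6).1)])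
  refine ⟨gP, g, h3, fun a ha => ?_⟩
  have h5 := h4 a (Finset.mem_of_mem_erase ha)
  rwa [if_neg (Finset.ne_of_mem_erase ha)] at h5

/-- telescoping -/
theorem tele {G : Type} [Group G] (g x y T : ℕ → G) (hg : ∀ j, y j = x j * g j) (k : ℕ) (m : ℕ)
    (hx : ∀ j < m, j ≠ k → x j = T j ∧ y j = T (j + 1)) :
    ((List.range m).map g).prod = if k < m then (T 0)⁻¹ * T k * (x k)⁻¹ * y k * (T (k + 1))⁻¹ * T m
      else (T 0)⁻¹ * T m := by
  induction m with
  | zero => simp
  | succ m ih =>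
    rw [List.range_succ, List.map_append, List.prod_append, ih (fun j hj => hx j (by omega))]
    simp only [List.map_cons, List.map_nil, List.prod_cons, List.prod_nil, mul_one]
    have hgm : g m = (x m)⁻¹ * y m := by rw [hg m]; group
    rw [hgm]
    by_cases h1 : k < m
    · rw [if_pos h1, if_pos (by omega)]
      obtain ⟨h2, h3⟩ := hx m (by omega) (by omega)
      rw [h2, h3]
      group
    · rw [if_neg h1]
      by_cases h2 : k = m
      · subst h2
        rw [if_pos (by omega)]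
        group
      · rw [if_neg (by omega)]
        obtain ⟨h3, h4⟩ := hx m (by omega) (by omega)
        rw [h3, h4]
        group

theorem dev_once {P : Sys I K R} {act : (Σ i, K i) → Equiv.Perm Ω}
    {A : Finset (Ω × (Σ i, K i))} {Inc : Finset (Ω × I)} (a₀ : Ω × I) (s₀ : Ω × R)
    (x₀ : ℕ × Bool) (hx₀' : x₀ ∈ sl P s₀) (hx₀ : slot P act s₀ x₀ = a₀)
    (hu : ∀ x ∈ sl P s₀, slot P act s₀ x = a₀ → x = x₀) (hsq : CellIn P act A s₀)
    (hin : ∀ x ∈ sl P s₀, slot P act s₀ x ∈ Inc)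
    (hd : Dev P act A (Inc.erase a₀)) : Dev P act A Inc := by
  obtain ⟨τP, τ, hτ, hi⟩ := hd
  refine ⟨τP, τ, hτ, fun a ha => ?_⟩
  by_cases haa : a = a₀
  swap
  · exact hi a (Finset.mem_erase.2 ⟨haa, ha⟩)
  have hall : ∀ x ∈ sl P s₀, x ≠ x₀ → τ (slot P act s₀ x).2 (slot P act s₀ x).1 =
      τP (slot P act s₀ x).1 := by
    intro x hx hxx
    exact hi _ (Finset.mem_erase.2 ⟨fun h => hxx (hu x hx h), hin x hx⟩)
  obtain ⟨k, t⟩ := x₀
  have hk : k < P.n s₀.2 := mem_sl.1 hx₀'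
  obtain ⟨hA, hcl⟩ := hsq
  set xx : ℕ → PG P.Rel := fun j => if j < P.n s₀.2 then τ (P.l s₀.2 j).1 (pos P act s₀ j)
    else 1 with hxx
  set gg : ℕ → PG P.Rel := fun j => gen P (P.l s₀.2 j) with hgg
  have hyy : ∀ j < P.n s₀.2, xx j * gg j = τ (P.l s₀.2 j).1 (pos P act s₀ (j + 1)) := by
    intro j hj
    rw [hxx]
    beta_reduce
    rw [if_pos hj]
    exact (hτ _ (hA j hj)).symm
  have htele := tele gg xx (fun j => xx j * gg j) (fun j => τP (pos P act s₀ j)) (fun j => rfl) k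
    (P.n s₀.2) (fun j hj hjk => by
      beta_reduce
      rw [hyy j hj]
      have e1 := hall (j, true) (mem_sl.2 hj) (fun h => hjk (congrArg Prod.fst h))
      have e2 := hall (j, false) (mem_sl.2 hj) (fun h => hjk (congrArg Prod.fst h))
      refine ⟨?_, e2⟩
      rw [hxx]
      beta_reduce
      rw [if_pos hj]
      exact e1)
  rw [gen_word P s₀.2, if_pos hk, hyy k hk, hcl] at htele
  have hxk : xx k = τ (P.l s₀.2 k).1 (pos P act s₀ k) := by
    rw [hxx]; beta_reduce; rw [if_pos hk]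
  have hp0 : pos P act s₀ 0 = s₀.1 := rfl
  rw [hxk, hp0] at htele
  rw [haa, ← hx₀]
  cases t with
  | true =>
    have e2 := hall (k, false) (mem_sl.2 hk) (by simp)
    have e2' : τ (P.l s₀.2 k).1 (pos P act s₀ (k + 1)) = τP (pos P act s₀ (k + 1)) := e2
    rw [e2'] at htele
    show τ (P.l s₀.2 k).1 (pos P act s₀ k) = τP (pos P act s₀ k)
    have h5 : τP (pos P act s₀ k) * (τ (P.l s₀.2 k).1 (pos P act s₀ k))⁻¹ = 1 := by
      have h6 : (τP s₀.1)⁻¹ * (τP (pos P act s₀ k) *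
          (τ (P.l s₀.2 k).1 (pos P act s₀ k))⁻¹) * τP s₀.1 = 1 := by
        rw [htele]; group
      have h7 : τP (pos P act s₀ k) * (τ (P.l s₀.2 k).1 (pos P act s₀ k))⁻¹ =
          τP s₀.1 * ((τP s₀.1)⁻¹ * (τP (pos P act s₀ k) *
          (τ (P.l s₀.2 k).1 (pos P act s₀ k))⁻¹) * τP s₀.1) * (τP s₀.1)⁻¹ := by group
      rw [h7, h6]; group
    exact (mul_inv_eq_one.1 h5).symm
  | false =>
    have e2 := hall (k, true) (mem_sl.2 hk) (by simp)
    have e2' : τ (P.l s₀.2 k).1 (pos P act s₀ k) = τP (pos P act s₀ k) := e2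
    rw [e2'] at htele
    show τ (P.l s₀.2 k).1 (pos P act s₀ (k + 1)) = τP (pos P act s₀ (k + 1))
    have h5 : τ (P.l s₀.2 k).1 (pos P act s₀ (k + 1)) * (τP (pos P act s₀ (k + 1)))⁻¹ = 1 := by
      have h6 : (τP s₀.1)⁻¹ * (τ (P.l s₀.2 k).1 (pos P act s₀ (k + 1)) *
          (τP (pos P act s₀ (k + 1)))⁻¹) * τP s₀.1 = 1 := by
        rw [htele]; group
      have h7 : τ (P.l s₀.2 k).1 (pos P act s₀ (k + 1)) * (τP (pos P act s₀ (k + 1)))⁻¹ =
          τP s₀.1 * ((τP s₀.1)⁻¹ * (τ (P.l s₀.2 k).1 (pos P act s₀ (k + 1)) *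
          (τP (pos P act s₀ (k + 1)))⁻¹) * τP s₀.1) * (τP s₀.1)⁻¹ := by group
      rw [h7, h6]; group
    exact mul_inv_eq_one.1 h5

end Pool.Agent.H10.W
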