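import Pool.Agent.H10.W.Core

/-!
# The relative weight test: components of the blocks, and the main induction
-/

set_option autoImplicit false
set_option linter.unusedSectionVars false

namespace Pool.Agent.H10.W

open Pool.Agent.H10.Inj (LocInd Joined)
open Pool.Agent.H10.Inj.Rel (Ai mem_Ai st Comp cmp joined_out mk_act)

open Classical

variable {I : Type} {K : I → Type} {R : Type} [∀ i, Group (K i)] {Ω : Type}

/-- the block of a letter -/
abbrev bl {I : Type} {K : I → Type} (x : Σ i, K i) : I := x.1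

/-- the element of `K i` belonging to a letter of the block `i` -/
noncomputable def ui (i : I) (x : Σ i, K i) : K i := if h : x.1 = i then h ▸ x.2 else 1

theorem ui_mk (i : I) (y : K i) : ui i ⟨i, y⟩ = y := by
  unfold ui
  rw [dif_pos rfl]

/-- the component is developable over the block -/
def BDev (act : (Σ i, K i) → Equiv.Perm Ω) (A : Finset (Ω × (Σ i, K i))) (i : I) (q : Ω) : Prop :=
  ∃ τ : Ω → K i, ∀ a ∈ A, a.2.1 = i → Joined act (Ai bl A i) q a.1 →
    τ (act a.2 a.1) = τ a.1 * ui i a.2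

/-- component with a cocycle -/
def CCoc (act : (Σ i, K i) → Equiv.Perm Ω) (A : Finset (Ω × (Σ i, K i))) (i : I) (q : Ω)
    (f : Ω × (Σ i, K i) → ℚ) : Prop :=
  (∀ a, f a ≠ 0 → a ∈ A ∧ a.2.1 = i ∧ Joined act (Ai bl A i) q a.1) ∧ Cin act A f ∧
    ¬ ∃ g : Ω → ℚ, ∀ a ∈ A, a.2.1 = i → Joined act (Ai bl A i) q a.1 →
      f a = g (act a.2 a.1) - g a.1

theorem pathIn_blk {act : (Σ i, K i) → Equiv.Perm Ω} {A : Finset (Ω × (Σ i, K i))} {i : I}
    (W : List (K i × Bool)) (p : Ω) (h : PathIn act A (blkW i W) p) :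
    PathIn act (Ai bl A i) (blkW i W) p := by
  induction W generalizing p with
  | nil => trivial
  | cons x W ih =>
    obtain ⟨h1, h2⟩ := h
    refine ⟨mem_Ai.2 ⟨h1, ?_⟩, ih _ h2⟩
    unfold side
    split_ifs <;> rfl

theorem wval_blk (i : I) (W : List (K i × Bool)) :
    wval (ui i) (blkW i W) = wval (fun x : K i => x) W := by
  unfold wval blkW
  rw [List.map_map]
  congr 1
  apply List.map_congr_left
  intro x _
  simp only [Function.comp_apply, uval]
  split_ifs
  · exact ui_mk i x.1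
  · rw [ui_mk]

theorem val_blk_zero {act : (Σ i, K i) → Equiv.Perm Ω} {f : Ω × (Σ i, K i) → ℚ} {i j : I}
    (hf : ∀ a, f a ≠ 0 → a.2.1 = i) (hij : j ≠ i) (W : List (K j × Bool)) (p : Ω) :
    val act f (blkW j W) p = 0 := by
  have h0 : ∀ (x : K j × Bool) (p : Ω), f (side act (⟨j, x.1⟩, x.2) p) = 0 := by
    intro x p
    by_contra hne
    have := hf _ hne
    unfold side at this
    split_ifs at this
    · exact hij this
    · exact hij this
  induction W generalizing p with
  | nil => rfl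
  | cons x W ih =>
    show (if x.2 then f (side act (⟨j, x.1⟩, x.2) p) else - f (side act (⟨j, x.1⟩, x.2) p)) +
      val act f (blkW j W) _ = 0
    rw [h0, ih]
    simp

theorem dichotomy (hT : S_THICK) (act : (Σ i, K i) → Equiv.Perm Ω)
    (A : Finset (Ω × (Σ i, K i))) (i : I) (hloc : LocInd (K i)) (q : Ω) :
    BDev act A i q ∨ ∃ f, CCoc act A i q f := by
  obtain ⟨τ, hτ⟩ | ⟨f, hf1, hf2, hf3⟩ := hT _ hloc (Σ i, K i) Ω act (ui i) (Ai bl A i) q
  · exact Or.inl ⟨τ, fun a ha hb hj => hτ a (mem_Ai.2 ⟨ha, hb⟩) hj⟩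
  · refine Or.inr ⟨f, fun a ha => ?_, ?_, ?_⟩
    · obtain ⟨h1, h2⟩ := hf1 a ha
      exact ⟨(mem_Ai.1 h1).1, (mem_Ai.1 h1).2, h2⟩
    · intro j W p h1 h2 h3
      by_cases hij : j = i
      · subst hij
        exact hf2 _ p (pathIn_blk W p h1) h2 (by rw [wval_blk]; exact h3)
      · exact val_blk_zero (fun a ha => (mem_Ai.1 (hf1 a ha).1).2) hij W p
    · rintro ⟨g, hg⟩
      exact hf3 ⟨g, fun a ha hj => hg a (mem_Ai.1 ha).1 (mem_Ai.1 ha).2 hj⟩

theorem incP_ui (P : Sys I K R) (i : I) (x : Σ i, K i) (h : x.1 = i) :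
    incP P i (ui i x) = gen P x := by
  subst h
  obtain ⟨j, y⟩ := x
  rw [ui_mk]
  rfl

/-- all components developable: the case without incidences -/
theorem dev_empty {P : Sys I K R} {act : (Σ i, K i) → Equiv.Perm Ω}
    {A : Finset (Ω × (Σ i, K i))} (h : ∀ i q, BDev act A i q) : Dev P act A ∅ := by
  choose τ hτ using h
  refine ⟨fun _ => 1, fun i p => incP P i
    (τ i (Quotient.out (Quotient.mk (st bl act A i) p)) p), ?_, ?_⟩
  · intro a ha
    beta_reduce
    have h1 := mk_act (bl := bl) (act := act) ha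
    have h2 := hτ a.2.1 (Quotient.out (Quotient.mk (st bl act A a.2.1) a.1)) a ha rfl
      (joined_out bl act A (bl a.2) a.1)
    rw [h1, h2, map_mul, incP_ui P a.2.1 a.2 rfl]
  · intro a ha
    exact absurd ha (Finset.notMem_empty a)

/-- the uses of an incidence -/
noncomputable def useSet (P : Sys I K R) (act : (Σ i, K i) → Equiv.Perm Ω) (S : Finset (Ω × R))
    (a : Ω × I) : Finset ((Ω × R) × (ℕ × Bool)) :=
  (S.biUnion fun s => (sl P s).image fun x => (s, x)).filter fun y => slot P act y.1 y.2 = a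

theorem mem_useSet {P : Sys I K R} {act : (Σ i, K i) → Equiv.Perm Ω} {S : Finset (Ω × R)}
    {a : Ω × I} {y : (Ω × R) × (ℕ × Bool)} :
    y ∈ useSet P act S a ↔ y.1 ∈ S ∧ y.2 ∈ sl P y.1 ∧ slot P act y.1 y.2 = a := by
  unfold useSet
  rw [Finset.mem_filter, Finset.mem_biUnion]
  constructor
  · rintro ⟨⟨s, hs, hy⟩, h⟩
    obtain ⟨x, hx, rfl⟩ := Finset.mem_image.1 hy
    exact ⟨hs, hx, h⟩
  · rintro ⟨h1, h2, h3⟩
    exact ⟨⟨y.1, h1, Finset.mem_image.2 ⟨y.2, h2, rfl⟩⟩, h3⟩

/-- the situation of the main induction -/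
structure Sit (P : Sys I K R) (act : (Σ i, K i) → Equiv.Perm Ω) (A : Finset (Ω × (Σ i, K i)))
    (Inc : Finset (Ω × I)) (S : Finset (Ω × R)) : Prop where
  cell : ∀ s ∈ S, CellIn P act A s
  slot : ∀ s ∈ S, ∀ x ∈ sl P s, slot P act s x ∈ Inc
  h1 : H1 P act A Inc S

/-- some incidence is used at most once -/
def Reducible (P : Sys I K R) (act : (Σ i, K i) → Equiv.Perm Ω) (A : Finset (Ω × (Σ i, K i))) :
    Prop :=
  ∀ (Inc : Finset (Ω × I)) (S : Finset (Ω × R)), Sit P act A Inc S → Inc.Nonempty →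
    ¬ ∀ a ∈ Inc, 2 ≤ (useSet P act S a).card

theorem Sit.unused {P : Sys I K R} {act : (Σ i, K i) → Equiv.Perm Ω}
    {A : Finset (Ω × (Σ i, K i))} {Inc : Finset (Ω × I)} {S : Finset (Ω × R)}
    (h : Sit P act A Inc S) {a : Ω × I} (hu : (useSet P act S a).card = 0) :
    (∀ s ∈ S, ∀ x ∈ sl P s, W.slot P act s x ≠ a) ∧ Sit P act A (Inc.erase a) S := by
  have hu' : ∀ s ∈ S, ∀ x ∈ sl P s, W.slot P act s x ≠ a := by
    intro s hs x hx h
    have h5 := Finset.card_eq_zero.1 hu
    have h6 : (s, x) ∈ useSet P act S a := mem_useSet.2 ⟨hs, hx, h⟩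
    rw [h5] at h6
    exact Finset.notMem_empty _ h6
  exact ⟨hu', h.cell, fun s hs x hx => Finset.mem_erase.2 ⟨hu' s hs x hx, h.slot s hs x hx⟩,
    h1_mono h.h1 (Finset.erase_subset _ _)⟩

theorem Sit.once {P : Sys I K R} {act : (Σ i, K i) → Equiv.Perm Ω}
    {A : Finset (Ω × (Σ i, K i))} {Inc : Finset (Ω × I)} {S : Finset (Ω × R)}
    (h : Sit P act A Inc S) {a : Ω × I} (hu : (useSet P act S a).card = 1) :
    ∃ s₀ ∈ S, ∃ x₀ ∈ sl P s₀, W.slot P act s₀ x₀ = a ∧
      (∀ s ∈ S, ∀ x ∈ sl P s, W.slot P act s x = a → s = s₀ ∧ x = x₀) ∧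
      Sit P act A (Inc.erase a) (S.erase s₀) := by
  obtain ⟨⟨s₀, x₀⟩, h5⟩ := Finset.card_eq_one.1 hu
  have h6 : (s₀, x₀) ∈ useSet P act S a := by rw [h5]; exact Finset.mem_singleton_self _
  obtain ⟨hs₀, hx₀, hax⟩ := mem_useSet.1 h6
  simp only at hs₀ hx₀ hax
  have hu' : ∀ s ∈ S, ∀ x ∈ sl P s, W.slot P act s x = a → s = s₀ ∧ x = x₀ := by
    intro s hs x hx h
    have h8 : (s, x) ∈ useSet P act S a := mem_useSet.2 ⟨hs, hx, h⟩
    rw [h5, Finset.mem_singleton] at h8
    exact ⟨congrArg Prod.fst h8, congrArg Prod.snd h8⟩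
  refine ⟨s₀, hs₀, x₀, hx₀, hax, hu', fun s hs => h.cell s (Finset.mem_of_mem_erase hs), ?_,
    h1_once h.h1 a s₀ x₀ hx₀ hax hu' hs₀⟩
  intro s hs x hx
  refine Finset.mem_erase.2 ⟨fun h => ?_, h.slot s (Finset.mem_of_mem_erase hs) x hx⟩
  exact (Finset.ne_of_mem_erase hs) (hu' s (Finset.mem_of_mem_erase hs) x hx h).1

theorem main_dev {P : Sys I K R} {act : (Σ i, K i) → Equiv.Perm Ω}
    {A : Finset (Ω × (Σ i, K i))} (hR : Reducible P act A) (hn : ∀ r, 0 < P.n r)
    (hdich : ∀ i q, BDev act A i q ∨ ∃ f, CCoc act A i q f) (m : ℕ) :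
    ∀ (Inc : Finset (Ω × I)) (S : Finset (Ω × R)), Inc.card = m → Sit P act A Inc S →
      Dev P act A Inc := by
  induction m with
  | zero =>
    intro Inc S hm h
    have hI : Inc = ∅ := Finset.card_eq_zero.1 hm
    subst hI
    apply dev_empty
    intro i q
    refine (hdich i q).resolve_right ?_
    rintro ⟨f, hf1, hf2, hf3⟩
    have hS0 : ∀ s ∈ S, False := fun s hs =>
      absurd (h.slot s hs (0, true) (mem_sl.2 (hn s.2))) (Finset.notMem_empty _)
    obtain ⟨gP, g, hg1, hg2⟩ := h.h1 f (fun _ => 0) hf2 (fun s hs => (hS0 s hs).elim)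
    refine hf3 ⟨g i, fun a ha hb hj => ?_⟩
    have := hg1 a ha
    rwa [hb] at this
  | succ m ih =>
    intro Inc S hm h
    by_cases hA : ∃ a ∈ Inc, (useSet P act S a).card = 0
    · obtain ⟨a, ha, hu⟩ := hA
      obtain ⟨hu', h'⟩ := h.unused hu
      apply dev_unused h.h1 a ha hu'
      exact ih _ S (by rw [Finset.card_erase_of_mem ha, hm]; rfl) h'
    by_cases hB : ∃ a ∈ Inc, (useSet P act S a).card = 1
    · obtain ⟨a, ha, hu⟩ := hB
      obtain ⟨s₀, hs₀, x₀, hx₀, hax, hu', h'⟩ := h.once hu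
      apply dev_once a s₀ x₀ hx₀ hax (fun x hx hxa => (hu' s₀ hs₀ x hx hxa).2) (h.cell s₀ hs₀)
        (fun x hx => h.slot s₀ hs₀ x hx)
      exact ih _ (S.erase s₀) (by rw [Finset.card_erase_of_mem ha, hm]; rfl) h'
    exfalso
    push Not at hA hB
    refine hR Inc S h ?_ ?_
    · rw [← Finset.card_pos, hm]; omega
    · intro a ha
      have h5 := hA a ha
      have h6 := hB a ha
      omega

theorem main_red {P : Sys I K R} {act : (Σ i, K i) → Equiv.Perm Ω}
    {A : Finset (Ω × (Σ i, K i))} (hR : Reducible P act A) (hn : ∀ r, 0 < P.n r) (m : ℕ) :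
    ∀ (Inc : Finset (Ω × I)) (S : Finset (Ω × R)), Inc.card = m → Sit P act A Inc S →
      H1 P act A ∅ ∅ := by
  induction m with
  | zero =>
    intro Inc S hm h
    have hI : Inc = ∅ := Finset.card_eq_zero.1 hm
    subst hI
    have hS0 : S = ∅ := by
      rw [Finset.eq_empty_iff_forall_notMem]
      exact fun s hs => absurd (h.slot s hs (0, true) (mem_sl.2 (hn s.2))) (Finset.notMem_empty _)
    have := h.h1
    rwa [hS0] at this
  | succ m ih =>
    intro Inc S hm h
    by_cases hA : ∃ a ∈ Inc, (useSet P act S a).card = 0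
    · obtain ⟨a, ha, hu⟩ := hA
      exact ih _ S (by rw [Finset.card_erase_of_mem ha, hm]; rfl) (h.unused hu).2
    by_cases hB : ∃ a ∈ Inc, (useSet P act S a).card = 1
    · obtain ⟨a, ha, hu⟩ := hB
      obtain ⟨s₀, hs₀, x₀, hx₀, hax, hu', h'⟩ := h.once hu
      exact ih _ (S.erase s₀) (by rw [Finset.card_erase_of_mem ha, hm]; rfl) h'
    exfalso
    push Not at hA hB
    refine hR Inc S h ?_ ?_
    · rw [← Finset.card_pos, hm]; omega
    · intro a ha
      have h5 := hA a ha
      have h6 := hB a ha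
      omega

/-! ### The blown up complex of a complex without cohomology -/

/-- the word of a relator -/
def rw_ (P : Sys I K R) (r : R) (m : ℕ) : List ((Σ i, K i) × Bool) :=
  (List.range m).map fun j => (P.l r j, true)

theorem rw_succ (P : Sys I K R) (r : R) (m : ℕ) :
    rw_ P r (m + 1) = rw_ P r m ++ [(P.l r m, true)] := by
  unfold rw_
  rw [List.range_succ, List.map_append]
  rfl

theorem ev_rw (P : Sys I K R) (act : (Σ i, K i) → Equiv.Perm Ω) (s : Ω × R) (m : ℕ) :
    ev act (rw_ P s.2 m) s.1 = pos P act s m := by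
  induction m with
  | zero => rfl
  | succ m ih =>
    rw [rw_succ, ev_append, ih]
    rfl

theorem val_rw (P : Sys I K R) (act : (Σ i, K i) → Equiv.Perm Ω) (f : Ω × (Σ i, K i) → ℚ)
    (s : Ω × R) (m : ℕ) :
    val act f (rw_ P s.2 m) s.1 = ∑ j ∈ Finset.range m, f (pos P act s j, P.l s.2 j) := by
  induction m with
  | zero => rfl
  | succ m ih =>
    rw [rw_succ, val_append, ih, ev_rw, Finset.sum_range_succ]
    simp [val, side]

theorem pathIn_rw (P : Sys I K R) (act : (Σ i, K i) → Equiv.Perm Ω)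
    (A : Finset (Ω × (Σ i, K i))) (s : Ω × R) (m : ℕ) (h : PathIn act A (rw_ P s.2 m) s.1) :
    ∀ j < m, (pos P act s j, P.l s.2 j) ∈ A := by
  induction m with
  | zero => intro j hj; omega
  | succ m ih =>
    rw [rw_succ, pathIn_append, ev_rw] at h
    obtain ⟨h1, h2⟩ := h
    intro j hj
    by_cases hjm : j < m
    · exact ih h1 j hjm
    · have : j = m := by omega
      subst this
      have h3 := h2.1
      simpa [side] using h3

/-- the correction term of a path in a block telescopes -/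
theorem val_blk (act : (Σ i, K i) → Equiv.Perm Ω) (ψ : Ω × I → ℚ) (i : I)
    (W : List (K i × Bool)) (p : Ω) :
    val act (fun a => ψ (a.1, a.2.1) - ψ (act a.2 a.1, a.2.1)) (blkW i W) p =
      ψ (p, i) - ψ (ev act (blkW i W) p, i) := by
  induction W generalizing p with
  | nil => simp [blkW, val, ev]
  | cons x W ih =>
    obtain ⟨x, t⟩ := x
    show (if t = true then _ else _) + val act _ (blkW i W) _ = _
    rw [ih]
    cases t with
    | true =>
      simp only [side, step, if_true, blkW, List.map_cons, ev]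
      ring
    | false =>
      simp only [side, step, Bool.false_eq_true, if_false, blkW, List.map_cons, ev,
        Equiv.apply_symm_apply]
      ring

theorem val_add {V : Type} (act : V → Equiv.Perm Ω) (f g : Ω × V → ℚ) (W : List (V × Bool))
    (p : Ω) : val act (fun a => f a + g a) W p = val act f W p + val act g W p := by
  induction W generalizing p with
  | nil => simp [val]
  | cons x W ih =>
    simp only [val, ih]
    split_ifs <;> ring

/-- the outer relators -/
def outW (P : Sys I K R) (r : R) : List ((Σ i, K i) × Bool) := rw_ P r (P.n r)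

theorem start (P : Sys I K R) {act : (Σ i, K i) → Equiv.Perm Ω}
    {A : Finset (Ω × (Σ i, K i))} {J : Finset (Ω × List ((Σ i, K i) × Bool))}
    (h : NoCoh P.Rel act A J) : ∃ (Inc : Finset (Ω × I)) (S : Finset (Ω × R)),
      (∀ a ∈ A, (a.1, a.2.1) ∈ Inc ∧ (act a.2 a.1, a.2.1) ∈ Inc) ∧ Sit P act A Inc S := by
  obtain ⟨hJ, hH⟩ := h
  set Inc : Finset (Ω × I) := A.image (fun a => (a.1, a.2.1)) ∪
    A.image (fun a => (act a.2 a.1, a.2.1)) with hInc
  have hI1 : ∀ a ∈ A, (a.1, a.2.1) ∈ Inc := fun a ha =>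
    Finset.mem_union_left _ (Finset.mem_image_of_mem (fun a : Ω × (Σ i, K i) => (a.1, a.2.1)) ha)
  have hI2 : ∀ a ∈ A, (act a.2 a.1, a.2.1) ∈ Inc := fun a ha =>
    Finset.mem_union_right _ (Finset.mem_image_of_mem
      (fun a : Ω × (Σ i, K i) => (act a.2 a.1, a.2.1)) ha)
  -- for every cell either an inner relator or a relator of the system
  have hcase : ∀ s ∈ J, (∃ r, s.2 = outW P r) ∨
      ∃ (i : I) (W' : List (K i × Bool)), wval (fun x : K i => x) W' = 1 ∧ s.2 = blkW i W' := by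
    intro s hs
    rcases (hJ s hs).1 with ⟨i, W', h1, h2⟩ | ⟨r, hr⟩
    · exact Or.inr ⟨i, W', h1, h2⟩
    · exact Or.inl ⟨r, hr.symm⟩
  set J' : Finset (Ω × List ((Σ i, K i) × Bool)) := J.filter fun s => ∃ r, s.2 = outW P r with hJ'
  have hch : ∀ s ∈ J', ∃ r, s.2 = outW P r := fun s hs => (Finset.mem_filter.1 hs).2
  by_cases hRe : Nonempty R
  swap
  · refine ⟨Inc, ∅, fun a ha => ⟨hI1 a ha, hI2 a ha⟩, fun s hs => absurd hs (Finset.notMem_empty _),
      fun s hs => absurd hs (Finset.notMem_empty _), ?_⟩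
    intro f ψ hf _
    obtain ⟨g, hg⟩ := hH (fun a => f a + (ψ (a.1, a.2.1) - ψ (act a.2 a.1, a.2.1))) (by
      intro s hs
      rcases hcase s hs with ⟨r, -⟩ | ⟨i, W', h1, h2⟩
      · exact absurd ⟨r⟩ hRe
      · obtain ⟨-, h3, h4⟩ := hJ s hs
        rw [h2] at h3 h4 ⊢
        rw [val_add, hf i W' s.1 h3 h4 h1, val_blk, h4]
        ring)
    refine ⟨g, fun i p => g p + ψ (p, i), fun a ha => ?_, fun a _ => ?_⟩
    · have h5 := hg a ha
      beta_reduce at h5 ⊢
      linarith
    · beta_reduce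
      ring
  choose! ρ hρ using hch
  set S : Finset (Ω × R) := J'.image fun s => (s.1, ρ s) with hS
  have hSmem : ∀ s ∈ S, ∃ t ∈ J, t.1 = s.1 ∧ t.2 = outW P s.2 := by
    intro s hs
    obtain ⟨t, ht, rfl⟩ := Finset.mem_image.1 hs
    exact ⟨t, (Finset.mem_filter.1 ht).1, rfl, hρ t ht⟩
  have hcell : ∀ s ∈ S, CellIn P act A s := by
    intro s hs
    obtain ⟨t, ht, h1, h2⟩ := hSmem s hs
    obtain ⟨-, h3, h4⟩ := hJ t ht
    rw [h1, h2] at h3 h4
    exact ⟨pathIn_rw P act A s _ h3, by rw [← ev_rw]; exact h4⟩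
  refine ⟨Inc, S, fun a ha => ⟨hI1 a ha, hI2 a ha⟩, hcell, ?_, ?_⟩
  · intro s hs x hx
    have hA := (hcell s hs).1 x.1 (mem_sl.1 hx)
    obtain ⟨j, t⟩ := x
    cases t with
    | true => exact hI1 _ hA
    | false => exact hI2 _ hA
  · intro f ψ hf hψ
    obtain ⟨g, hg⟩ := hH (fun a => f a + (ψ (a.1, a.2.1) - ψ (act a.2 a.1, a.2.1))) (by
      intro s hs
      by_cases hout : ∃ r, s.2 = outW P r
      · have hsJ : s ∈ J' := Finset.mem_filter.2 ⟨hs, hout⟩
        have h5 := hψ (s.1, ρ s) (Finset.mem_image.2 ⟨s, hsJ, rfl⟩)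
        rw [hρ s hsJ]
        unfold outW
        have h6 := val_rw P act (fun a => f a + (ψ (a.1, a.2.1) - ψ (act a.2 a.1, a.2.1)))
          (s.1, ρ s) (P.n (ρ s))
        simp only at h6
        rw [h6]
        unfold coc at h5
        simp only at h5
        rw [← h5, Finset.sum_add_distrib]
        congr 1
        unfold sl
        rw [Finset.sum_product]
        apply Finset.sum_congr rfl
        intro j _
        simp only [Fintype.sum_bool, sgn, slot, if_true, Bool.false_eq_true, if_false, pos]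
        ring
      · rcases hcase s hs with h | ⟨i, W', h1, h2⟩
        · exact absurd h hout
        · obtain ⟨-, h3, h4⟩ := hJ s hs
          rw [h2] at h3 h4 ⊢
          rw [val_add, hf i W' s.1 h3 h4 h1, val_blk, h4]
          ring)
    refine ⟨g, fun i p => g p + ψ (p, i), fun a ha => ?_, fun a _ => ?_⟩
    · have h5 := hg a ha
      beta_reduce at h5 ⊢
      linarith
    · beta_reduce
      ring

end Pool.Agent.H10.W
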