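import Pool.Agent.H10.W.Core2
import Pool.Agent.H10.Inj.Lin
import Pool.Agent.H10.Inj.Ama

/-!
# The relative weight test: the contradiction in the reduced case, and the theorem
-/

set_option autoImplicit false
set_option linter.unusedSectionVars false

namespace Pool.Agent.H10.W

open Pool.Agent.H10.Inj (LocInd Joined)
open Pool.Agent.H10.Inj.Rel (Ai mem_Ai st Comp cmp joined_out mk_act)

open Classical

variable {I : Type} {K : I → Type} {R : Type} [∀ i, Group (K i)] {Ω : Type}

/-! ### Corners and slots -/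

/-- the direction of a slot -/
def dir (sg : R → ℕ → Bool) (s : Ω × R) (x : ℕ × Bool) : Bool :=
  if x.2 then sg s.2 x.1 else !sg s.2 x.1

/-- the slot of an end of a corner -/
def cv (P : Sys I K R) (s : Ω × R) (y : ℕ × Bool) : ℕ × Bool :=
  if y.2 then (y.1, true) else (P.prev s.2 y.1, false)

theorem cv_mem {P : Sys I K R} {s : Ω × R} {y : ℕ × Bool} (hy : y.1 < P.n s.2) :
    cv P s y ∈ sl P s := by
  rw [mem_sl]
  unfold cv Sys.prev
  split_ifs <;> simp only <;> omega

theorem slot_cv {P : Sys I K R} (act : (Σ i, K i) → Equiv.Perm Ω) {s : Ω × R}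
    (sg : R → ℕ → Bool) (hcl : pos P act s (P.n s.2) = s.1) {j : ℕ} (hj : j < P.n s.2) (t : Bool) :
    slot P act s (cv P s (j, t)) = (pos P act s j, (P.vert sg (s.2, j) t).1) ∧
      dir sg s (cv P s (j, t)) = (P.vert sg (s.2, j) t).2 := by
  cases t with
  | true => exact ⟨rfl, rfl⟩
  | false =>
    refine ⟨?_, rfl⟩
    show (pos P act s (P.prev s.2 j + 1), (P.l s.2 (P.prev s.2 j)).1) =
      (pos P act s j, (P.l s.2 (P.prev s.2 j)).1)
    congr 1
    unfold Sys.prev
    split_ifs with h
    · subst h
      rw [Nat.sub_add_cancel (by omega), hcl]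
      rfl
    · rw [Nat.sub_add_cancel (by omega)]

theorem cv_surj {P : Sys I K R} {s : Ω × R} {x : ℕ × Bool} (hx : x ∈ sl P s) :
    ∃ y : ℕ × Bool, y.1 < P.n s.2 ∧ cv P s y = x := by
  obtain ⟨j, t⟩ := x
  have hj : j < P.n s.2 := mem_sl.1 hx
  cases t with
  | true => exact ⟨(j, true), hj, rfl⟩
  | false =>
    by_cases h : j + 1 = P.n s.2
    · refine ⟨(0, false), by simp only; omega, ?_⟩
      show (P.prev s.2 0, false) = (j, false)
      unfold Sys.prev
      rw [if_pos rfl]
      congr 1
      omega
    · refine ⟨(j + 1, false), by simp only; omega, ?_⟩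
      show (P.prev s.2 (j + 1), false) = (j, false)
      unfold Sys.prev
      rw [if_neg (by omega)]
      congr 1

theorem pos_inj (P : Sys I K R) (act : (Σ i, K i) → Equiv.Perm Ω) (s s' : Ω × R)
    (he : s.2 = s'.2) (j : ℕ) (h : pos P act s j = pos P act s' j) : s = s' := by
  obtain ⟨p, r⟩ := s
  obtain ⟨p', r'⟩ := s'
  simp only at he
  subst he
  have hp : ∀ j, pos P act (p, r) j = pos P act (p', r) j → p = p' := by
    intro j
    induction j with
    | zero => exact fun h => h
    | succ j ih => exact fun h => ih ((act (P.l r j)).injective h)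
  rw [hp j h]

/-! ### Extreme incidences -/

theorem exists_extreme (hE : S_EXT) {P : Sys I K R} {sg : R → ℕ → Bool}
    (hpos : ∀ i, (1 : K i) ∉ Subsemigroup.closure (P.Pos sg i))
    {act : (Σ i, K i) → Equiv.Perm Ω} {A : Finset (Ω × (Σ i, K i))}
    {Inc : Finset (Ω × I)} {S : Finset (Ω × R)} (h : Sit P act A Inc S) (c : Comp bl act A)
    (hc : BDev act A c.1 (Quotient.out c.2)) (hne : ∃ a ∈ Inc, cmp bl act A a = c) (d : Bool) :
    ∃ a ∈ Inc, cmp bl act A a = c ∧
      ∀ s ∈ S, ∀ x ∈ sl P s, ¬ (slot P act s x = a ∧ dir sg s x = d) := by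
  obtain ⟨τ, hτ⟩ := hc
  have hcls : ∀ p, cmp bl act A (p, c.1) = c → Joined act (Ai bl A c.1) (Quotient.out c.2) p := by
    intro p hp
    obtain ⟨i, c⟩ := c
    have h2 : Quotient.mk (st bl act A i) p = c := by
      have := (Sigma.mk.inj_iff.1 hp).2
      exact eq_of_heq this
    subst h2
    exact joined_out bl act A i p
  set T := Inc.filter fun a => cmp bl act A a = c with hT
  have hTne : T.Nonempty := by
    obtain ⟨a, ha, hac⟩ := hne
    exact ⟨a, Finset.mem_filter.2 ⟨ha, hac⟩⟩
  set Q : Set (K c.1) := {x | (if d = true then x else x⁻¹) ∈ P.Pos sg c.1} with hQ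
  have hQ1 : (1 : K c.1) ∉ Subsemigroup.closure Q := by
    cases d with
    | true =>
      have : Q = P.Pos sg c.1 := by
        rw [hQ]
        ext x
        simp
      rw [this]
      exact hpos c.1
    | false =>
      intro h1
      have key : ∀ x ∈ Subsemigroup.closure Q, x⁻¹ ∈ Subsemigroup.closure (P.Pos sg c.1) := by
        intro x hx
        induction hx using Subsemigroup.closure_induction with
        | mem x hx =>
          apply Subsemigroup.subset_closure
          have hx' : (if (false : Bool) = true then x else x⁻¹) ∈ P.Pos sg c.1 := hx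
          simpa using hx'
        | mul x y _ _ hx hy =>
          rw [mul_inv_rev]
          exact mul_mem hy hx
      have := key 1 h1
      rw [inv_one] at this
      exact hpos c.1 this
  obtain ⟨a, haT, hmax⟩ := hE (K c.1) (Ω × I) Q hQ1 T hTne (fun a => τ a.1)
  obtain ⟨haI, hac⟩ := Finset.mem_filter.1 haT
  refine ⟨a, haI, hac, ?_⟩
  rintro s hs ⟨j, t⟩ hx ⟨hx1, hx2⟩
  have hj : j < P.n s.2 := mem_sl.1 hx
  have hA := (h.cell s hs).1 j hj
  have hb : (P.l s.2 j).1 = c.1 := by
    have h1 : (slot P act s (j, t)).2 = a.2 := by rw [hx1]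
    have h2 : (cmp bl act A a).1 = c.1 := by rw [hac]
    exact h1.trans h2
  -- both ends of the letter belong to the component
  have hcomp : cmp bl act A (pos P act s j, c.1) = c ∧ cmp bl act A (pos P act s (j + 1), c.1) = c := by
    have h8 : cmp bl act A (pos P act s (j + 1), c.1) = cmp bl act A (pos P act s j, c.1) := by
      have := mk_act (bl := bl) (act := act) hA
      rw [← hb]
      unfold Pool.Agent.H10.Inj.Rel.cmp
      exact congrArg _ this
    have ha' : a = ((slot P act s (j, t)).1, c.1) := by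
      rw [← hb, hx1]
      exact Prod.ext rfl (by rw [← hx1]; rfl)
    cases t with
    | true =>
      have h9 : cmp bl act A (pos P act s j, c.1) = c := by
        have : a = (pos P act s j, c.1) := ha'
        rw [← this]; exact hac
      exact ⟨h9, h8.trans h9⟩
    | false =>
      have h9 : cmp bl act A (pos P act s (j + 1), c.1) = c := by
        have : a = (pos P act s (j + 1), c.1) := ha'
        rw [← this]; exact hac
      exact ⟨h8.symm.trans h9, h9⟩
  have hτ' := hτ _ hA hb (hcls _ hcomp.1)
  simp only at hτ'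
  have hinc : (pos P act s j, c.1) ∈ T ∧ (pos P act s (j + 1), c.1) ∈ T := by
    have h1 := h.slot s hs (j, true) (mem_sl.2 hj)
    have h2 := h.slot s hs (j, false) (mem_sl.2 hj)
    have h1' : slot P act s (j, true) = (pos P act s j, c.1) := by rw [← hb]; rfl
    have h2' : slot P act s (j, false) = (pos P act s (j + 1), c.1) := by rw [← hb]; rfl
    rw [h1'] at h1
    rw [h2'] at h2
    exact ⟨Finset.mem_filter.2 ⟨h1, hcomp.1⟩, Finset.mem_filter.2 ⟨h2, hcomp.2⟩⟩
  set y := ui c.1 (P.l s.2 j) with hy
  have hly : P.l s.2 j = ⟨c.1, y⟩ := by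
    have : ∀ (z : Σ i, K i) (i : I), z.1 = i → z = ⟨i, ui i z⟩ := by
      rintro ⟨i, z⟩ _ rfl
      rw [ui_mk]
    exact this _ _ hb
  have hpos' : (if sg s.2 j = true then y else y⁻¹) ∈ P.Pos sg c.1 := by
    refine ⟨s.2, j, hj, ?_⟩
    cases hsg : sg s.2 j with
    | true =>
      left
      simp only [if_true]
      exact ⟨trivial, hly⟩
    | false =>
      right
      simp only [Bool.false_eq_true, if_false, inv_inv]
      exact ⟨trivial, hly⟩
  have hstep : τ (pos P act s (j + 1)) = τ (pos P act s j) * y := hτ'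
  cases t with
  | true =>
    have ha1 : a.1 = pos P act s j := by rw [← hx1]; rfl
    have hd : sg s.2 j = d := hx2
    refine hmax _ hinc.2 y ?_ ?_
    · show (if d = true then y else y⁻¹) ∈ P.Pos sg c.1
      rw [← hd]
      exact hpos'
    · show τ (pos P act s (j + 1)) = τ a.1 * y
      rw [ha1]
      exact hstep
  | false =>
    have ha1 : a.1 = pos P act s (j + 1) := by rw [← hx1]; rfl
    have hd : (!sg s.2 j) = d := hx2
    refine hmax _ hinc.1 y⁻¹ ?_ ?_
    · show (if d = true then y⁻¹ else y⁻¹⁻¹) ∈ P.Pos sg c.1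
      rw [← hd, inv_inv]
      cases hsg : sg s.2 j with
      | true => simpa [hsg] using hpos'
      | false => simpa [hsg] using hpos'
    · show τ (pos P act s j) = τ a.1 * y⁻¹
      rw [ha1, hstep]
      group

/-! ### The contradiction -/

theorem contra (hE : S_EXT) (hCOUNT : S_COUNT) {P : Sys I K R} {sg : R → ℕ → Bool}
    {w : R → ℕ → ℝ} (hS : P.Test sg w) {act : (Σ i, K i) → Equiv.Perm Ω}
    {A : Finset (Ω × (Σ i, K i))}
    (hdich : ∀ i q, BDev act A i q ∨ ∃ f, CCoc act A i q f) : Reducible P act A := by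
  intro Inc S h hne huse
  set cp : Ω × I → Comp bl act A := cmp bl act A with hcp
  set CF := Inc.image cp with hCF
  set DF := CF.filter fun c => BDev act A c.1 (Quotient.out c.2) with hDF
  set NF := CF.filter fun c => ¬ BDev act A c.1 (Quotient.out c.2) with hNF
  have hcard : DF.card + NF.card = CF.card := Finset.card_filter_add_card_filter_not _
  -- extreme incidences
  have hext : ∀ (d : Bool) (c : Comp bl act A), c ∈ DF → ∃ a ∈ Inc, cp a = c ∧
      ∀ s ∈ S, ∀ x ∈ sl P s, ¬ (slot P act s x = a ∧ dir sg s x = d) := by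
    intro d c hc
    obtain ⟨hc1, hc2⟩ := Finset.mem_filter.1 hc
    obtain ⟨a, ha, hac⟩ := Finset.mem_image.1 hc1
    exact exists_extreme hE hS.pos h c hc2 ⟨a, ha, hac⟩ d
  have : Nonempty (Ω × I) := ⟨hne.choose⟩
  choose! ex hex1 hex2 hex3 using hext
  set M : Finset ((Ω × I) × Bool) := (DF ×ˢ (Finset.univ : Finset Bool)).image
    (fun y => (ex y.2 y.1, y.2)) with hM
  have hMcard : M.card = 2 * DF.card := by
    rw [hM, Finset.card_image_of_injOn, Finset.card_product, Finset.card_univ, Fintype.card_bool,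
      mul_comm]
    rintro ⟨c, d⟩ h ⟨c', d'⟩ h' heq
    simp only [Prod.mk.injEq] at heq
    obtain ⟨h5, h6⟩ := heq
    subst h6
    have h7 := (Finset.mem_product.1 (Finset.mem_coe.1 h)).1
    have h8 := (Finset.mem_product.1 (Finset.mem_coe.1 h')).1
    simp only at h7 h8
    rw [← hex2 d c h7, ← hex2 d c' h8, h5]
  have hcl : ∀ s ∈ S, pos P act s (P.n s.2) = s.1 := fun s hs => (h.cell s hs).2
  have hcount := hCOUNT Ω I (Ω × R) (R × ℕ) S (fun s => P.n s.2) (pos P act)
    (fun s j => (s.2, j)) (P.vert sg) (fun y => w y.1 y.2) Inc M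
    (by
      intro s hs j hj s' hs' j' hj' he hp
      simp only [Prod.mk.injEq] at he
      obtain ⟨he1, rfl⟩ := he
      exact ⟨pos_inj P act s s' he1 j hp, rfl⟩)
    (fun s hs => hS.sum s.2)
    (by
      intro s hs j hj t
      rw [← (slot_cv act sg (hcl s hs) hj t).1]
      exact h.slot s hs _ (cv_mem hj))
    (by
      intro a ha
      refine (huse a ha).trans ?_
      have hsig : ∑ s ∈ S, (((Finset.range (P.n s.2)) ×ˢ (Finset.univ : Finset Bool)).filter
          fun x => (pos P act s x.1, (P.vert sg (s.2, x.1) x.2).1) = a).card =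
          (S.sigma fun s => (((Finset.range (P.n s.2)) ×ˢ (Finset.univ : Finset Bool)).filter
          fun x => (pos P act s x.1, (P.vert sg (s.2, x.1) x.2).1) = a)).card :=
        (Finset.card_sigma _ _).symm
      have hsub : useSet P act S a ⊆
          (S.sigma fun s => (((Finset.range (P.n s.2)) ×ˢ (Finset.univ : Finset Bool)).filter
          fun x => (pos P act s x.1, (P.vert sg (s.2, x.1) x.2).1) = a)).image
          (fun z => (z.1, cv P z.1 z.2)) := by
        rintro ⟨s, x⟩ hy
        obtain ⟨hs, hx, hax⟩ := mem_useSet.1 hy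
        simp only at hs hx hax
        obtain ⟨⟨j, t⟩, hj, rfl⟩ := cv_surj hx
        simp only at hj
        refine Finset.mem_image.2 ⟨⟨s, (j, t)⟩, ?_, rfl⟩
        refine Finset.mem_sigma.2 ⟨hs, Finset.mem_filter.2 ⟨Finset.mem_product.2
          ⟨Finset.mem_range.2 hj, Finset.mem_univ _⟩, ?_⟩⟩
        simp only
        rw [← (slot_cv act sg (hcl s hs) hj t).1]
        exact hax
      calc (useSet P act S a).card ≤ _ := Finset.card_le_card hsub
        _ ≤ _ := Finset.card_image_le
        _ = _ := hsig.symm)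
    (by
      intro T hT hT2 hT3
      refine hS.link T hT ?_ ?_
      · intro x hx
        obtain ⟨s, hs, j, hj, rfl⟩ := hT2 x hx
        exact hj
      · intro i
        convert hT3 i)
    (by
      intro m hm
      obtain ⟨⟨c, d⟩, hy, rfl⟩ := Finset.mem_image.1 hm
      have h7 := (Finset.mem_product.1 hy).1
      refine ⟨hex1 d c h7, fun s hs j hj t => ?_⟩
      rintro ⟨h8, h9⟩
      refine hex3 d c h7 s hs (cv P s (j, t)) (cv_mem hj) ?_
      obtain ⟨h10, h11⟩ := slot_cv act sg (hcl s hs) hj t
      rw [h10, h11]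
      simp only at h8 h9
      rw [h8, h9]
      exact ⟨rfl, rfl⟩)
  rw [hMcard] at hcount
  -- the cocycles of the other components
  have hcoc : ∀ c ∈ NF, ∃ f, CCoc act A c.1 (Quotient.out c.2) f := by
    intro c hc
    exact (hdich c.1 (Quotient.out c.2)).resolve_left (Finset.mem_filter.1 hc).2
  choose! fC hfC using hcoc
  have hsup : ∀ (c c' : Comp bl act A) (a : Ω × (Σ i, K i)), c ∈ NF → c' ∈ NF → fC c' a ≠ 0 →
      a.2.1 = c.1 → Joined act (Ai bl A c.1) (Quotient.out c.2) a.1 → c' = c := by
    intro c c' a hc hc' hne' hb hj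
    obtain ⟨h5, h6, h7⟩ := (hfC c' hc').1 a hne'
    obtain ⟨i, c⟩ := c
    obtain ⟨i', c'⟩ := c'
    simp only at hb h6 h7 hj
    have hii : i' = i := h6.symm.trans hb
    subst hii
    have h8 : Quotient.mk (st bl act A i') (Quotient.out c) =
      Quotient.mk (st bl act A i') a.1 := Quotient.sound hj
    have h9 : Quotient.mk (st bl act A i') (Quotient.out c') =
      Quotient.mk (st bl act A i') a.1 := Quotient.sound h7
    rw [Quotient.out_eq] at h8 h9
    rw [h8, h9]
  let F : (NF → ℚ) → Ω × (Σ i, K i) → ℚ := fun t a => ∑ c : NF, t c * fC c.1 a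
  have hFadd : ∀ t t' a, F (t + t') a = F t a + F t' a := by
    intro t t' a
    simp only [F, Pi.add_apply, add_mul, Finset.sum_add_distrib]
  have hFsmul : ∀ (r : ℚ) t a, F (r • t) a = r * F t a := by
    intro r t a
    simp only [F, Pi.smul_apply, smul_eq_mul, mul_assoc, Finset.mul_sum]
  let ext : (Inc → ℚ) → Ω × I → ℚ := fun v a => if h : a ∈ Inc then v ⟨a, h⟩ else 0
  have hexadd : ∀ v v' a, ext (v + v') a = ext v a + ext v' a := by
    intro v v' a
    simp only [ext]
    split_ifs
    · rfl
    · simp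
  have hexsmul : ∀ (r : ℚ) v a, ext (r • v) a = r * ext v a := by
    intro r v a
    simp only [ext]
    split_ifs
    · rfl
    · simp
  let Φ : ((Inc → ℚ) × (NF → ℚ)) →ₗ[ℚ] (S → ℚ) :=
    { toFun := fun v s => coc P act (F v.2) (ext v.1) s.1
      map_add' := by
        intro v w
        funext s
        simp only [coc, Prod.snd_add, Prod.fst_add, hFadd, hexadd, Pi.add_apply, mul_add,
          Finset.sum_add_distrib]
        ring
      map_smul' := by
        intro r v
        funext s
        simp only [coc, Prod.smul_snd, Prod.smul_fst, hFsmul, hexsmul, Pi.smul_apply, smul_eq_mul,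
          RingHom.id_apply, mul_add, Finset.mul_sum]
        congr 1
        exact Finset.sum_congr rfl (fun x _ => by ring) }
  have hP : (Inc.image Prod.fst).Nonempty := hne.image _
  have hlin := Pool.Agent.H10.Inj.Lin.main Inc (Inc.image Prod.fst) CF NF S
    (fun a => ⟨a.1.1, Finset.mem_image_of_mem _ a.2⟩)
    (fun a => ⟨cp a.1, Finset.mem_image_of_mem _ a.2⟩) Φ (by
      obtain ⟨p, hp⟩ := hP
      exact ⟨⟨p, hp⟩⟩) (by
      intro v hv
      obtain ⟨gP, g, hg1, hg2⟩ := h.h1 (F v.2) (ext v.1) (by
          intro i W p h5 h6 h7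
          have h8 : ∀ (W : List ((Σ i, K i) × Bool)) (p : Ω),
              val act (F v.2) W p = ∑ c : NF, v.2 c * val act (fC c.1) W p := by
            intro W
            induction W with
            | nil => intro p; simp [val]
            | cons x W ih =>
              intro p
              simp only [val, ih, mul_add, Finset.sum_add_distrib]
              congr 1
              split_ifs
              · rfl
              · simp only [F, mul_neg, Finset.sum_neg_distrib]
          rw [h8]
          exact Finset.sum_eq_zero (fun c _ => by rw [(hfC c.1 c.2).2.1 i W p h5 h6 h7, mul_zero]))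
          (by
          intro s hs
          exact congrFun hv ⟨s, hs⟩)
      have hFc : ∀ (c : NF) (a : Ω × (Σ i, K i)), a.2.1 = c.1.1 →
          Joined act (Ai bl A c.1.1) (Quotient.out c.1.2) a.1 → F v.2 a = v.2 c * fC c.1 a := by
        intro c a hb hj
        refine Finset.sum_eq_single c (fun c' _ hc' => ?_) (fun h => absurd (Finset.mem_univ _) h)
        by_contra hne'
        have h6 : fC c'.1 a ≠ 0 := fun h => hne' (by rw [h, mul_zero])
        exact hc' (Subtype.ext (hsup c.1 c'.1 a c.2 c'.2 h6 hb hj))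
      have ht0 : v.2 = 0 := by
        funext c
        by_contra hct
        have hct' : v.2 c ≠ 0 := hct
        apply (hfC c.1 c.2).2.2
        refine ⟨fun q => g c.1.1 q / v.2 c, fun a ha hb hj => ?_⟩
        have h6 := hg1 a ha
        rw [hFc c a hb hj, hb] at h6
        rw [← sub_div, ← h6]
        field_simp
      refine ⟨ht0, fun p => gP p.1, fun c => g c.1.1 (Quotient.out c.1.2), fun a => ?_⟩
      have h6 := hg2 a.1 a.2
      have h6' : ext v.1 a.1 = v.1 a := by
        simp only [ext]
        rw [dif_pos a.2]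
      rw [h6'] at h6
      have h7 : ∀ a ∈ A, g a.2.1 (act a.2 a.1) = g a.2.1 a.1 := by
        intro a ha
        have h8 := hg1 a ha
        have h9 : F v.2 a = 0 := by
          simp only [F, ht0, Pi.zero_apply, zero_mul, Finset.sum_const_zero]
        rw [h9] at h8
        linarith
      have h10 : ∀ (i : I) (p q : Ω), Joined act (Ai bl A i) p q → g i p = g i q := by
        intro i p q h
        induction h with
        | rel x y hxy =>
          obtain ⟨z, hz, rfl⟩ := hxy
          obtain ⟨hz1, hz2⟩ := mem_Ai.1 hz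
          have := h7 (x, z) hz1
          have hz3 : z.1 = i := hz2
          simp only at this
          rw [hz3] at this
          exact this.symm
        | refl x => rfl
        | symm x y _ ih => exact ih.symm
        | trans x y z _ _ ih1 ih2 => exact ih1.trans ih2
      have h11 : g a.1.2 (Quotient.out (Quotient.mk (st bl act A a.1.2) a.1.1)) = g a.1.2 a.1.1 :=
        h10 _ _ _ (joined_out bl act A a.1.2 a.1.1)
      show v.1 a = g a.1.2 (Quotient.out (Quotient.mk (st bl act A a.1.2) a.1.1)) - gP a.1.1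
      rw [h11]
      exact h6)
  simp only [Fintype.card_coe] at hlin
  omega

theorem Sys.Test.n_pos {P : Sys I K R} {sg : R → ℕ → Bool} {w : R → ℕ → ℝ} (h : P.Test sg w)
    (r : R) : 0 < P.n r := by
  rcases Nat.eq_zero_or_pos (P.n r) with h0 | h0
  · have := h.sum r
    rw [h0] at this
    simp only [Finset.range_zero, Finset.sum_empty] at this
    linarith
  · exact h0

/-- **The relative weight test.** -/
theorem weight_test (hD : S_DATA) (hN : S_NULL) (hT : S_THICK) (hE : S_EXT) (hC : S_COUNT)
    (hI : S_ISO) (P : Sys I K R) (sg : R → ℕ → Bool) (w : R → ℕ → ℝ) (h : P.Test sg w)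
    (hloc : ∀ i, LocInd (K i)) :
    LocInd P.Grp ∧ ∀ i, Function.Injective (P.inc i) := by
  obtain ⟨φ, hφ⟩ := hI I K R P
  have hdich : ∀ (Ω : Type) (act : (Σ i, K i) → Equiv.Perm Ω) (A : Finset (Ω × (Σ i, K i))) i q,
      BDev act A i q ∨ ∃ f, CCoc act A i q f := fun Ω act A i q => dichotomy hT act A i (hloc i) q
  constructor
  · refine LocInd.of_injective φ.toMonoidHom φ.injective ?_
    by_contra hcon
    obtain ⟨Ω, act, A, J, hco, hDev⟩ := hD (Σ i, K i) P.Rel hcon
    obtain ⟨Inc, S, hI, hsit⟩ := start P hco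
    obtain ⟨τP, τ, hτ, hi⟩ := main_dev (contra hE hC h (hdich Ω act A)) h.n_pos (hdich Ω act A)
      Inc.card Inc S rfl hsit
    refine hDev ⟨τP, fun a ha => ?_⟩
    have h5 := hi _ (hI a ha).1
    have h6 := hi _ (hI a ha).2
    simp only at h5 h6
    rw [← h6, hτ a ha, h5]
    rfl
  · intro i
    rw [injective_iff_map_eq_one]
    intro x hx
    have hx1 : (PresentedGroup.of ⟨i, x⟩ : PG P.Rel) = 1 := by
      rw [← hφ, hx, map_one]
    obtain ⟨Ω, act, A, J, b, hco, hpath, hcl⟩ := hN (Σ i, K i) P.Rel [(⟨i, x⟩, true)] hx1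
    obtain ⟨Inc, S, hI, hsit⟩ := start P hco
    have hred := main_red (contra hE hC h (hdich Ω act A)) h.n_pos Inc.card Inc S rfl hsit
    have hB : BDev act A i b := by
      refine (hdich Ω act A i b).resolve_right ?_
      rintro ⟨f, hf1, hf2, hf3⟩
      obtain ⟨gP, g, hg1, hg2⟩ := hred f (fun _ => 0) hf2
        (fun s hs => absurd hs (Finset.notMem_empty _))
      refine hf3 ⟨g i, fun a ha hb hj => ?_⟩
      have := hg1 a ha
      rwa [hb] at this
    obtain ⟨τ, hτ⟩ := hB
    have h5 : (b, (⟨i, x⟩ : Σ i, K i)) ∈ A := by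
      have := hpath.1
      simpa [side] using this
    have h6 := hτ _ h5 rfl (Relation.EqvGen.refl _)
    have h7 : act (⟨i, x⟩ : Σ i, K i) b = b := by
      have := hcl
      simpa [ev, step] using this
    simp only at h6
    rw [h7, ui_mk] at h6
    exact (mul_eq_left.1 h6.symm)

end Pool.Agent.H10.W
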