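import Pool.Agent.H10.W.Def
import Pool.Agent.H10.Inj.Data

/-!
# Paths in the cosets of a subgroup of a free group
-/

set_option autoImplicit false

namespace Pool.Agent.H10.W.Cos

open Pool.Agent.H10.Inj.Data

section paths

variable {V Ω : Type}

/-- the letter -/
def lt (x : V × Bool) : FreeGroup V := if x.2 then FreeGroup.of x.1 else (FreeGroup.of x.1)⁻¹

theorem mk_cons (x : V × Bool) (W : List (V × Bool)) :
    FreeGroup.mk (x :: W) = lt x * FreeGroup.mk W := by
  obtain ⟨v, b⟩ := x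
  unfold lt
  cases b
  · rw [if_neg (by simp)]
    rfl
  · rw [if_pos rfl]
    rfl

/-- the sides of a path -/
def sides (act : V → Equiv.Perm Ω) : List (V × Bool) → Ω → List (Ω × V)
  | [], _ => []
  | x :: W, p => side act x p :: sides act W (step act x p)

theorem pathIn_iff (act : V → Equiv.Perm Ω) (A : Finset (Ω × V)) (W : List (V × Bool)) :
    ∀ p, PathIn act A W p ↔ ∀ a ∈ sides act W p, a ∈ A := by
  induction W with
  | nil => intro p; simp [PathIn, sides]
  | cons x W ih => intro p; simp [PathIn, sides, ih]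

theorem wval_cons {Γ : Type} [Group Γ] (u : V → Γ) (x : V × Bool) (W : List (V × Bool)) :
    wval u (x :: W) = uval u x * wval u W := by
  unfold wval
  rw [List.map_cons, List.prod_cons]

theorem dev_path {Γ : Type} [Group Γ] (u : V → Γ) (act : V → Equiv.Perm Ω) (τ : Ω → Γ)
    (A : Finset (Ω × V)) (h : ∀ a ∈ A, τ (act a.2 a.1) = τ a.1 * u a.2) (W : List (V × Bool)) :
    ∀ p, PathIn act A W p → τ (ev act W p) = τ p * wval u W := by
  induction W with
  | nil => intro p _; simp [ev, wval]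
  | cons x W ih =>
    intro p hp
    obtain ⟨h1, h2⟩ := hp
    rw [ev, ih _ h2, wval_cons, ← mul_assoc]
    congr 1
    obtain ⟨v, b⟩ := x
    have h3 := h _ h1
    cases b
    · simp only [side, step, uval, Bool.false_eq_true, if_false] at h3 ⊢
      rw [Equiv.apply_symm_apply] at h3
      rw [h3, mul_assoc, mul_inv_cancel, mul_one]
    · simpa only [side, step, uval, if_true] using h3

theorem wval_mk {Γ : Type} [Group Γ] (φ : FreeGroup V →* Γ) (W : List (V × Bool)) :
    wval (fun v => φ (FreeGroup.of v)) W = φ (FreeGroup.mk W) := by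
  induction W with
  | nil =>
    have : FreeGroup.mk ([] : List (V × Bool)) = 1 := rfl
    rw [this, map_one]
    rfl
  | cons x W ih =>
    rw [wval_cons, ih, mk_cons, map_mul]
    congr 1
    obtain ⟨v, b⟩ := x
    cases b <;> simp [uval, lt]

end paths

section act

variable {V : Type} (Λ : Subgroup (FreeGroup V))

theorem step_ac (x : V × Bool) (p : FreeGroup V ⧸ Λ) : step (ac Λ) x p = (lt x)⁻¹ • p := by
  obtain ⟨v, b⟩ := x
  cases b
  · simp only [step, lt, Bool.false_eq_true, if_false, inv_inv]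
    rw [Equiv.symm_apply_eq, ac_apply, inv_smul_smul]
  · simp only [step, lt, if_true]
    rw [ac_apply]

theorem ev_ac (W : List (V × Bool)) : ∀ p : FreeGroup V ⧸ Λ,
    ev (ac Λ) W p = (FreeGroup.mk W)⁻¹ • p := by
  induction W with
  | nil =>
    intro p
    have : FreeGroup.mk ([] : List (V × Bool)) = 1 := rfl
    rw [this, inv_one, one_smul]
    rfl
  | cons x W ih =>
    intro p
    rw [ev, ih, step_ac, mk_cons, mul_inv_rev, mul_smul]

theorem val_ac (f : (FreeGroup V ⧸ Λ) × V → ℚ) (W : List (V × Bool)) : ∀ p : FreeGroup V ⧸ Λ,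
    val (ac Λ) f W p = cc Λ f (FreeGroup.mk W)⁻¹ p := by
  induction W with
  | nil =>
    intro p
    have : FreeGroup.mk ([] : List (V × Bool)) = 1 := rfl
    rw [this, inv_one, cc_one]
    rfl
  | cons x W ih =>
    intro p
    rw [val, ih, step_ac, mk_cons, mul_inv_rev, cc_mul]
    congr 1
    obtain ⟨v, b⟩ := x
    cases b
    · simp only [side, lt, Bool.false_eq_true, if_false, inv_inv]
      rw [cc_of]
      congr 2
    · simp only [side, lt, if_true]
      rw [cc_inv, cc_of, neg_neg, smul_inv_smul]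

/-- the primitive of a cocycle which vanishes on the subgroup -/
theorem prim (f : (FreeGroup V ⧸ Λ) × V → ℚ) (hΛ0 : ∀ x ∈ Λ, cc Λ f x (bs Λ) = 0) :
    ∃ g : FreeGroup V ⧸ Λ → ℚ, ∀ a : (FreeGroup V ⧸ Λ) × V, f a = g (ac Λ a.2 a.1) - g a.1 := by
  obtain ⟨G, hG⟩ : ∃ G : FreeGroup V ⧸ Λ → ℚ, G = fun p => cc Λ f p.out (bs Λ) := ⟨_, rfl⟩
  have hGw : ∀ x : FreeGroup V, G (x • bs Λ) = cc Λ f x (bs Λ) := by
    intro x
    have h1 : ((x • bs Λ).out : FreeGroup V ⧸ Λ) = x • bs Λ := QuotientGroup.out_eq' _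
    have h2 : x⁻¹ * (x • bs Λ).out ∈ Λ := by
      rw [smul_bs] at h1 ⊢
      exact QuotientGroup.eq.1 h1.symm
    have h3 : (x • bs Λ).out = x * (x⁻¹ * (x • bs Λ).out) := by group
    rw [hG]
    simp only
    rw [h3, cc_mul, hΛ0 _ h2, (smul_bs_iff Λ _).2 h2, zero_add]
  refine ⟨G, fun a => ?_⟩
  obtain ⟨p, x⟩ := a
  obtain ⟨y, rfl⟩ : ∃ y : FreeGroup V, y • bs Λ = p :=
    ⟨p.out, by rw [smul_bs]; exact QuotientGroup.out_eq' _⟩
  simp only [ac_apply]
  rw [← mul_smul, hGw, hGw, cc_mul, cc_inv, cc_of]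
  rw [smul_inv_smul]
  ring

/-- the elements which fix the base point and on which the cocycle vanishes form a subgroup -/
theorem van (f : (FreeGroup V ⧸ Λ) × V → ℚ) (T : Set (FreeGroup V))
    (hT : ∀ x ∈ T, x • bs Λ = bs Λ ∧ cc Λ f x (bs Λ) = 0) (x : FreeGroup V)
    (hx : x ∈ Subgroup.closure T) : x • bs Λ = bs Λ ∧ cc Λ f x (bs Λ) = 0 := by
  induction hx using Subgroup.closure_induction with
  | mem x hx => exact hT x hx
  | one => exact ⟨one_smul _ _, cc_one Λ f _⟩
  | mul x y _ _ h1 h2 =>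
    refine ⟨by rw [mul_smul, h2.1, h1.1], ?_⟩
    rw [cc_mul, h2.1, h1.2, h2.2, add_zero]
  | inv x _ h =>
    have h3 : x⁻¹ • bs Λ = bs Λ := by rw [inv_smul_eq_iff, h.1]
    exact ⟨h3, by rw [cc_inv, h3, h.2, neg_zero]⟩

/-- the cocycle on a conjugate of a relator -/
theorem cc_conj (f : (FreeGroup V ⧸ Λ) × V → ℚ) (c : FreeGroup V) (W : List (V × Bool))
    (hp : FreeGroup.mk W • (c⁻¹ • bs Λ) = c⁻¹ • bs Λ)
    (h0 : val (ac Λ) f W (c⁻¹ • bs Λ) = 0) :
    cc Λ f (c * FreeGroup.mk W * c⁻¹) (bs Λ) = 0 := by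
  rw [val_ac] at h0
  have h1 : (FreeGroup.mk W)⁻¹ • (c⁻¹ • bs Λ) = c⁻¹ • bs Λ := by
    rw [inv_smul_eq_iff, hp]
  rw [cc_inv, h1] at h0
  rw [cc_mul, cc_mul, hp, cc_inv]
  linarith

end act

/-- an element of the normal closure lies in the group generated by finitely many conjugates -/
theorem fin_normal' {V : Type} (Rel : Set (List (V × Bool))) (x : FreeGroup V)
    (hx : PresentedGroup.mk (FreeGroup.mk '' Rel) x = 1) :
    ∃ J : Finset (FreeGroup V × Rel),
      x ∈ Subgroup.closure ((fun q : FreeGroup V × Rel => q.1 * FreeGroup.mk q.2.1 * q.1⁻¹) ''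
        (J : Set _)) := by
  apply fin_closure
  have h1 : x ∈ Subgroup.normalClosure (FreeGroup.mk '' Rel) := by
    rw [← QuotientGroup.eq_one_iff]
    exact hx
  refine Subgroup.closure_mono ?_ h1
  intro y hy
  obtain ⟨a, ⟨W, hW, rfl⟩, hc⟩ := Group.mem_conjugatesOfSet_iff.1 hy
  obtain ⟨c, rfl⟩ := isConj_iff.1 hc
  exact ⟨(c, ⟨W, hW⟩), rfl⟩

end Pool.Agent.H10.W.Cos
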