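import Pool.Agent.H10.W.Def

/-!
# The counting inequality
-/

set_option autoImplicit false

namespace Pool.Agent.H10.W.Count

open Finset

theorem main : S_COUNT := by
  intro Ω I Ce Ty _ _ _ _ S n pos ty vt w Inc M hinj hsum hInc h2 hlink hM
  classical
  -- the corners
  obtain ⟨C, hC⟩ : ∃ C : Finset (Σ _ : Ce, ℕ), C = S.sigma fun s => range (n s) := ⟨_, rfl⟩
  obtain ⟨P, hP⟩ : ∃ P, P = Inc.image Prod.fst := ⟨_, rfl⟩
  have memC : ∀ x : Σ _ : Ce, ℕ, x ∈ C ↔ x.1 ∈ S ∧ x.2 < n x.1 := by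
    intro x
    rw [hC, mem_sigma, mem_range]
  have hposP : ∀ x ∈ C, pos x.1 x.2 ∈ P := by
    intro x hx
    rw [hP, mem_image]
    exact ⟨_, hInc x.1 ((memC x).1 hx).1 x.2 ((memC x).1 hx).2 true, rfl⟩
  obtain ⟨K, hK⟩ : ∃ K : Ω → Finset (Σ _ : Ce, ℕ), ∀ p, K p = C.filter fun x => pos x.1 x.2 = p :=
    ⟨_, fun _ => rfl⟩
  have memK : ∀ p x, x ∈ K p ↔ x ∈ C ∧ pos x.1 x.2 = p := by
    intro p x
    rw [hK, mem_filter]
  obtain ⟨T, hT⟩ : ∃ T : Ω → Finset Ty, ∀ p, T p = (K p).image fun x => ty x.1 x.2 :=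
    ⟨_, fun _ => rfl⟩
  obtain ⟨PE, hPE⟩ : ∃ PE : Finset ((Ω × I) × Bool), PE = (C ×ˢ (univ : Finset Bool)).image
      fun x => ((pos x.1.1 x.1.2, (vt (ty x.1.1 x.1.2) x.2).1), (vt (ty x.1.1 x.1.2) x.2).2) :=
    ⟨_, rfl⟩
  have injK : ∀ p, ∀ x ∈ K p, ∀ y ∈ K p, ty x.1 x.2 = ty y.1 y.2 → x = y := by
    intro p x hx y hy hxy
    rw [memK, memC] at hx hy
    obtain ⟨e1, e2⟩ := hinj x.1 hx.1.1 x.2 hx.1.2 y.1 hy.1.1 y.2 hy.1.2 hxy (hx.2.trans hy.2.symm)
    obtain ⟨x1, x2⟩ := x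
    obtain ⟨y1, y2⟩ := y
    simp only at e1 e2
    rw [e1, e2]
  -- the weights
  have s1 : (2 * (S.card : ℝ)) ≤ ∑ x ∈ C, w (ty x.1 x.2) := by
    rw [hC, sum_sigma]
    calc (2 * (S.card : ℝ)) = ∑ _s ∈ S, (2 : ℝ) := by rw [sum_const, nsmul_eq_mul, mul_comm]
      _ ≤ _ := sum_le_sum fun s hs => hsum s hs
  have s2 : ∑ x ∈ C, w (ty x.1 x.2) = ∑ p ∈ P, ∑ y ∈ T p, w y := by
    rw [← sum_fiberwise_of_maps_to hposP]
    refine sum_congr rfl fun p _ => ?_
    rw [hT, sum_image]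
    · rw [hK]
    · intro x hx y hy hxy
      exact injK p x hx y hy hxy
  -- the condition on the link
  have s3 : ∀ p ∈ P, ∑ y ∈ T p, w y + 2 ≤ ((PE.filter fun y => y.1.1 = p).card : ℝ) := by
    intro p hp
    have hTmem : ∀ y ∈ T p, ∃ s ∈ S, ∃ j < n s, ty s j = y := by
      intro y hy
      rw [hT, mem_image] at hy
      obtain ⟨x, hx, rfl⟩ := hy
      rw [memK, memC] at hx
      exact ⟨x.1, hx.1.1, x.2, hx.1.2, rfl⟩
    -- the number of the ends with the component `i`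
    have hcount : ∀ i, ∑ s ∈ S, (((Finset.range (n s)) ×ˢ (Finset.univ : Finset Bool)).filter
        fun x => (pos s x.1, (vt (ty s x.1) x.2).1) = (p, i)).card ≤
        (((T p) ×ˢ (Finset.univ : Finset Bool)).filter fun y => (vt y.1 y.2).1 = i).card := by
      intro i
      rw [← card_sigma]
      refine card_le_card_of_injOn
        (fun z : (Σ _ : Ce, ℕ × Bool) => ((ty z.1 z.2.1, z.2.2) : Ty × Bool)) ?_ ?_
      · intro z hz
        rw [mem_coe, mem_sigma, mem_filter, mem_product, mem_range] at hz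
        obtain ⟨hz1, ⟨hz2, _⟩, hz3⟩ := hz
        rw [Prod.mk.injEq] at hz3
        rw [mem_coe, mem_filter, mem_product]
        refine ⟨⟨?_, mem_univ _⟩, hz3.2⟩
        rw [hT, mem_image]
        refine ⟨⟨z.1, z.2.1⟩, ?_, rfl⟩
        rw [memK, memC]
        exact ⟨⟨hz1, hz2⟩, hz3.1⟩
      · intro z hz z' hz' hzz
        rw [mem_coe, mem_sigma, mem_filter, mem_product, mem_range] at hz hz'
        obtain ⟨hz1, ⟨hz2, _⟩, hz3⟩ := hz
        obtain ⟨hz1', ⟨hz2', _⟩, hz3'⟩ := hz'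
        rw [Prod.mk.injEq] at hz3 hz3'
        simp only [Prod.mk.injEq] at hzz
        obtain ⟨e1, e2⟩ := hinj _ hz1 _ hz2 _ hz1' _ hz2' hzz.1 (hz3.1.trans hz3'.1.symm)
        obtain ⟨z1, z2, z3⟩ := z
        obtain ⟨z1', z2', z3'⟩ := z'
        simp only at e1 e2 hzz
        obtain ⟨_, e3⟩ := hzz
        subst e1 e2 e3
        rfl
    have hne : (T p).Nonempty := by
      rw [hP, mem_image] at hp
      obtain ⟨⟨p', i⟩, ha, hap⟩ := hp
      simp only at hap
      subst hap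
      have h3 := (h2 _ ha).trans (hcount i)
      have h4 : 0 < (((T p') ×ˢ (Finset.univ : Finset Bool)).filter
        fun y => (vt y.1 y.2).1 = i).card := lt_of_lt_of_le Nat.zero_lt_two h3
      obtain ⟨y, hy⟩ := card_pos.1 h4
      rw [mem_filter, mem_product] at hy
      exact ⟨_, hy.1.1⟩
    have h1 : ∀ i : I, (((T p) ×ˢ (Finset.univ : Finset Bool)).filter
        fun y => (vt y.1 y.2).1 = i).card ≠ 1 := by
      intro i
      by_cases hi : (p, i) ∈ Inc
      · have := (h2 _ hi).trans (hcount i)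
        omega
      · have : (((T p) ×ˢ (Finset.univ : Finset Bool)).filter
          fun y => (vt y.1 y.2).1 = i) = ∅ := by
          rw [filter_eq_empty_iff]
          intro y hy hyi
          rw [mem_product, hT, mem_image] at hy
          obtain ⟨⟨x, hx, hxy⟩, _⟩ := hy
          rw [memK, memC] at hx
          have := hInc x.1 hx.1.1 x.2 hx.1.2 y.2
          rw [hxy, hyi, hx.2] at this
          exact hi this
        rw [this, card_empty]
        omega
    refine (hlink (T p) hne hTmem h1).trans ?_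
    rw [Nat.cast_le]
    refine card_le_card_of_injOn (fun v : I × Bool => (((p, v.1), v.2) : (Ω × I) × Bool)) ?_ ?_
    · intro v hv
      rw [mem_coe, mem_image] at hv
      obtain ⟨y, hy, rfl⟩ := hv
      rw [mem_product, hT, mem_image] at hy
      obtain ⟨⟨x, hx, hxy⟩, _⟩ := hy
      rw [memK] at hx
      rw [mem_coe, mem_filter]
      refine ⟨?_, rfl⟩
      rw [hPE, mem_image]
      refine ⟨(x, y.2), mem_product.2 ⟨hx.1, mem_univ _⟩, ?_⟩
      simp only
      rw [hx.2, hxy]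
    · intro v _ v' _ hv
      simp only [Prod.mk.injEq] at hv
      exact Prod.ext hv.1.2 hv.2
  -- the ends
  have hPEInc : ∀ y ∈ PE, y.1 ∈ Inc := by
    intro y hy
    rw [hPE, mem_image] at hy
    obtain ⟨x, hx, rfl⟩ := hy
    rw [mem_product, memC] at hx
    exact hInc x.1.1 hx.1.1 x.1.2 hx.1.2 x.2
  have hdis : Disjoint PE M := by
    rw [Finset.disjoint_left]
    intro y hy hy'
    rw [hPE, mem_image] at hy
    obtain ⟨x, hx, rfl⟩ := hy
    rw [mem_product, memC] at hx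
    exact (hM _ hy').2 x.1.1 hx.1.1 x.1.2 hx.1.2 x.2 ⟨rfl, rfl⟩
  have hcard : PE.card + M.card ≤ 2 * Inc.card := by
    rw [← card_union_of_disjoint hdis]
    have hsub : PE ∪ M ⊆ Inc ×ˢ (univ : Finset Bool) := by
      intro y hy
      rw [mem_product]
      refine ⟨?_, mem_univ _⟩
      rcases mem_union.1 hy with h | h
      · exact hPEInc y h
      · exact (hM y h).1
    have := card_le_card hsub
    rw [card_product, card_univ, Fintype.card_bool] at this
    omega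
  have hPEsum : PE.card = ∑ p ∈ P, (PE.filter fun y => y.1.1 = p).card := by
    refine card_eq_sum_card_fiberwise (f := fun y : (Ω × I) × Bool => y.1.1) ?_
    intro y hy
    rw [mem_coe, hP]
    exact mem_image_of_mem _ (hPEInc y (mem_coe.1 hy))
  have s4 : ∑ p ∈ P, (∑ y ∈ T p, w y + 2) ≤ (PE.card : ℝ) := by
    rw [hPEsum, Nat.cast_sum]
    exact sum_le_sum s3
  rw [sum_add_distrib, ← s2, sum_const, nsmul_eq_mul] at s4
  have s5 : (2 * (S.card : ℝ)) + P.card * 2 + M.card ≤ 2 * Inc.card := by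
    have : (PE.card : ℝ) + M.card ≤ 2 * Inc.card := by exact_mod_cast hcard
    linarith
  rw [← hP]
  have s6 : ((2 * S.card + 2 * P.card + M.card : ℕ) : ℝ) ≤ ((2 * Inc.card : ℕ) : ℝ) := by
    push_cast
    linarith
  exact_mod_cast s6

end Pool.Agent.H10.W.Count
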