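import Pool.Agent.H10.W.Cos

/-!
# W-DATA: a finite complex without first rational cohomology which is not developable
-/

set_option autoImplicit false

namespace Pool.Agent.H10.W.Data

open Pool.Agent.H10.Inj.Data Pool.Agent.H10.W.Cos

theorem main : S_DATA := by
  classical
  intro V Rel hL
  unfold Pool.Agent.H10.Inj.LocInd at hL
  push Not at hL
  obtain ⟨H, ⟨T0, hT0⟩, hne, hno⟩ := hL
  obtain ⟨w', hw'⟩ : ∃ w' : {x // x ∈ T0} → List (V × Bool),
      ∀ i, PresentedGroup.mk (FreeGroup.mk '' Rel) (FreeGroup.mk (w' i)) = i.1 := by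
    have : ∀ i : {x // x ∈ T0}, ∃ w, PresentedGroup.mk (FreeGroup.mk '' Rel) (FreeGroup.mk w) = i.1 :=
      fun i => by
        obtain ⟨y, hy⟩ := PresentedGroup.mk_surjective (FreeGroup.mk '' Rel) i.1
        refine ⟨y.toWord, ?_⟩
        rw [FreeGroup.mk_toWord]
        exact hy
    choose w hw using this
    exact ⟨w, hw⟩
  obtain ⟨w, hwd⟩ : ∃ w : {x // x ∈ T0} → FreeGroup V, ∀ i, w i = FreeGroup.mk (w' i) :=
    ⟨_, fun _ => rfl⟩
  have hw : ∀ i, PresentedGroup.mk (FreeGroup.mk '' Rel) (w i) = i.1 := fun i => by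
    rw [hwd, hw']
  have hmem : ∀ i : {x // x ∈ T0}, i.1 ∈ H := fun i => by
    rw [← hT0]; exact Subgroup.subset_closure i.2
  set Θ : FreeGroup {x // x ∈ T0} →* H := FreeGroup.lift fun i => ⟨i.1, hmem i⟩ with hΘd
  have hΘof : ∀ i, ((Θ (FreeGroup.of i) : H) : PG Rel) = i.1 := fun i => by
    rw [hΘd, FreeGroup.lift_apply_of]
  have hΘ : Function.Surjective Θ := by
    have h1 : ∀ x ∈ Subgroup.closure (T0 : Set (PG Rel)), ∃ u, ((Θ u : H) : PG Rel) = x := by
      intro x hx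
      induction hx using Subgroup.closure_induction with
      | mem x hx => exact ⟨FreeGroup.of ⟨x, hx⟩, hΘof _⟩
      | one => exact ⟨1, by rw [map_one]; rfl⟩
      | mul x y _ _ h1 h2 =>
        obtain ⟨u, rfl⟩ := h1
        obtain ⟨v, rfl⟩ := h2
        exact ⟨u * v, by rw [map_mul]; rfl⟩
      | inv x _ h =>
        obtain ⟨u, rfl⟩ := h
        exact ⟨u⁻¹, by rw [map_inv]; rfl⟩
    intro x
    obtain ⟨u, hu⟩ := h1 x.1 (by rw [hT0]; exact x.2)
    exact ⟨u, Subtype.ext hu⟩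
  have hΘw : ∀ u, ((Θ u : H) : PG Rel) =
      PresentedGroup.mk (FreeGroup.mk '' Rel) (FreeGroup.lift w u) := by
    intro u
    have h1 : H.subtype.comp Θ =
        (PresentedGroup.mk (FreeGroup.mk '' Rel)).comp (FreeGroup.lift w) := by
      apply FreeGroup.ext_hom
      intro i
      simp only [MonoidHom.comp_apply, FreeGroup.lift_apply_of]
      rw [hw i]
      exact hΘof i
    exact DFunLike.congr_fun h1 u
  have htop := span_top Θ hΘ hno
  -- finitely many conjugates suffice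
  obtain ⟨cj, hcj⟩ : ∃ cj : FreeGroup V × Rel → FreeGroup V,
      cj = fun q => q.1 * FreeGroup.mk q.2.1 * q.1⁻¹ := ⟨_, rfl⟩
  have hmono : ∀ {J J' : Finset (FreeGroup V × Rel)}, J ⊆ J' →
      ({y | ∃ u, FreeGroup.lift w u ∈ Subgroup.closure (cj '' (J : Set _)) ∧ ab u = y} :
        Set ({x // x ∈ T0} → ℚ)) ⊆
      {y | ∃ u, FreeGroup.lift w u ∈ Subgroup.closure (cj '' (J' : Set _)) ∧ ab u = y} := by
    rintro J J' hJ y ⟨u, hu, rfl⟩
    exact ⟨u, Subgroup.closure_mono (Set.image_mono (Finset.coe_subset.2 hJ)) hu, rfl⟩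
  have hone : ∀ y ∈ Submodule.span ℚ (ab '' (Θ.ker : Set (FreeGroup {x // x ∈ T0}))),
      ∃ J : Finset (FreeGroup V × Rel), y ∈ Submodule.span ℚ
        ({y | ∃ u, FreeGroup.lift w u ∈ Subgroup.closure (cj '' (J : Set _)) ∧ ab u = y} :
          Set ({x // x ∈ T0} → ℚ)) := by
    intro y hy
    induction hy using Submodule.span_induction with
    | mem y hy =>
      obtain ⟨u, hu, rfl⟩ := hy
      have h1 : PresentedGroup.mk (FreeGroup.mk '' Rel) (FreeGroup.lift w u) = 1 := by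
        rw [← hΘw, (MonoidHom.mem_ker).1 hu]
        rfl
      obtain ⟨J, hJ⟩ := fin_normal' Rel _ h1
      rw [← hcj] at hJ
      exact ⟨J, Submodule.subset_span ⟨u, hJ, rfl⟩⟩
    | zero => exact ⟨∅, zero_mem _⟩
    | add x y _ _ h1 h2 =>
      obtain ⟨J1, h1⟩ := h1
      obtain ⟨J2, h2⟩ := h2
      exact ⟨J1 ∪ J2, add_mem (Submodule.span_mono (hmono Finset.subset_union_left) h1)
        (Submodule.span_mono (hmono Finset.subset_union_right) h2)⟩
    | smul a x _ h =>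
      obtain ⟨J, h⟩ := h
      exact ⟨J, Submodule.smul_mem _ a h⟩
  have hall : ∀ i : {x // x ∈ T0}, ∃ J : Finset (FreeGroup V × Rel),
      (Pi.single i (1 : ℚ) : {x // x ∈ T0} → ℚ) ∈ Submodule.span ℚ
        ({y | ∃ u, FreeGroup.lift w u ∈ Subgroup.closure (cj '' (J : Set _)) ∧ ab u = y} :
          Set ({x // x ∈ T0} → ℚ)) := fun i => hone _ (by rw [htop]; trivial)
  choose Ji hJi using hall
  obtain ⟨J, hJ⟩ : ∃ J : Finset (FreeGroup V × Rel), J = Finset.univ.biUnion Ji := ⟨_, rfl⟩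
  have hJspan : ∀ i : {x // x ∈ T0},
      (Pi.single i (1 : ℚ) : {x // x ∈ T0} → ℚ) ∈ Submodule.span ℚ
        ({y | ∃ u, FreeGroup.lift w u ∈ Subgroup.closure (cj '' (J : Set _)) ∧ ab u = y} :
          Set ({x // x ∈ T0} → ℚ)) := fun i =>
    Submodule.span_mono (hmono (by rw [hJ]; exact Finset.subset_biUnion_of_mem Ji (Finset.mem_univ i)))
      (hJi i)
  -- the group and the cosets
  obtain ⟨Λ, hΛ⟩ : ∃ Λ : Subgroup (FreeGroup V),
      Λ = Subgroup.closure (Set.range w ∪ cj '' (J : Set _)) := ⟨_, rfl⟩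
  have hwΛ : ∀ i, w i ∈ Λ := fun i => by
    rw [hΛ]; exact Subgroup.subset_closure (Or.inl ⟨i, rfl⟩)
  have hcΛ : ∀ q ∈ J, cj q ∈ Λ := fun q hq => by
    rw [hΛ]; exact Subgroup.subset_closure (Or.inr ⟨q, hq, rfl⟩)
  have hrel : ∀ q ∈ J, FreeGroup.mk q.2.1 • (q.1⁻¹ • bs Λ) = q.1⁻¹ • bs Λ := by
    intro q hq
    have h1 := (smul_bs_iff Λ (cj q)).2 (hcΛ q hq)
    rw [hcj] at h1
    simp only [mul_smul] at h1
    rw [eq_inv_smul_iff]
    exact h1
  obtain ⟨S, hS⟩ : ∃ S : Finset ((FreeGroup V ⧸ Λ) × List (V × Bool)),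
      S = J.image fun q => (q.1⁻¹ • bs Λ, q.2.1) := ⟨_, rfl⟩
  obtain ⟨A, hA⟩ : ∃ A : Finset ((FreeGroup V ⧸ Λ) × V),
      A = (S.biUnion fun s => (sides (ac Λ) s.2 s.1).toFinset) ∪
        Finset.univ.biUnion fun i => (sides (ac Λ) (w' i) (bs Λ)).toFinset := ⟨_, rfl⟩
  refine ⟨FreeGroup V ⧸ Λ, ac Λ, A, S, ⟨?_, ?_⟩, ?_⟩
  · -- the relators
    intro s hs
    refine ⟨?_, ?_, ?_⟩
    · rw [hS] at hs
      obtain ⟨q, hq, rfl⟩ := Finset.mem_image.1 hs
      exact q.2.2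
    · rw [pathIn_iff]
      intro a ha
      rw [hA]
      exact Finset.mem_union_left _ (Finset.mem_biUnion.2 ⟨s, hs, List.mem_toFinset.2 ha⟩)
    · rw [hS] at hs
      obtain ⟨q, hq, rfl⟩ := Finset.mem_image.1 hs
      rw [ev_ac, inv_smul_eq_iff]
      exact (hrel q hq).symm
  · -- the cohomology
    intro f hf
    have hcj0 : ∀ x ∈ cj '' (J : Set _), x • bs Λ = bs Λ ∧ cc Λ f x (bs Λ) = 0 := by
      rintro x ⟨q, hq, rfl⟩
      refine ⟨(smul_bs_iff Λ _).2 (hcΛ q hq), ?_⟩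
      rw [hcj]
      exact cc_conj Λ f q.1 q.2.1 (hrel q hq) (hf (q.1⁻¹ • bs Λ, q.2.1) (by
        rw [hS]; exact Finset.mem_image.2 ⟨q, hq, rfl⟩))
    have hcl := van Λ f (cj '' (J : Set _)) hcj0
    -- the linear functional
    obtain ⟨ℓ, hℓ⟩ : ∃ ℓ : ({x // x ∈ T0} → ℚ) →ₗ[ℚ] ℚ,
        ℓ = ∑ i, (cc Λ f (w i) (bs Λ)) • LinearMap.proj i := ⟨_, rfl⟩
    have hℓ1 : ∀ i, ℓ (Pi.single i 1) = cc Λ f (w i) (bs Λ) := by
      intro i
      rw [hℓ, LinearMap.sum_apply, Finset.sum_eq_single i]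
      · simp
      · intro j _ hj
        simp [Pi.single_eq_of_ne hj]
      · intro h; exact absurd (Finset.mem_univ i) h
    have hlin : ∀ u : FreeGroup {x // x ∈ T0}, FreeGroup.lift w u • bs Λ = bs Λ ∧
        cc Λ f (FreeGroup.lift w u) (bs Λ) = ℓ (ab u) := by
      intro u
      induction u using FreeGroup.induction_on with
      | C1 => rw [map_one, ab_one, map_zero]; exact ⟨one_smul _ _, cc_one Λ f _⟩
      | of i =>
        rw [FreeGroup.lift_apply_of, ab_of, hℓ1]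
        exact ⟨(smul_bs_iff Λ _).2 (hwΛ i), rfl⟩
      | inv_of i ih =>
        have h3 : (FreeGroup.lift w (FreeGroup.of i))⁻¹ • bs Λ = bs Λ := by
          rw [inv_smul_eq_iff, ih.1]
        rw [map_inv, ab_inv, map_neg]
        exact ⟨h3, by rw [cc_inv, h3, ih.2]⟩
      | mul u v h1 h2 =>
        rw [map_mul, ab_mul, map_add]
        refine ⟨by rw [mul_smul, h2.1, h1.1], ?_⟩
        rw [cc_mul, h2.1, h1.2, h2.2, add_comm]
    have hw0 : ∀ i, cc Λ f (w i) (bs Λ) = 0 := by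
      intro i
      rw [← hℓ1]
      have hle : Submodule.span ℚ
        ({y | ∃ u, FreeGroup.lift w u ∈ Subgroup.closure (cj '' (J : Set _)) ∧ ab u = y} :
          Set ({x // x ∈ T0} → ℚ)) ≤ LinearMap.ker ℓ := by
        rw [Submodule.span_le]
        rintro y ⟨u, hu, rfl⟩
        show ℓ (ab u) = 0
        rw [← (hlin u).2]
        exact (hcl _ hu).2
      exact hle (hJspan i)
    obtain ⟨g, hg⟩ := prim Λ f fun x hx => (van Λ f (Set.range w ∪ cj '' (J : Set _)) (by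
      rintro x (⟨i, rfl⟩ | hx)
      · exact ⟨(smul_bs_iff Λ _).2 (hwΛ i), hw0 i⟩
      · exact hcj0 x hx) x (hΛ ▸ hx)).2
    exact ⟨g, fun a _ => hg a⟩
  · -- not developable
    rintro ⟨τ, hτ⟩
    apply hne
    rw [← hT0, Subgroup.closure_eq_bot_iff]
    intro x hx
    have h1 := dev_path (fun v => (PresentedGroup.of v : PG Rel)) (ac Λ) τ A hτ (w' ⟨x, hx⟩)
      (bs Λ) (by
        rw [pathIn_iff]
        intro a ha
        rw [hA]
        exact Finset.mem_union_right _ (Finset.mem_biUnion.2 ⟨⟨x, hx⟩, Finset.mem_univ _,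
          List.mem_toFinset.2 ha⟩))
    have h2 : ev (ac Λ) (w' ⟨x, hx⟩) (bs Λ) = bs Λ := by
      rw [ev_ac, inv_smul_eq_iff, ← hwd, (smul_bs_iff Λ _).2 (hwΛ _)]
    have h3 : wval (fun v => (PresentedGroup.of v : PG Rel)) (w' ⟨x, hx⟩) = x := by
      have h4 := wval_mk (PresentedGroup.mk (FreeGroup.mk '' Rel)) (w' ⟨x, hx⟩)
      rw [hw'] at h4
      exact h4
    rw [h2, h3] at h1
    have h5 : x = 1 := by
      have := h1.symm
      rwa [mul_eq_left] at this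
    exact h5

end Pool.Agent.H10.W.Data
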