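import Pool.Agent.H10.Inj.Def

/-!
# The relative weight test for local indicability: definitions and statements of the parts

Let `K i`, `i : I`, be groups and let relators be given which are words in the elements of the groups
`K i`. The group `Sys.Grp` is the quotient of the free product of the groups `K i` by the relators.
-/

set_option autoImplicit false

namespace Pool.Agent.H10.W

open Pool.Agent.H10.Inj (LocInd Joined)

/-! ### Paths -/

section paths

variable {V Ω : Type}

/-- The end of the path with the letter `x` (`true`: forwards) from `p`. -/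
def step (act : V → Equiv.Perm Ω) (x : V × Bool) (p : Ω) : Ω :=
  if x.2 then act x.1 p else (act x.1).symm p

/-- The side which belongs to the letter `x` at `p`. -/
def side (act : V → Equiv.Perm Ω) (x : V × Bool) (p : Ω) : Ω × V :=
  if x.2 then (p, x.1) else ((act x.1).symm p, x.1)

/-- The end of the path `W` from `p`. -/
def ev (act : V → Equiv.Perm Ω) : List (V × Bool) → Ω → Ω
  | [], p => p
  | x :: W, p => ev act W (step act x p)

/-- The value of `f` on the path `W` from `p`. -/
def val (act : V → Equiv.Perm Ω) (f : Ω × V → ℚ) : List (V × Bool) → Ω → ℚ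
  | [], _ => 0
  | x :: W, p => (if x.2 then f (side act x p) else - f (side act x p)) +
      val act f W (step act x p)

/-- The sides of the path `W` from `p` belong to `A`. -/
def PathIn (act : V → Equiv.Perm Ω) (A : Finset (Ω × V)) : List (V × Bool) → Ω → Prop
  | [], _ => True
  | x :: W, p => side act x p ∈ A ∧ PathIn act A W (step act x p)

/-- The value of a letter. -/
def uval {Γ : Type} [Group Γ] (u : V → Γ) (x : V × Bool) : Γ := if x.2 then u x.1 else (u x.1)⁻¹

/-- The value of a word. -/
def wval {Γ : Type} [Group Γ] (u : V → Γ) (W : List (V × Bool)) : Γ := (W.map (uval u)).prod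

end paths

/-- The group with the generators `V` and the relators `Rel` (lists of signed letters). -/
abbrev PG {V : Type} (Rel : Set (List (V × Bool))) : Type := PresentedGroup (FreeGroup.mk '' Rel)

/-- A finite complex over the presentation `⟨V | Rel⟩`, with the 1-cells `A` and the 2-cells `J`, and
without first rational cohomology. -/
def NoCoh {V Ω : Type} (Rel : Set (List (V × Bool))) (act : V → Equiv.Perm Ω)
    (A : Finset (Ω × V)) (J : Finset (Ω × List (V × Bool))) : Prop :=
  (∀ s ∈ J, s.2 ∈ Rel ∧ PathIn act A s.2 s.1 ∧ ev act s.2 s.1 = s.1) ∧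
  ∀ f : Ω × V → ℚ, (∀ s ∈ J, val act f s.2 s.1 = 0) →
    ∃ g : Ω → ℚ, ∀ a ∈ A, f a = g (act a.2 a.1) - g a.1

/-- Stub W-DATA: a finite complex without first cohomology which is not developable. -/
def S_DATA : Prop :=
  ∀ (V : Type) (Rel : Set (List (V × Bool))), ¬ LocInd (PG Rel) →
    ∃ (Ω : Type) (act : V → Equiv.Perm Ω) (A : Finset (Ω × V))
      (J : Finset (Ω × List (V × Bool))), NoCoh Rel act A J ∧
      ¬ ∃ τ : Ω → PG Rel, ∀ a ∈ A, τ (act a.2 a.1) = τ a.1 * PresentedGroup.of a.2

/-- Stub W-NULL: a finite complex without first cohomology in which the relation `W` holds. -/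
def S_NULL : Prop :=
  ∀ (V : Type) (Rel : Set (List (V × Bool))) (W : List (V × Bool)),
    PresentedGroup.mk (FreeGroup.mk '' Rel) (FreeGroup.mk W) = 1 →
    ∃ (Ω : Type) (act : V → Equiv.Perm Ω) (A : Finset (Ω × V))
      (J : Finset (Ω × List (V × Bool))) (b : Ω), NoCoh Rel act A J ∧
      PathIn act A W b ∧ ev act W b = b

/-- Stub W-THICK: a component of a finite graph over a locally indicable group is developable or has
a rational cocycle which is not a coboundary. -/
def S_THICK : Prop :=
  ∀ (Γ : Type) [Group Γ], LocInd Γ → ∀ (V Ω : Type) (act : V → Equiv.Perm Ω) (u : V → Γ)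
    (A : Finset (Ω × V)) (q : Ω),
    (∃ τ : Ω → Γ, ∀ a ∈ A, Joined act A q a.1 → τ (act a.2 a.1) = τ a.1 * u a.2) ∨
    ∃ f : Ω × V → ℚ, (∀ a, f a ≠ 0 → a ∈ A ∧ Joined act A q a.1) ∧
      (∀ (W : List (V × Bool)) (p : Ω), PathIn act A W p → ev act W p = p → wval u W = 1 →
        val act f W p = 0) ∧
      ¬ ∃ g : Ω → ℚ, ∀ a ∈ A, Joined act A q a.1 → f a = g (act a.2 a.1) - g a.1

/-! ### Systems of relators over a family of groups -/

/-- Relators over the family of groups `K`: the relator `r` is the product of the `n r` elements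
`l r 0, …, l r (n r - 1)` of the groups `K i`. -/
structure Sys (I : Type) (K : I → Type) (R : Type) where
  n : R → ℕ
  l : R → ℕ → Σ i, K i

variable {I : Type} {K : I → Type} {R : Type} [∀ i, Group (K i)]

/-- The relator `r`. -/
noncomputable def Sys.word (P : Sys I K R) (r : R) : Monoid.CoprodI K :=
  ((List.range (P.n r)).map fun j => Monoid.CoprodI.of (P.l r j).2).prod

/-- The quotient of the free product of the groups `K i` by the relators. -/
abbrev Sys.Grp (P : Sys I K R) : Type :=
  Monoid.CoprodI K ⧸ Subgroup.normalClosure (Set.range P.word)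

/-- The homomorphism from `K i` to the group. -/
noncomputable def Sys.inc (P : Sys I K R) (i : I) : K i →* P.Grp :=
  (QuotientGroup.mk' _).comp Monoid.CoprodI.of

/-- The index of the letter before the corner `j` of the relator `r`. -/
def Sys.prev (P : Sys I K R) (r : R) (j : ℕ) : ℕ := if j = 0 then P.n r - 1 else j - 1

/-- The two vertices of the link which are joined by the corner `x = (r, j)`, for given signs `sg` of
the letters: the start of the letter `j` (`t = true`) and the end of the letter before it
(`t = false`). The vertices of the link are the pairs of an index `i : I` and a direction. -/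
def Sys.vert (P : Sys I K R) (sg : R → ℕ → Bool) (x : R × ℕ) (t : Bool) : I × Bool :=
  if t then ((P.l x.1 x.2).1, sg x.1 x.2)
  else ((P.l x.1 (P.prev x.1 x.2)).1, !sg x.1 (P.prev x.1 x.2))

/-- The positive elements of `K i`: the letters with the sign `true` and the inverses of the letters
with the sign `false`. -/
def Sys.Pos (P : Sys I K R) (sg : R → ℕ → Bool) (i : I) : Set (K i) :=
  {x | ∃ r j, j < P.n r ∧ ((sg r j = true ∧ P.l r j = ⟨i, x⟩) ∨
    (sg r j = false ∧ P.l r j = ⟨i, x⁻¹⟩))}

open Classical in
/-- The weight test: no product of positive elements is trivial; the weights of the corners of a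
relator add up to at least two; if `T` is a nonempty finite set of corners such that no `i : I` occurs
exactly once as a component of an end of a corner in `T`, then the weights of the elements of `T` add up
to at most the number of the vertices of the link which are ends of corners in `T`, minus two. -/
structure Sys.Test (P : Sys I K R) (sg : R → ℕ → Bool) (w : R → ℕ → ℝ) : Prop where
  pos : ∀ i, (1 : K i) ∉ Subsemigroup.closure (P.Pos sg i)
  sum : ∀ r, 2 ≤ ∑ j ∈ Finset.range (P.n r), w r j
  link : ∀ T : Finset (R × ℕ), T.Nonempty → (∀ x ∈ T, x.2 < P.n x.1) →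
    (∀ i : I, ((T ×ˢ (Finset.univ : Finset Bool)).filter fun y =>
      (P.vert sg y.1 y.2).1 = i).card ≠ 1) →
    ∑ x ∈ T, w x.1 x.2 + 2 ≤
      (((T ×ˢ (Finset.univ : Finset Bool)).image fun y => P.vert sg y.1 y.2).card : ℝ)

/-! ### The presentation -/

/-- The relators of the presentation with the generators `Σ i, K i`: all words in the elements of one
of the groups with trivial value, and the given relators. -/
def Sys.Rel (P : Sys I K R) : Set (List ((Σ i, K i) × Bool)) :=
  {W | ∃ (i : I) (W' : List (K i × Bool)), wval (fun x : K i => x) W' = 1 ∧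
    W = W'.map fun x => (⟨i, x.1⟩, x.2)} ∪
  Set.range fun r => (List.range (P.n r)).map fun j => (P.l r j, true)

/-- Stub W-ISO: the presentation defines the group. -/
def S_ISO : Prop :=
  ∀ (I : Type) (K : I → Type) (R : Type) [∀ i, Group (K i)] (P : Sys I K R),
    ∃ φ : P.Grp ≃* PG P.Rel, ∀ (i : I) (x : K i), φ (P.inc i x) = PresentedGroup.of ⟨i, x⟩

/-- Stub W-COUNT: the counting inequality. The cell `s` has `n s` corners; the corner `j` of `s` lies
at the position `pos s j` and has the type `ty s j`; it has two ends `t : Bool`, belonging to the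
vertices `vt (ty s j) t : I × Bool` of the link. -/
def S_COUNT : Prop :=
  ∀ (Ω I Ce Ty : Type) [DecidableEq Ω] [DecidableEq I] [DecidableEq Ce] [DecidableEq Ty]
    (S : Finset Ce) (n : Ce → ℕ) (pos : Ce → ℕ → Ω) (ty : Ce → ℕ → Ty) (vt : Ty → Bool → I × Bool)
    (w : Ty → ℝ) (Inc : Finset (Ω × I)) (M : Finset ((Ω × I) × Bool)),
    (∀ s ∈ S, ∀ j < n s, ∀ s' ∈ S, ∀ j' < n s', ty s j = ty s' j' → pos s j = pos s' j' →
      s = s' ∧ j = j') →
    (∀ s ∈ S, 2 ≤ ∑ j ∈ Finset.range (n s), w (ty s j)) →
    (∀ s ∈ S, ∀ j < n s, ∀ t, (pos s j, (vt (ty s j) t).1) ∈ Inc) →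
    (∀ a ∈ Inc, 2 ≤ ∑ s ∈ S, (((Finset.range (n s)) ×ˢ (Finset.univ : Finset Bool)).filter
      fun x => (pos s x.1, (vt (ty s x.1) x.2).1) = a).card) →
    (∀ T : Finset Ty, T.Nonempty → (∀ y ∈ T, ∃ s ∈ S, ∃ j < n s, ty s j = y) →
      (∀ i : I, ((T ×ˢ (Finset.univ : Finset Bool)).filter fun y => (vt y.1 y.2).1 = i).card ≠ 1) →
      ∑ y ∈ T, w y + 2 ≤
        (((T ×ˢ (Finset.univ : Finset Bool)).image fun y => vt y.1 y.2).card : ℝ)) →
    (∀ m ∈ M, m.1 ∈ Inc ∧ ∀ s ∈ S, ∀ j < n s, ∀ t,
      ¬ (pos s j = m.1.1 ∧ vt (ty s j) t = (m.1.2, m.2))) →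
    2 * S.card + 2 * (Inc.image Prod.fst).card + M.card ≤ 2 * Inc.card

/-- Stub W-EXT: a finite nonempty set of elements of a group and a set of positive elements without
trivial products: some element has no right multiple in the set by a positive element. -/
def S_EXT : Prop :=
  ∀ (Γ T : Type) [Group Γ] (Q : Set Γ), (1 : Γ) ∉ Subsemigroup.closure Q → ∀ (S : Finset T),
    S.Nonempty → ∀ (τ : T → Γ), ∃ a ∈ S, ∀ b ∈ S, ∀ x ∈ Q, τ b ≠ τ a * x

/-- Stub W-SIGN: finitely many nontrivial elements of a locally indicable group have signs such that no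
product of positive elements is trivial. -/
def S_SIGN : Prop :=
  ∀ (Γ : Type) [Group Γ], LocInd Γ → ∀ (n : ℕ) (x : Fin n → Γ), (∀ j, x j ≠ 1) →
    ∃ σ : Fin n → Bool, (1 : Γ) ∉ Subsemigroup.closure
      (Set.range fun j => if σ j = true then x j else (x j)⁻¹)

/-- Stub W-LIM: direct limits. If every finite set of relators of a presentation is contained in a
set of relators (of a presentation on the same generators) which defines a locally indicable group,
then the group is locally indicable. -/
def S_LIM : Prop :=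
  ∀ (F : Type) [Group F] (N : Set (Subgroup F)), (∀ M ∈ N, M.Normal) → N.Nonempty →
    DirectedOn (· ≤ ·) N → (∀ M ∈ N, ∀ H : Subgroup F, H.FG → ¬ H ≤ M →
      ∃ ψ : H →* Multiplicative ℤ, (∃ x, ψ x ≠ 1) ∧ ∀ x : H, x.1 ∈ M → ψ x = 1) →
    ∀ H : Subgroup F, H.FG → (∀ M ∈ N, ¬ H ≤ M) →
      ∃ ψ : H →* Multiplicative ℤ, (∃ x, ψ x ≠ 1) ∧ ∀ x : H, (∃ M ∈ N, x.1 ∈ M) → ψ x = 1

end Pool.Agent.H10.W
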