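import Mathlib
import Pool.Agent.H10.W.Def

/-!
# W-EXT: an element without positive right multiples
-/

set_option autoImplicit false

namespace Pool.Agent.H10.W.Ext

theorem main : S_EXT := by
  intro Γ T _ Q hQ S hS τ
  let r : S → S → Prop := fun b a => ∃ x ∈ Subsemigroup.closure Q, τ b.1 = τ a.1 * x
  have : IsTrans S r := ⟨by
    rintro a b c ⟨x, hx, h1⟩ ⟨y, hy, h2⟩
    exact ⟨y * x, mul_mem hy hx, by rw [h1, h2, mul_assoc]⟩⟩
  have : Std.Irrefl r := ⟨by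
    rintro a ⟨x, hx, h⟩
    have : x = 1 := by
      have h1 : τ a.1 * x = τ a.1 * 1 := by rw [← h, mul_one]
      exact mul_left_cancel h1
    exact hQ (this ▸ hx)⟩
  have hwf : WellFounded r := Finite.wellFounded_of_trans_of_irrefl r
  obtain ⟨a0, ha0⟩ := hS
  obtain ⟨a, -, ha⟩ := hwf.has_min Set.univ ⟨⟨a0, ha0⟩, Set.mem_univ _⟩
  refine ⟨a.1, a.2, fun b hb x hx h => ?_⟩
  exact ha ⟨b, hb⟩ (Set.mem_univ _) ⟨x, Subsemigroup.subset_closure hx, h⟩

end Pool.Agent.H10.W.Ext
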