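import Pool.Agent.H10.W.Def

set_option autoImplicit false

namespace Pool.Agent.H10.W.ISO

variable {I : Type} {K : I → Type} {R : Type} [∀ i, Group (K i)] (P : Sys I K R)

theorem rel_one {W : List ((Σ i, K i) × Bool)} (h : W ∈ P.Rel) :
    (PresentedGroup.mk (FreeGroup.mk '' P.Rel) (FreeGroup.mk W)) = 1 :=
  (QuotientGroup.eq_one_iff _).2 (Subgroup.subset_normalClosure ⟨W, h, rfl⟩)

theorem mk_word {V : Type} {rels : Set (FreeGroup V)} (W : List (V × Bool)) :
    (PresentedGroup.mk rels (FreeGroup.mk W)) = wval (fun v => PresentedGroup.of v) W := by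
  have h : FreeGroup.mk W = wval (fun v => FreeGroup.of v) W := by
    induction W with
    | nil => rfl
    | cons x W ih =>
      have : FreeGroup.mk (x :: W) = FreeGroup.mk [x] * FreeGroup.mk W := rfl
      have h2 : wval (fun v => FreeGroup.of v) (x :: W) =
          uval (fun v => FreeGroup.of v) x * wval (fun v => FreeGroup.of v) W := by
        simp [wval]
      rw [this, ih, h2]
      congr 1
      obtain ⟨v, b⟩ := x
      cases b
      · simp only [uval]; rfl
      · simp only [uval]; rfl
  rw [h, wval, wval, map_list_prod, List.map_map]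
  congr 1
  refine List.map_congr_left fun x _ => ?_
  obtain ⟨v, b⟩ := x
  cases b
  · simp only [uval, Function.comp]; rfl
  · simp only [uval, Function.comp]; rfl

/-- the homomorphism from `K i` to the presented group -/
noncomputable def j (i : I) : K i →* PG P.Rel :=
  MonoidHom.mk' (fun x => PresentedGroup.of ⟨i, x⟩) (by
    intro a b
    have h : ([(a, true), (b, true), (a * b, false)] : List (K i × Bool)).map
        (fun x => ((⟨i, x.1⟩ : Σ i, K i), x.2)) ∈ P.Rel :=
      Or.inl ⟨i, _, by simp [wval, uval], rfl⟩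
    have h1 := rel_one P h
    rw [mk_word] at h1
    simp only [wval, uval, List.map_cons, List.map_nil, List.prod_cons, List.prod_nil] at h1
    simp only [if_true, mul_one] at h1
    have h2 : PresentedGroup.of (rels := FreeGroup.mk '' P.Rel) (⟨i, a⟩ : Σ i, K i) *
        PresentedGroup.of ⟨i, b⟩ = PresentedGroup.of ⟨i, a * b⟩ := by
      rw [← mul_inv_eq_one, mul_assoc]
      simpa using h1
    exact h2.symm)

/-- the homomorphism to the presented group -/
noncomputable def fwd : P.Grp →* PG P.Rel :=
  QuotientGroup.lift _ (Monoid.CoprodI.lift (j P)) (by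
    intro x hx
    have hle : Subgroup.normalClosure (Set.range P.word) ≤ (Monoid.CoprodI.lift (j P)).ker := by
      refine Subgroup.normalClosure_le_normal ?_
      rintro _ ⟨r, rfl⟩
      show Monoid.CoprodI.lift (j P) (P.word r) = 1
      have h : ((List.range (P.n r)).map fun k => (P.l r k, true)) ∈ P.Rel :=
        Or.inr ⟨r, rfl⟩
      have h1 := rel_one P h
      rw [mk_word, wval, List.map_map] at h1
      rw [Sys.word, map_list_prod, List.map_map, ← h1]
      congr 1
    exact hle hx)

theorem fwd_inc (i : I) (x : K i) : fwd P (P.inc i x) = PresentedGroup.of ⟨i, x⟩ := by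
  show Monoid.CoprodI.lift (j P) (Monoid.CoprodI.of x) = _
  rw [Monoid.CoprodI.lift_of]
  rfl

theorem lift_mk {V G : Type} [Group G] (f : V → G) (W : List (V × Bool)) :
    FreeGroup.lift f (FreeGroup.mk W) = wval f W := by
  rw [FreeGroup.lift_mk, wval]
  congr 1
  refine List.map_congr_left fun x _ => ?_
  obtain ⟨v, b⟩ := x
  cases b <;> simp [uval]

/-- the homomorphism from the presented group -/
noncomputable def bwd : PG P.Rel →* P.Grp :=
  PresentedGroup.toGroup (f := fun v : Σ i, K i => P.inc v.1 v.2) (by
    rintro _ ⟨W, hW, rfl⟩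
    rw [lift_mk]
    rcases hW with ⟨i, W', h1, rfl⟩ | ⟨r, rfl⟩
    · have : wval (fun v : Σ i, K i => P.inc v.1 v.2)
          (W'.map fun x => ((⟨i, x.1⟩ : Σ i, K i), x.2)) =
          P.inc i (wval (fun x : K i => x) W') := by
        rw [wval, wval, map_list_prod, List.map_map, List.map_map]
        congr 1
        refine List.map_congr_left fun x _ => ?_
        obtain ⟨v, b⟩ := x
        cases b <;> simp [uval]
      rw [this, h1, map_one]
    · have h2 : (QuotientGroup.mk' (Subgroup.normalClosure (Set.range P.word))) (P.word r) = 1 :=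
        (QuotientGroup.eq_one_iff _).2 (Subgroup.subset_normalClosure ⟨r, rfl⟩)
      rw [← h2, Sys.word, wval, map_list_prod, List.map_map, List.map_map]
      congr 1)

theorem bwd_of (v : Σ i, K i) : bwd P (PresentedGroup.of v) = P.inc v.1 v.2 :=
  PresentedGroup.toGroup.of _

theorem main : S_ISO := by
  intro I K R _ P
  have h1 : (bwd P).comp (fwd P) = MonoidHom.id _ := by
    refine QuotientGroup.monoidHom_ext _ ?_
    refine Monoid.CoprodI.ext_hom _ _ fun i => ?_
    ext x
    show bwd P (fwd P (P.inc i x)) = P.inc i x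
    rw [fwd_inc, bwd_of]
  have h2 : (fwd P).comp (bwd P) = MonoidHom.id _ := by
    refine PresentedGroup.ext fun v => ?_
    show fwd P (bwd P (PresentedGroup.of v)) = PresentedGroup.of v
    rw [bwd_of, fwd_inc]
  exact ⟨MonoidHom.toMulEquiv (fwd P) (bwd P) h1 h2, fun i x => fwd_inc P i x⟩

end Pool.Agent.H10.W.ISO
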