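import Pool.Agent.H10.W.Def

set_option autoImplicit false

namespace Pool.Agent.H10.W.LIM

variable {F : Type} [Group F]

/-- additive functions on `H` which vanish on `M` -/
def EM (H : Subgroup F) (M : Subgroup F) : Submodule ℚ (H → ℚ) where
  carrier := {f | (∀ x y, f (x * y) = f x + f y) ∧ ∀ x : H, x.1 ∈ M → f x = 0}
  add_mem' := by
    rintro f g ⟨hf, hf'⟩ ⟨hg, hg'⟩
    exact ⟨fun x y => by simp only [Pi.add_apply, hf, hg]; ring, fun x hx => by
      simp only [Pi.add_apply, hf' x hx, hg' x hx, add_zero]⟩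
  zero_mem' := ⟨fun _ _ => by simp, fun _ _ => rfl⟩
  smul_mem' := by
    rintro c f ⟨hf, hf'⟩
    exact ⟨fun x y => by simp only [Pi.smul_apply, hf, smul_add], fun x hx => by
      simp only [Pi.smul_apply, hf' x hx, smul_zero]⟩

theorem map_one' {H : Subgroup F} {f : H → ℚ} (hf : ∀ x y, f (x * y) = f x + f y) : f 1 = 0 := by
  have := hf 1 1
  rw [mul_one] at this; linarith

theorem map_inv' {H : Subgroup F} {f : H → ℚ} (hf : ∀ x y, f (x * y) = f x + f y) (x : H) :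
    f x⁻¹ = - f x := by
  have := hf x x⁻¹
  rw [mul_inv_cancel, map_one' hf] at this; linarith

theorem EM_anti (H : Subgroup F) {M M' : Subgroup F} (h : M ≤ M') : EM H M' ≤ EM H M :=
  fun _ hf => ⟨hf.1, fun x hx => hf.2 x (h hx)⟩

theorem finite (S : Finset F) (H : Subgroup F) (hS : Subgroup.closure (S : Set F) = H)
    (M : Subgroup F) : Module.Finite ℚ (EM H M) := by
  have hSH : ∀ s : S, (s : F) ∈ H := fun s => by rw [← hS]; exact Subgroup.subset_closure s.2
  let L : EM H M →ₗ[ℚ] (S → ℚ) :=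
    { toFun := fun f s => f.1 ⟨s.1, hSH s⟩
      map_add' := fun _ _ => rfl
      map_smul' := fun _ _ => rfl }
  refine Module.Finite.of_injective L ?_
  rw [← LinearMap.ker_eq_bot, LinearMap.ker_eq_bot']
  intro f hf
  refine Subtype.ext (funext ?_)
  rintro ⟨x, hx⟩
  show f.1 ⟨x, hx⟩ = 0
  have hx' := hx
  rw [← hS] at hx'
  have key : ∀ y (hy : y ∈ Subgroup.closure (S : Set F)) (hy' : y ∈ H), f.1 ⟨y, hy'⟩ = 0 := by
    intro y hy
    induction hy using Subgroup.closure_induction with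
    | mem y hy => intro hy'; exact congrFun hf ⟨y, hy⟩
    | one => intro _; exact map_one' f.2.1
    | mul a b ha hb iha ihb =>
      intro hy'
      have ha' : a ∈ H := hS ▸ ha
      have hb' : b ∈ H := hS ▸ hb
      have : (⟨a * b, hy'⟩ : H) = ⟨a, ha'⟩ * ⟨b, hb'⟩ := rfl
      rw [this, f.2.1, iha, ihb, add_zero]
    | inv a ha iha =>
      intro hy'
      have ha' : a ∈ H := hS ▸ ha
      have : (⟨a⁻¹, hy'⟩ : H) = (⟨a, ha'⟩ : H)⁻¹ := rfl
      rw [this, map_inv' f.2.1, iha, neg_zero]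
  exact key x hx' hx

theorem main : S_LIM := by
  classical
  intro F _ N _ hNe hdir hM H hH hHM
  obtain ⟨S, hS⟩ := hH
  have hfin := finite S H hS
  obtain ⟨M0, hM0⟩ := hNe
  -- a member with minimal dimension
  obtain ⟨M, hMN, hmin⟩ : ∃ M ∈ N, ∀ M' ∈ N,
      Module.finrank ℚ (EM H M) ≤ Module.finrank ℚ (EM H M') := by
    have hne : (Set.image (fun M => Module.finrank ℚ (EM H M)) N).Nonempty := ⟨_, M0, hM0, rfl⟩
    obtain ⟨M, hMN, hMeq⟩ := Nat.sInf_mem hne
    refine ⟨M, hMN, fun M' hM' => ?_⟩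
    simp only at hMeq
    rw [hMeq]
    exact Nat.sInf_le ⟨M', hM', rfl⟩
  have hle : ∀ M' ∈ N, EM H M ≤ EM H M' := by
    intro M' hM'
    obtain ⟨M'', hN'', h1, h2⟩ := hdir M hMN M' hM'
    have := hfin M
    have := Submodule.eq_of_le_of_finrank_le (EM_anti H h1) (hmin M'' hN'')
    rw [← this]
    exact EM_anti H h2
  -- a nonzero member of `EM H M`
  obtain ⟨ψ, ⟨x0, hx0⟩, hψ⟩ := hM M hMN H ⟨S, hS⟩ (hHM M hMN)
  have hf : (fun x => ((Multiplicative.toAdd (ψ x) : ℤ) : ℚ)) ∈ EM H M := by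
    refine ⟨fun x y => by simp, fun x hx => ?_⟩
    simp [hψ x hx]
  refine ⟨ψ, ⟨x0, hx0⟩, ?_⟩
  rintro x ⟨M', hM', hx⟩
  have h1 := (hle M' hM' hf).2 x hx
  simp only [Int.cast_eq_zero] at h1
  exact toAdd_eq_zero.1 h1

end Pool.Agent.H10.W.LIM
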