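import Pool.Agent.H10.W.Cos

/-!
# W-NULL: a finite complex without first cohomology in which a relation holds
-/

set_option autoImplicit false

namespace Pool.Agent.H10.W.Null

open Pool.Agent.H10.Inj.Data Pool.Agent.H10.W.Cos

theorem main : S_NULL := by
  classical
  intro V Rel W hW
  obtain ⟨cj, hcj⟩ : ∃ cj : FreeGroup V × Rel → FreeGroup V,
      cj = fun q => q.1 * FreeGroup.mk q.2.1 * q.1⁻¹ := ⟨_, rfl⟩
  obtain ⟨J, hJ⟩ := fin_normal' Rel _ hW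
  rw [← hcj] at hJ
  obtain ⟨Λ, hΛ⟩ : ∃ Λ : Subgroup (FreeGroup V), Λ = Subgroup.closure (cj '' (J : Set _)) :=
    ⟨_, rfl⟩
  rw [← hΛ] at hJ
  have hcΛ : ∀ q ∈ J, cj q ∈ Λ := fun q hq => by
    rw [hΛ]; exact Subgroup.subset_closure ⟨q, hq, rfl⟩
  have hrel : ∀ q ∈ J, FreeGroup.mk q.2.1 • (q.1⁻¹ • bs Λ) = q.1⁻¹ • bs Λ := by
    intro q hq
    have h1 := (smul_bs_iff Λ (cj q)).2 (hcΛ q hq)
    rw [hcj] at h1
    simp only [mul_smul] at h1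
    rw [eq_inv_smul_iff]
    exact h1
  obtain ⟨S, hS⟩ : ∃ S : Finset ((FreeGroup V ⧸ Λ) × List (V × Bool)),
      S = J.image fun q => (q.1⁻¹ • bs Λ, q.2.1) := ⟨_, rfl⟩
  obtain ⟨A, hA⟩ : ∃ A : Finset ((FreeGroup V ⧸ Λ) × V),
      A = (S.biUnion fun s => (sides (ac Λ) s.2 s.1).toFinset) ∪
        (sides (ac Λ) W (bs Λ)).toFinset := ⟨_, rfl⟩
  refine ⟨FreeGroup V ⧸ Λ, ac Λ, A, S, bs Λ, ⟨?_, ?_⟩, ?_, ?_⟩
  · intro s hs
    refine ⟨?_, ?_, ?_⟩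
    · rw [hS] at hs
      obtain ⟨q, hq, rfl⟩ := Finset.mem_image.1 hs
      exact q.2.2
    · rw [pathIn_iff]
      intro a ha
      rw [hA]
      exact Finset.mem_union_left _ (Finset.mem_biUnion.2 ⟨s, hs, List.mem_toFinset.2 ha⟩)
    · rw [hS] at hs
      obtain ⟨q, hq, rfl⟩ := Finset.mem_image.1 hs
      rw [ev_ac, inv_smul_eq_iff]
      exact (hrel q hq).symm
  · intro f hf
    obtain ⟨g, hg⟩ := prim Λ f fun x hx => (van Λ f (cj '' (J : Set _)) (by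
      rintro x ⟨q, hq, rfl⟩
      refine ⟨(smul_bs_iff Λ _).2 (hcΛ q hq), ?_⟩
      rw [hcj]
      exact cc_conj Λ f q.1 q.2.1 (hrel q hq) (hf (q.1⁻¹ • bs Λ, q.2.1) (by
        rw [hS]; exact Finset.mem_image.2 ⟨q, hq, rfl⟩))) x (hΛ ▸ hx)).2
    exact ⟨g, fun a _ => hg a⟩
  · rw [pathIn_iff]
    intro a ha
    rw [hA]
    exact Finset.mem_union_right _ (List.mem_toFinset.2 ha)
  · rw [ev_ac, inv_smul_eq_iff]
    exact ((smul_bs_iff Λ _).2 hJ).symm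

end Pool.Agent.H10.W.Null
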