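import Pool.Agent.H10.W.Def

/-!
# Stub W-THICK (by helper4, after `Pool/Agent/H10/Inj/Thick.lean`)

A component of a finite graph over a locally indicable group is developable or has a rational cocycle
which is not a coboundary.
-/

set_option autoImplicit false

namespace Pool.Agent.H10.W.Thick

open Pool.Agent.H10.Inj (LocInd Joined)
open Pool.Agent.H10.W

/-- `R p g`: some path in `A` from `q` to `p` has the label `g`. -/
inductive R {Γ V Ω : Type} [Group Γ] (act : V → Equiv.Perm Ω) (u : V → Γ) (A : Finset (Ω × V))
    (q : Ω) : Ω → Γ → Prop
  | base : R act u A q q 1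
  | fwd (p : Ω) (x : V) (g : Γ) : (p, x) ∈ A → R act u A q p g → R act u A q (act x p) (g * u x)
  | bwd (p : Ω) (x : V) (g : Γ) : (p, x) ∈ A → R act u A q (act x p) g →
      R act u A q p (g * (u x)⁻¹)

variable {Γ V Ω : Type} [Group Γ] {act : V → Equiv.Perm Ω} {u : V → Γ} {A : Finset (Ω × V)} {q : Ω}

theorem exists_iff {p p' : Ω}
    (h : Relation.EqvGen (fun p p' => ∃ x, (p, x) ∈ A ∧ p' = act x p) p p') :
    (∃ g, R act u A q p g) ↔ ∃ g, R act u A q p' g := by
  induction h with
  | rel a b hab =>
    obtain ⟨x, hx, rfl⟩ := hab
    exact ⟨fun ⟨g, hg⟩ => ⟨_, R.fwd a x g hx hg⟩, fun ⟨g, hg⟩ => ⟨_, R.bwd a x g hx hg⟩⟩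
  | refl a => exact Iff.rfl
  | symm a b _ ih => exact ih.symm
  | trans a b c _ _ ih1 ih2 => exact ih1.trans ih2

theorem exists_of_joined {p : Ω} (h : Joined act A q p) : ∃ g, R act u A q p g :=
  (exists_iff h).1 ⟨1, R.base⟩

theorem joined_step {p : Ω} {x : V} (hx : (p, x) ∈ A) (h : Joined act A q p) :
    Joined act A q (act x p) :=
  Relation.EqvGen.trans _ _ _ h (Relation.EqvGen.rel _ _ ⟨x, hx, rfl⟩)

theorem joined_back {p : Ω} {x : V} (hx : (p, x) ∈ A) (h : Joined act A q (act x p)) :
    Joined act A q p :=
  Relation.EqvGen.trans _ _ _ h (Relation.EqvGen.symm _ _ (Relation.EqvGen.rel _ _ ⟨x, hx, rfl⟩))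

theorem joined_of_R {p : Ω} {g : Γ} (h : R act u A q p g) : Joined act A q p := by
  induction h with
  | base => exact Relation.EqvGen.refl _
  | fwd p x g hx _ ih => exact joined_step hx ih
  | bwd p x g hx _ ih => exact joined_back hx ih

/-- THE STUB THICK -/
theorem main : S_THICK := by
  classical
  intro Γ _ hΓ V Ω act u A q
  -- the choice of labels
  have hch : ∀ p : Ω, ∃ g : Γ, Joined act A q p → R act u A q p g := by
    intro p
    by_cases hp : Joined act A q p
    · obtain ⟨g, hg⟩ := exists_of_joined (u := u) hp
      exact ⟨g, fun _ => hg⟩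
    · exact ⟨1, fun h => absurd h hp⟩
  choose t ht using hch
  let s : Ω × V → Γ := fun a => t a.1 * u a.2 * (t (act a.2 a.1))⁻¹
  let T : Set Γ := s '' {a | a ∈ A ∧ Joined act A q a.1}
  let H : Subgroup Γ := Subgroup.closure T
  have hsH : ∀ a, a ∈ A → Joined act A q a.1 → s a ∈ H := fun a ha hj =>
    Subgroup.subset_closure ⟨a, ⟨ha, hj⟩, rfl⟩
  have hTfin : T.Finite := by
    refine Set.Finite.image _ ?_
    exact (A.finite_toSet).subset fun a ha => ha.1
  by_cases hbot : H = ⊥
  · left
    refine ⟨t, fun a ha hj => ?_⟩
    have h1 : s a = 1 := by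
      have := hsH a ha hj
      rw [hbot, Subgroup.mem_bot] at this
      exact this
    have h2 : t a.1 * u a.2 * (t (act a.2 a.1))⁻¹ = 1 := h1
    exact (mul_inv_eq_one.1 h2).symm
  · right
    have hFG : H.FG := (Subgroup.fg_iff H).2 ⟨T, rfl, hTfin⟩
    obtain ⟨ψ, hψ⟩ := hΓ H hFG hbot
    -- the value of `ψ` on an element of `Γ`
    let vl : (x : Γ) → ℚ := fun x => if h : x ∈ H then ((Multiplicative.toAdd (ψ ⟨x, h⟩) : ℤ) : ℚ) else 0
    have vl_mul : ∀ x y, x ∈ H → y ∈ H → vl (x * y) = vl x + vl y := by
      intro x y hx hy
      have hxy : x * y ∈ H := H.mul_mem hx hy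
      have e : (⟨x * y, hxy⟩ : H) = ⟨x, hx⟩ * ⟨y, hy⟩ := rfl
      simp only [vl, dif_pos hx, dif_pos hy, dif_pos hxy]
      rw [e, map_mul, toAdd_mul]
      push_cast
      ring
    have vl_one : vl 1 = 0 := by
      have h := vl_mul 1 1 H.one_mem H.one_mem
      rw [mul_one] at h
      linarith
    have vl_inv : ∀ x, x ∈ H → vl x⁻¹ = - vl x := by
      intro x hx
      have h := vl_mul x x⁻¹ hx (H.inv_mem hx)
      rw [mul_inv_cancel, vl_one] at h
      linarith
    let f : Ω × V → ℚ := fun a => if a ∈ A ∧ Joined act A q a.1 then vl (s a) else 0
    have hf : ∀ a, a ∈ A → Joined act A q a.1 → f a = vl (s a) := fun a ha hj =>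
      if_pos ⟨ha, hj⟩
    have hf0 : ∀ a, ¬ Joined act A q a.1 → f a = 0 := fun a hj =>
      if_neg fun h => hj h.2
    refine ⟨f, ?_, ?_, ?_⟩
    · intro a ha
      by_contra hcon
      exact ha (if_neg hcon)
    · -- the cocycle condition
      have hnot : ∀ (W : List (V × Bool)) (p : Ω), PathIn act A W p → ¬ Joined act A q p →
          val act f W p = 0 := by
        intro W
        induction W with
        | nil => intro p _ _; rfl
        | cons x W ih =>
          intro p hp hj
          obtain ⟨h1, h2⟩ := hp
          obtain ⟨v, b⟩ := x
          cases b with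
          | true =>
            have h1' : (p, v) ∈ A := by simpa [side] using h1
            have e1 : step act (v, true) p = act v p := by simp [step]
            have hj2 : ¬ Joined act A q (step act (v, true) p) := by
              rw [e1]; exact fun h => hj (joined_back h1' h)
            have := ih _ h2 hj2
            simp only [val, this, side, if_true, add_zero]
            exact hf0 _ hj
          | false =>
            have h1' : ((act v).symm p, v) ∈ A := by simpa [side] using h1
            have e1 : step act (v, false) p = (act v).symm p := by simp [step]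
            have hj2 : ¬ Joined act A q (step act (v, false) p) := by
              rw [e1]; intro h
              have := joined_step h1' h
              rw [Equiv.apply_symm_apply] at this
              exact hj this
            have h3 := ih _ h2 hj2
            rw [e1] at hj2
            simp only [val, h3, side, add_zero]
            have h4 := hf0 ((act v).symm p, v) hj2
            simp [h4]
      have hin : ∀ (W : List (V × Bool)) (p : Ω), PathIn act A W p → Joined act A q p →
          t p * wval u W * (t (ev act W p))⁻¹ ∈ H ∧
          val act f W p = vl (t p * wval u W * (t (ev act W p))⁻¹) := by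
        intro W
        induction W with
        | nil =>
          intro p _ _
          have e : t p * wval u [] * (t (ev act [] p))⁻¹ = 1 := by simp [wval, ev]
          rw [e]
          exact ⟨H.one_mem, vl_one.symm⟩
        | cons x W ih =>
          intro p hp hj
          obtain ⟨h1, h2⟩ := hp
          obtain ⟨v, b⟩ := x
          have ewv : wval u ((v, b) :: W) = uval u (v, b) * wval u W := by simp [wval]
          cases b with
          | true =>
            have h1' : (p, v) ∈ A := by simpa [side] using h1
            have e1 : step act (v, true) p = act v p := by simp [step]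
            have hj2 : Joined act A q (step act (v, true) p) := by
              rw [e1]; exact joined_step h1' hj
            obtain ⟨i1, i2⟩ := ih _ h2 hj2
            have e : t p * wval u ((v, true) :: W) * (t (ev act ((v, true) :: W) p))⁻¹ =
                s (p, v) * (t (step act (v, true) p) * wval u W *
                  (t (ev act W (step act (v, true) p)))⁻¹) := by
              rw [ewv, e1]
              simp only [s, uval, ev, e1, if_true]
              group
            rw [e]
            refine ⟨H.mul_mem (hsH _ h1' hj) i1, ?_⟩
            rw [vl_mul _ _ (hsH _ h1' hj) i1, ← i2, ← hf _ h1' hj]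
            simp only [val, side, if_true]
          | false =>
            have h1' : ((act v).symm p, v) ∈ A := by simpa [side] using h1
            have e1 : step act (v, false) p = (act v).symm p := by simp [step]
            have hj2 : Joined act A q (step act (v, false) p) := by
              rw [e1]
              apply joined_back h1'
              rw [Equiv.apply_symm_apply]; exact hj
            obtain ⟨i1, i2⟩ := ih _ h2 hj2
            have hj3 : Joined act A q ((act v).symm p) := by rw [← e1]; exact hj2
            have hs2 : t (act v ((act v).symm p)) = t p := by rw [Equiv.apply_symm_apply]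
            have e : t p * wval u ((v, false) :: W) * (t (ev act ((v, false) :: W) p))⁻¹ =
                (s ((act v).symm p, v))⁻¹ * (t (step act (v, false) p) * wval u W *
                  (t (ev act W (step act (v, false) p)))⁻¹) := by
              rw [ewv, e1]
              simp only [s, uval, ev, e1, hs2]
              simp only [Bool.false_eq_true, if_false]
              group
            have hin' := H.inv_mem (hsH _ h1' hj3)
            rw [e]
            refine ⟨H.mul_mem hin' i1, ?_⟩
            rw [vl_mul _ _ hin' i1, ← i2, vl_inv _ (hsH _ h1' hj3), ← hf _ h1' hj3]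
            simp [val, side]
      intro W p hW hcl hu
      by_cases hp : Joined act A q p
      · obtain ⟨_, h2⟩ := hin W p hW hp
        rw [h2, hu, hcl]
        have e : t p * 1 * (t p)⁻¹ = 1 := by group
        rw [e]
        exact vl_one
      · exact hnot W p hW hp
    · rintro ⟨g, hg⟩
      have key : ∀ p g0, R act u A q p g0 → t q * g0 * (t p)⁻¹ ∈ H ∧
          g p - g q = vl (t q * g0 * (t p)⁻¹) := by
        intro p g0 h
        induction h with
        | base =>
          have e : t q * 1 * (t q)⁻¹ = 1 := by group
          rw [e]
          exact ⟨H.one_mem, by rw [vl_one]; ring⟩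
        | fwd p x g0 hx hR ih =>
          have hj : Joined act A q p := joined_of_R hR
          have e : t q * (g0 * u x) * (t (act x p))⁻¹ = (t q * g0 * (t p)⁻¹) * s (p, x) := by
            simp only [s]; group
          rw [e]
          refine ⟨H.mul_mem ih.1 (hsH _ hx hj), ?_⟩
          rw [vl_mul _ _ ih.1 (hsH _ hx hj), ← ih.2, ← hf _ hx hj, hg _ hx hj]
          ring
        | bwd p x g0 hx hR ih =>
          have hj : Joined act A q p := joined_back hx (joined_of_R hR)
          have e : t q * (g0 * (u x)⁻¹) * (t p)⁻¹ = (t q * g0 * (t (act x p))⁻¹) * (s (p, x))⁻¹ := by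
            simp only [s]; group
          rw [e]
          have hin := H.inv_mem (hsH _ hx hj)
          refine ⟨H.mul_mem ih.1 hin, ?_⟩
          rw [vl_mul _ _ ih.1 hin, ← ih.2, vl_inv _ (hsH _ hx hj), ← hf _ hx hj, hg _ hx hj]
          ring
      have hconst : ∀ p, Joined act A q p → g p - g q = vl (t q) := by
        intro p hp
        have h := (key p (t p) (ht p hp)).2
        have e : t q * t p * (t p)⁻¹ = t q := by group
        rw [e] at h
        exact h
      have hqq : vl (t q) = 0 := by
        have := hconst q (Relation.EqvGen.refl _)
        linarith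
      have hzero : ∀ a, a ∈ A → Joined act A q a.1 → vl (s a) = 0 := by
        intro a ha hj
        have h1 := hconst a.1 hj
        have h2 := hconst (act a.2 a.1) (joined_step ha hj)
        rw [← hf _ ha hj, hg _ ha hj]
        linarith
      -- `ψ` is trivial
      have htriv : ∀ x (hx : x ∈ H), vl x = 0 := by
        intro x hx
        induction hx using Subgroup.closure_induction with
        | mem x hx =>
          obtain ⟨a, ⟨ha, hj⟩, rfl⟩ := hx
          exact hzero a ha hj
        | one => exact vl_one
        | mul x y hx hy ihx ihy => rw [vl_mul x y hx hy, ihx, ihy]; ring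
        | inv x hx ih => rw [vl_inv x hx, ih]; ring
      obtain ⟨y, hy⟩ := hψ (Multiplicative.ofAdd 1)
      have h1 := htriv y.1 y.2
      simp only [vl, dif_pos y.2] at h1
      have h2 : Multiplicative.toAdd (ψ y) = 1 := by rw [hy]; rfl
      have h3 : ((Multiplicative.toAdd (ψ y) : ℤ) : ℚ) = 0 := h1
      rw [h2] at h3
      norm_num at h3

end Pool.Agent.H10.W.Thick
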