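import Pool.Agent.H10.W.Core3
import Pool.Agent.H10.W.Data
import Pool.Agent.H10.W.Null
import Pool.Agent.H10.W.Thick
import Pool.Agent.H10.W.Count
import Pool.Agent.H10.W.Ext
import Pool.Agent.H10.W.ISO

/-!
# The relative weight test
-/

set_option autoImplicit false

namespace Pool.Agent.H10.W

open Pool.Agent.H10.Inj (LocInd)

/-- **The relative weight test for local indicability.** -/
theorem test {I : Type} {K : I → Type} {R : Type} [∀ i, Group (K i)] (P : Sys I K R)
    (sg : R → ℕ → Bool) (w : R → ℕ → ℝ) (h : P.Test sg w) (hloc : ∀ i, LocInd (K i)) :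
    LocInd P.Grp ∧ ∀ i, Function.Injective (P.inc i) :=
  weight_test Data.main Null.main Thick.main Ext.main Count.main ISO.main P sg w h hloc

end Pool.Agent.H10.W
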