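import Pool.Agent.H10.W.Main

/-!
# The relative weight test for subsets of the relators
-/

set_option autoImplicit false

namespace Pool.Agent.H10.W

open Pool.Agent.H10.Inj (LocInd)

variable {I : Type} {K : I → Type} {R : Type} [∀ i, Group (K i)]

/-- The system with the relators in `S` only. -/
def Sys.restrict {I : Type} {K : I → Type} {R : Type} (P : Sys I K R) (S : Set R) :
    Sys I K S where
  n r := P.n r
  l r := P.l r

theorem Sys.Test.restrict {P : Sys I K R} {sg : R → ℕ → Bool} {w : R → ℕ → ℝ} (h : P.Test sg w)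
    (S : Set R) : (P.restrict S).Test (fun r => sg r) (fun r => w r) := by
  classical
  refine ⟨fun i h1 => h.pos i ?_, fun r => h.sum r, fun T hT hT2 hT3 => ?_⟩
  · refine Subsemigroup.closure_mono ?_ h1
    rintro x ⟨r, j, hj, hx⟩
    exact ⟨r.1, j, hj, hx⟩
  · let φ : S × ℕ ↪ R × ℕ := ⟨fun x => (x.1.1, x.2), fun x y hxy => by
      simp only [Prod.mk.injEq] at hxy
      exact Prod.ext (Subtype.ext hxy.1) hxy.2⟩
    let φ' : (S × ℕ) × Bool ↪ (R × ℕ) × Bool := ⟨fun y => (φ y.1, y.2), fun x y hxy => by
      simp only [Prod.mk.injEq] at hxy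
      exact Prod.ext (φ.injective hxy.1) hxy.2⟩
    have hprod : (T.map φ) ×ˢ (Finset.univ : Finset Bool) =
        (T ×ˢ (Finset.univ : Finset Bool)).map φ' := by
      ext ⟨x, t⟩
      constructor
      · intro hx
        obtain ⟨y, hy, hyx⟩ := Finset.mem_map.1 (Finset.mem_product.1 hx).1
        exact Finset.mem_map.2 ⟨(y, t), Finset.mem_product.2 ⟨hy, Finset.mem_univ _⟩,
          Prod.ext hyx rfl⟩
      · intro hx
        obtain ⟨⟨y, t'⟩, hy, hyx⟩ := Finset.mem_map.1 hx
        exact Finset.mem_product.2 ⟨Finset.mem_map.2 ⟨y, (Finset.mem_product.1 hy).1,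
          congrArg Prod.fst hyx⟩, Finset.mem_univ _⟩
    have h1 := h.link (T.map φ) ((Finset.map_nonempty).2 hT) (by
      intro x hx
      obtain ⟨y, hy, rfl⟩ := Finset.mem_map.1 hx
      exact hT2 y hy) (by
      intro i hi
      apply hT3 i
      rw [hprod, Finset.filter_map, Finset.card_map] at hi
      exact hi)
    rw [hprod, Finset.sum_map, Finset.map_eq_image, Finset.image_image] at h1
    exact h1

end Pool.Agent.H10.W
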