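import Pool.Agent.H10.W.StackDef
import Pool.Agent.H10.W.Main

/-!
# Stackings of relative presentations: the theorem
-/

set_option autoImplicit false
set_option linter.unusedSectionVars false

namespace Pool.Agent.H10.W

open Pool.Agent.H10.Inj (LocInd Joined)
open Pool.Agent.H10.Inj.Rel (Ai mem_Ai st Comp joined_out mk_act)

open Classical

variable {I : Type} {K : I → Type} {R : Type} [∀ i, Group (K i)] {Ω : Type}

/-- the component of an incidence -/
noncomputable def cmpW (act : (Σ i, K i) → Equiv.Perm Ω) (A : Finset (Ω × (Σ i, K i)))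
    (a : Ω × I) : Comp bl act A := Pool.Agent.H10.Inj.Rel.cmp bl act A a

theorem cmpW_def (act : (Σ i, K i) → Equiv.Perm Ω) (A : Finset (Ω × (Σ i, K i)))
    (a : Ω × I) : cmpW act A a = ⟨a.2, Quotient.mk _ a.1⟩ := rfl

/-- the developable components -/
noncomputable def DFs (act : (Σ i, K i) → Equiv.Perm Ω) (A : Finset (Ω × (Σ i, K i)))
    (Inc : Finset (Ω × I)) : Finset (Comp bl act A) :=
  (Inc.image (cmpW act A)).filter fun c => BDev act A c.1 (Quotient.out c.2)

/-- the dimension count -/
theorem lin_dev {P : Sys I K R} {act : (Σ i, K i) → Equiv.Perm Ω}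
    {A : Finset (Ω × (Σ i, K i))}
    (hdich : ∀ i q, BDev act A i q ∨ ∃ f, CCoc act A i q f)
    {Inc : Finset (Ω × I)} {S : Finset (Ω × R)} (h : Sit P act A Inc S) (hne : Inc.Nonempty) :
    Inc.card + 1 ≤ S.card + (Inc.image Prod.fst).card + (DFs act A Inc).card := by
  set cp : Ω × I → Comp bl act A := cmpW act A with hcp
  set CF := Inc.image cp with hCF
  set DF := CF.filter fun c => BDev act A c.1 (Quotient.out c.2) with hDF
  set NF := CF.filter fun c => ¬ BDev act A c.1 (Quotient.out c.2) with hNF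
  have hDFs : DFs act A Inc = DF := rfl
  rw [hDFs]
  have hcard : DF.card + NF.card = CF.card := Finset.card_filter_add_card_filter_not _
  -- the cocycles of the other components
  have hcoc : ∀ c ∈ NF, ∃ f, CCoc act A c.1 (Quotient.out c.2) f := by
    intro c hc
    exact (hdich c.1 (Quotient.out c.2)).resolve_left (Finset.mem_filter.1 hc).2
  have hnec : Nonempty (Comp bl act A) := ⟨cp hne.choose⟩
  choose! fC hfC using hcoc
  have hsup : ∀ (c c' : Comp bl act A) (a : Ω × (Σ i, K i)), c ∈ NF → c' ∈ NF → fC c' a ≠ 0 →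
      a.2.1 = c.1 → Joined act (Ai bl A c.1) (Quotient.out c.2) a.1 → c' = c := by
    intro c c' a hc hc' hne' hb hj
    obtain ⟨h5, h6, h7⟩ := (hfC c' hc').1 a hne'
    obtain ⟨i, c⟩ := c
    obtain ⟨i', c'⟩ := c'
    simp only at hb h6 h7 hj
    have hii : i' = i := h6.symm.trans hb
    subst hii
    have h8 : Quotient.mk (st bl act A i') (Quotient.out c) =
      Quotient.mk (st bl act A i') a.1 := Quotient.sound hj
    have h9 : Quotient.mk (st bl act A i') (Quotient.out c') =
      Quotient.mk (st bl act A i') a.1 := Quotient.sound h7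
    rw [Quotient.out_eq] at h8 h9
    rw [h8, h9]
  let F : (NF → ℚ) → Ω × (Σ i, K i) → ℚ := fun t a => ∑ c : NF, t c * fC c.1 a
  have hFadd : ∀ t t' a, F (t + t') a = F t a + F t' a := by
    intro t t' a
    simp only [F, Pi.add_apply, add_mul, Finset.sum_add_distrib]
  have hFsmul : ∀ (r : ℚ) t a, F (r • t) a = r * F t a := by
    intro r t a
    simp only [F, Pi.smul_apply, smul_eq_mul, mul_assoc, Finset.mul_sum]
  let ext : (Inc → ℚ) → Ω × I → ℚ := fun v a => if h : a ∈ Inc then v ⟨a, h⟩ else 0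
  have hexadd : ∀ v v' a, ext (v + v') a = ext v a + ext v' a := by
    intro v v' a
    simp only [ext]
    split_ifs
    · rfl
    · simp
  have hexsmul : ∀ (r : ℚ) v a, ext (r • v) a = r * ext v a := by
    intro r v a
    simp only [ext]
    split_ifs
    · rfl
    · simp
  let Φ : ((Inc → ℚ) × (NF → ℚ)) →ₗ[ℚ] (S → ℚ) :=
    { toFun := fun v s => coc P act (F v.2) (ext v.1) s.1
      map_add' := by
        intro v w
        funext s
        simp only [coc, Prod.snd_add, Prod.fst_add, hFadd, hexadd, Pi.add_apply, mul_add,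
          Finset.sum_add_distrib]
        ring
      map_smul' := by
        intro r v
        funext s
        simp only [coc, Prod.smul_snd, Prod.smul_fst, hFsmul, hexsmul, Pi.smul_apply, smul_eq_mul,
          RingHom.id_apply, mul_add, Finset.mul_sum]
        congr 1
        exact Finset.sum_congr rfl (fun x _ => by ring) }
  have hP : (Inc.image Prod.fst).Nonempty := hne.image _
  have hlin := Pool.Agent.H10.Inj.Lin.main Inc (Inc.image Prod.fst) CF NF S
    (fun a => ⟨a.1.1, Finset.mem_image_of_mem _ a.2⟩)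
    (fun a => ⟨cp a.1, Finset.mem_image_of_mem _ a.2⟩) Φ (by
      obtain ⟨p, hp⟩ := hP
      exact ⟨⟨p, hp⟩⟩) (by
      intro v hv
      obtain ⟨gP, g, hg1, hg2⟩ := h.h1 (F v.2) (ext v.1) (by
          intro i W p h5 h6 h7
          have h8 : ∀ (W : List ((Σ i, K i) × Bool)) (p : Ω),
              val act (F v.2) W p = ∑ c : NF, v.2 c * val act (fC c.1) W p := by
            intro W
            induction W with
            | nil => intro p; simp [val]
            | cons x W ih =>
              intro p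
              simp only [val, ih, mul_add, Finset.sum_add_distrib]
              congr 1
              split_ifs
              · rfl
              · simp only [F, mul_neg, Finset.sum_neg_distrib]
          rw [h8]
          exact Finset.sum_eq_zero (fun c _ => by rw [(hfC c.1 c.2).2.1 i W p h5 h6 h7, mul_zero]))
          (by
          intro s hs
          exact congrFun hv ⟨s, hs⟩)
      have hFc : ∀ (c : NF) (a : Ω × (Σ i, K i)), a.2.1 = c.1.1 →
          Joined act (Ai bl A c.1.1) (Quotient.out c.1.2) a.1 → F v.2 a = v.2 c * fC c.1 a := by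
        intro c a hb hj
        refine Finset.sum_eq_single c (fun c' _ hc' => ?_) (fun h => absurd (Finset.mem_univ _) h)
        by_contra hne'
        have h6 : fC c'.1 a ≠ 0 := fun h => hne' (by rw [h, mul_zero])
        exact hc' (Subtype.ext (hsup c.1 c'.1 a c.2 c'.2 h6 hb hj))
      have ht0 : v.2 = 0 := by
        funext c
        by_contra hct
        have hct' : v.2 c ≠ 0 := hct
        apply (hfC c.1 c.2).2.2
        refine ⟨fun q => g c.1.1 q / v.2 c, fun a ha hb hj => ?_⟩
        have h6 := hg1 a ha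
        rw [hFc c a hb hj, hb] at h6
        rw [← sub_div, ← h6]
        field_simp
      refine ⟨ht0, fun p => gP p.1, fun c => g c.1.1 (Quotient.out c.1.2), fun a => ?_⟩
      have h6 := hg2 a.1 a.2
      have h6' : ext v.1 a.1 = v.1 a := by
        simp only [ext]
        rw [dif_pos a.2]
      rw [h6'] at h6
      have h7 : ∀ a ∈ A, g a.2.1 (act a.2 a.1) = g a.2.1 a.1 := by
        intro a ha
        have h8 := hg1 a ha
        have h9 : F v.2 a = 0 := by
          simp only [F, ht0, Pi.zero_apply, zero_mul, Finset.sum_const_zero]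
        rw [h9] at h8
        linarith
      have h10 : ∀ (i : I) (p q : Ω), Joined act (Ai bl A i) p q → g i p = g i q := by
        intro i p q h
        induction h with
        | rel x y hxy =>
          obtain ⟨z, hz, rfl⟩ := hxy
          obtain ⟨hz1, hz2⟩ := mem_Ai.1 hz
          have := h7 (x, z) hz1
          have hz3 : z.1 = i := hz2
          simp only at this
          rw [hz3] at this
          exact this.symm
        | refl x => rfl
        | symm x y _ ih => exact ih.symm
        | trans x y z _ _ ih1 ih2 => exact ih1.trans ih2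
      have h11 : g a.1.2 (Quotient.out (Quotient.mk (st bl act A a.1.2) a.1.1)) = g a.1.2 a.1.1 :=
        h10 _ _ _ (joined_out bl act A a.1.2 a.1.1)
      show v.1 a = g a.1.2 (Quotient.out (Quotient.mk (st bl act A a.1.2) a.1.1)) - gP a.1.1
      rw [h11]
      exact h6)
  simp only [Fintype.card_coe] at hlin
  omega

/-- the next slot -/
def sigS (n : ℕ) (x : ℕ × Bool) : ℕ × Bool :=
  if x.2 then (x.1, false) else (if x.1 + 1 = n then 0 else x.1 + 1, true)

theorem cyc {n : ℕ} (m : ℕ × Bool → Prop) (hm : ∃ x : ℕ × Bool, x.1 < n ∧ m x)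
    (hu : ∃ x : ℕ × Bool, x.1 < n ∧ ¬ m x) : ∃ x : ℕ × Bool, x.1 < n ∧ m x ∧ ¬ m (sigS n x) := by
  by_contra hcon
  push Not at hcon
  set nx : ℕ → ℕ := fun j => if j + 1 = n then 0 else j + 1 with hnx
  have hlt : ∀ j < n, nx j < n := by
    intro j hj
    rw [hnx]
    beta_reduce
    split_ifs <;> omega
  have h1 : ∀ j < n, m (j, true) → m (j, false) := fun j hj h => hcon (j, true) hj h
  have h2 : ∀ j < n, m (j, false) → m (nx j, true) := fun j hj h => hcon (j, false) hj h
  have h3 : ∀ j < n, m (j, false) → m (nx j, false) := fun j hj h =>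
    h1 _ (hlt j hj) (h2 j hj h)
  obtain ⟨⟨j0, t0⟩, hj0, hm0⟩ := hm
  simp only at hj0
  have h4 : m (j0, false) := by
    cases t0 with
    | true => exact h1 j0 hj0 hm0
    | false => exact hm0
  have h5 : ∀ k, ∀ j, j + k = n → 0 < k → m (j, false) → m (0, false) := by
    intro k
    induction k with
    | zero => intro j _ hk; omega
    | succ k ih =>
      intro j hj _ hmj
      have h6 := h3 j (by omega) hmj
      by_cases hk : k = 0
      · have : nx j = 0 := by
          rw [hnx]; beta_reduce; rw [if_pos (by omega)]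
        rwa [this] at h6
      · have : nx j = j + 1 := by
          rw [hnx]; beta_reduce; rw [if_neg (by omega)]
        rw [this] at h6
        exact ih (j + 1) (by omega) (by omega) h6
  have h6 : m (0, false) := h5 (n - j0) j0 (by omega) (by omega) h4
  have h7 : ∀ j < n, m (j, false) := by
    intro j
    induction j with
    | zero => exact fun _ => h6
    | succ j ih =>
      intro hj
      have h8 := h3 j (by omega) (ih (by omega))
      have : nx j = j + 1 := by
        rw [hnx]; beta_reduce; rw [if_neg (by omega)]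
      rwa [this] at h8
  have h8 : ∀ j < n, m (j, true) := by
    intro j hj
    by_cases h0 : j = 0
    · have h9 := h2 (n - 1) (by omega) (h7 (n - 1) (by omega))
      have : nx (n - 1) = 0 := by
        rw [hnx]; beta_reduce; rw [if_pos (by omega)]
      rw [this] at h9
      rw [h0]
      exact h9
    · have h9 := h2 (j - 1) (by omega) (h7 (j - 1) (by omega))
      have : nx (j - 1) = j := by
        rw [hnx]; beta_reduce; rw [if_neg (by omega)]; omega
      rwa [this] at h9
  obtain ⟨⟨j, t⟩, hj, hn⟩ := hu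
  cases t with
  | true => exact hn (h8 j hj)
  | false => exact hn (h7 j hj)

theorem slot_pos {P : Sys I K R} (act : (Σ i, K i) → Equiv.Perm Ω) {s : Ω × R}
    (hcl : pos P act s (P.n s.2) = s.1) {j : ℕ} (t : Bool) :
    (slot P act s (j, t)).1 = pos P act s (P.cor s.2 j t) := by
  unfold slot Sys.cor
  cases t with
  | true => rfl
  | false =>
    simp only [Bool.false_eq_true, if_false]
    unfold Sys.next
    split_ifs with h
    · rw [h, hcl]; rfl
    · rfl

theorem stack_reducible {P : Sys I K R} {Λ : Type} [LinearOrder Λ]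
    {h : R → ℕ → Λ} (hS : P.Stack h)
    {act : (Σ i, K i) → Equiv.Perm Ω} {A : Finset (Ω × (Σ i, K i))}
    (hdich : ∀ i q, BDev act A i q ∨ ∃ f, CCoc act A i q f) : Reducible P act A := by
  intro Inc S hsit hne huse
  have hlin := lin_dev hdich hsit hne
  have hcl : ∀ s ∈ S, pos P act s (P.n s.2) = s.1 := fun s hs => (hsit.cell s hs).2
  have hcorlt : ∀ (r : R) (j : ℕ) (t : Bool), j < P.n r → P.cor r j t < P.n r := by
    intro r j t hj
    unfold Sys.cor Sys.next
    split_ifs <;> omega
  -- heights of slots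
  set H : Ω × R → ℕ × Bool → Λ := fun s x => h s.2 (P.cor s.2 x.1 x.2) with hH
  -- uniqueness
  have huniq : ∀ s ∈ S, ∀ x ∈ sl P s, ∀ s' ∈ S, ∀ x' ∈ sl P s', slot P act s x = slot P act s' x' →
      H s x = H s' x' → s = s' ∧ x = x' := by
    rintro s hs ⟨j, t⟩ hx s' hs' ⟨j', t'⟩ hx' hsl hHe
    have hj : j < P.n s.2 := mem_sl.1 hx
    have hj' : j' < P.n s'.2 := mem_sl.1 hx'
    obtain ⟨h1, h2⟩ := hS.inj _ _ _ _ (hcorlt s.2 j t hj) (hcorlt s'.2 j' t' hj') hHe
    have h3 := congrArg Prod.fst hsl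
    rw [slot_pos act (hcl s hs), slot_pos act (hcl s' hs'), h2] at h3
    have h4 := pos_inj P act s s' h1 _ h3
    subst h4
    refine ⟨rfl, ?_⟩
    have h5 : (P.l s.2 j).1 = (P.l s.2 j').1 := congrArg Prod.snd hsl
    have hcor : ∀ (j j' : ℕ), j < P.n s.2 → j' < P.n s.2 → j = P.next s.2 j' →
        (P.l s.2 j).1 = (P.l s.2 j').1 → False := by
      intro j j' hj hj' hn hb
      have h6 : P.prev s.2 j = j' := by
        unfold Sys.next at hn
        unfold Sys.prev
        split_ifs at hn ⊢ <;> omega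
      refine hS.red s.2 j hj ?_
      rw [h6]
      exact hb.symm
    cases t <;> cases t'
    · have h6 : P.next s.2 j = P.next s.2 j' := h2
      have : j = j' := by
        unfold Sys.next at h6
        split_ifs at h6 <;> omega
      rw [this]
    · exact (hcor j' j hj' hj h2.symm h5.symm).elim
    · exact (hcor j j' hj hj' h2 h5).elim
    · have : j = j' := h2
      rw [this]
  -- top slots
  set top : (Ω × R) → ℕ × Bool → Prop := fun s x =>
    ∀ s' ∈ S, ∀ x' ∈ sl P s', slot P act s' x' = slot P act s x → H s' x' ≤ H s x with htop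
  set U : Finset ((Ω × R) × (ℕ × Bool)) := S.biUnion fun s => (sl P s).image fun x => (s, x) with hU
  have hmU : ∀ y : (Ω × R) × (ℕ × Bool), y ∈ U ↔ y.1 ∈ S ∧ y.2 ∈ sl P y.1 := by
    intro y
    rw [hU, Finset.mem_biUnion]
    constructor
    · rintro ⟨s, hs, hy⟩
      obtain ⟨x, hx, rfl⟩ := Finset.mem_image.1 hy
      exact ⟨hs, hx⟩
    · rintro ⟨h1, h2⟩
      exact ⟨y.1, h1, Finset.mem_image.2 ⟨y.2, h2, rfl⟩⟩
  set T := U.filter fun y => top y.1 y.2 with hT
  have hTcard : T.card ≤ Inc.card := by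
    refine Finset.card_le_card_of_injOn (fun y => slot P act y.1 y.2) ?_ ?_
    · intro y hy
      obtain ⟨h1, -⟩ := Finset.mem_filter.1 (Finset.mem_coe.1 hy)
      obtain ⟨h2, h3⟩ := (hmU y).1 h1
      exact hsit.slot y.1 h2 y.2 h3
    · intro y hy y' hy' heq
      obtain ⟨h1, h1'⟩ := Finset.mem_filter.1 (Finset.mem_coe.1 hy)
      obtain ⟨h2, h3⟩ := (hmU y).1 h1
      obtain ⟨h4, h4'⟩ := Finset.mem_filter.1 (Finset.mem_coe.1 hy')
      obtain ⟨h5, h6⟩ := (hmU y').1 h4
      have heq' : slot P act y.1 y.2 = slot P act y'.1 y'.2 := heq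
      have h7 := h1' y'.1 h5 y'.2 h6 heq'.symm
      have h8 := h4' y.1 h2 y.2 h3 heq'
      obtain ⟨h9, h10⟩ := huniq y.1 h2 y.2 h3 y'.1 h5 y'.2 h6 heq' (le_antisymm h8 h7)
      exact Prod.ext h9 h10
  -- (1) cells
  have hcell : ∀ s ∈ S, ∃ x : ℕ × Bool, x.1 < P.n s.2 ∧ top s x ∧ ¬ top s (sigS (P.n s.2) x) := by
    intro s hs
    refine cyc (top s) ?_ ?_
    · obtain ⟨j, hj, t, ht⟩ := hS.top s.2
      refine ⟨(j, t), hj, ?_⟩
      rintro s' hs' ⟨j', t'⟩ hx' hsl
      exact ht s'.2 j' t' (mem_sl.1 hx') (congrArg Prod.snd hsl)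
    · obtain ⟨j, hj, t, ht⟩ := hS.bot s.2
      refine ⟨(j, t), hj, fun hcon => ?_⟩
      have h1 : (s, (j, t)) ∈ useSet P act S (slot P act s (j, t)) :=
        mem_useSet.2 ⟨hs, mem_sl.2 hj, rfl⟩
      have h2 := huse _ (hsit.slot s hs (j, t) (mem_sl.2 hj))
      have h2' : 1 < (useSet P act S (slot P act s (j, t))).card := h2
      obtain ⟨y, hy, hyne⟩ := Finset.exists_mem_ne h2' (s, (j, t))
      obtain ⟨h3, h4, h5⟩ := mem_useSet.1 hy
      have h6 := hcon y.1 h3 y.2 h4 h5
      have h7 := ht y.1.2 y.2.1 y.2.2 (mem_sl.1 h4) (congrArg Prod.snd h5)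
      obtain ⟨h8, h9⟩ := huniq y.1 h3 y.2 h4 s hs (j, t) (mem_sl.2 hj) h5 (le_antisymm h6 h7)
      exact hyne (Prod.ext h8 h9)
  -- (2) positions
  have hposn : ∀ p ∈ Inc.image Prod.fst, ∃ s ∈ S, ∃ j < P.n s.2,
      pos P act s (P.next s.2 j) = p ∧ top s (j, false) ∧ top s (P.next s.2 j, true) := by
    intro p hp
    obtain ⟨a, ha, hap⟩ := Finset.mem_image.1 hp
    -- the corners at `p`
    set C : Finset ((Ω × R) × (ℕ × Bool)) := U.filter fun y => (slot P act y.1 y.2).1 = p with hC
    have hCne : C.Nonempty := by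
      have h2 := huse a ha
      obtain ⟨y, hy⟩ := Finset.card_pos.1 (show 0 < (useSet P act S a).card by omega)
      obtain ⟨h3, h4, h5⟩ := mem_useSet.1 hy
      exact ⟨y, Finset.mem_filter.2 ⟨(hmU y).2 ⟨h3, h4⟩, by rw [h5]; exact hap⟩⟩
    obtain ⟨⟨s, ⟨j, t⟩⟩, hy, hmax⟩ := C.exists_max_image (fun y => H y.1 y.2) hCne
    obtain ⟨hyU, hyp⟩ := Finset.mem_filter.1 hy
    obtain ⟨hs, hx⟩ := (hmU _).1 hyU
    simp only at hs hx hyp
    have hj : j < P.n s.2 := mem_sl.1 hx
    -- both slots of the corner are top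
    have hboth : ∀ x : ℕ × Bool, x.1 < P.n s.2 → P.cor s.2 x.1 x.2 = P.cor s.2 j t → top s x := by
      rintro ⟨k, t'⟩ hk hcor s' hs' x' hx' hsl
      have h5 : (slot P act s (k, t')).1 = p := by
        rw [slot_pos act (hcl s hs), hcor, ← slot_pos act (hcl s hs)]
        exact hyp
      have h6 : (s', x') ∈ C := Finset.mem_filter.2 ⟨(hmU _).2 ⟨hs', hx'⟩, by
        simp only
        rw [hsl]
        exact h5⟩
      have h7 := hmax _ h6
      simp only at h7
      have h8 : H s (k, t') = H s (j, t) := by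
        rw [hH]
        beta_reduce
        simp only at hcor ⊢
        rw [hcor]
      rw [h8]
      exact h7
    cases t with
    | false =>
      refine ⟨s, hs, j, hj, ?_, hboth (j, false) hj rfl, hboth (P.next s.2 j, true) ?_ rfl⟩
      · rw [slot_pos act (hcl s hs)] at hyp
        exact hyp
      · exact hcorlt s.2 j false hj
    | true =>
      have hpl : P.prev s.2 j < P.n s.2 := by
        unfold Sys.prev; split_ifs <;> omega
      have hnp : P.next s.2 (P.prev s.2 j) = j := by
        unfold Sys.prev Sys.next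
        split_ifs <;> omega
      refine ⟨s, hs, P.prev s.2 j, hpl, ?_, hboth (P.prev s.2 j, false) hpl hnp, ?_⟩
      · rw [hnp]
        rw [slot_pos act (hcl s hs)] at hyp
        exact hyp
      · rw [hnp]
        exact hboth (j, true) hj rfl
  -- (3) components
  have hcomp : ∀ c ∈ DFs act A Inc, ∃ s ∈ S, ∃ j < P.n s.2,
      cmpW act A (slot P act s (j, true)) = c ∧ top s (j, true) ∧ top s (j, false) := by
    intro c hc
    obtain ⟨hc1, ⟨τ, hτ⟩⟩ := Finset.mem_filter.1 hc
    obtain ⟨a, ha, hac⟩ := Finset.mem_image.1 hc1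
    have hcls : ∀ p, cmpW act A (p, c.1) = c → Joined act (Ai bl A c.1) (Quotient.out c.2) p := by
      intro p hp
      obtain ⟨i, c⟩ := c
      have h2 : Quotient.mk (st bl act A i) p = c := by
        have := (Sigma.mk.inj_iff.1 hp).2
        exact eq_of_heq this
      subst h2
      exact joined_out bl act A i p
    -- the component of the two ends of a letter
    have hends : ∀ s ∈ S, ∀ j < P.n s.2, cmpW act A (slot P act s (j, false)) =
        cmpW act A (slot P act s (j, true)) := by
      intro s hs j hj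
      have hA := (hsit.cell s hs).1 j hj
      have := mk_act (bl := bl) (act := act) hA
      rw [cmpW_def, cmpW_def]
      exact congrArg _ this
    set C : Finset ((Ω × R) × (ℕ × Bool)) := U.filter fun y =>
      cmpW act A (slot P act y.1 y.2) = c with hC
    have hCne : C.Nonempty := by
      have h2 := huse a ha
      obtain ⟨y, hy⟩ := Finset.card_pos.1 (show 0 < (useSet P act S a).card by omega)
      obtain ⟨h3, h4, h5⟩ := mem_useSet.1 hy
      exact ⟨y, Finset.mem_filter.2 ⟨(hmU y).2 ⟨h3, h4⟩, by rw [h5]; exact hac⟩⟩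
    have hct : ∀ (s : Ω × R) (j : ℕ) (t : Bool), s ∈ S → j < P.n s.2 →
        cmpW act A (slot P act s (j, t)) = c → cmpW act A (slot P act s (j, true)) = c := by
      intro s j t hs hj hh
      cases t with
      | true => exact hh
      | false => exact (hends s hs j hj).symm.trans hh
    -- the value of `τ` at the ends
    have hval : ∀ (s : Ω × R) (j : ℕ) (t : Bool), s ∈ S → j < P.n s.2 →
        cmpW act A (slot P act s (j, true)) = c →
        (P.l s.2 j).1 = c.1 ∧ τ (slot P act s (j, t)).1 =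
          endPt (ui c.1 (P.l s.2 j)) (τ (pos P act s j)) t := by
      intro s j t hs hj hh
      have hb : (P.l s.2 j).1 = c.1 := congrArg Sigma.fst hh
      refine ⟨hb, ?_⟩
      cases t with
      | true => rfl
      | false =>
        have hA := (hsit.cell s hs).1 j hj
        refine hτ _ hA hb (hcls _ ?_)
        rw [← hb]
        exact hh
    set C' : Finset (K c.1 × R × ℕ) := C.image fun y => (τ (pos P act y.1 y.2.1), y.1.2, y.2.1)
      with hC'
    obtain ⟨y, hy, hpk⟩ := hS.peak c.1 C' (hCne.image _) (by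
      intro y hy
      obtain ⟨⟨s, ⟨j, t⟩⟩, hz, rfl⟩ := Finset.mem_image.1 hy
      obtain ⟨hzU, hzc⟩ := Finset.mem_filter.1 hz
      obtain ⟨hs, hx⟩ := (hmU _).1 hzU
      exact ⟨mem_sl.1 hx, (hval s j t hs (mem_sl.1 hx) (hct s j t hs (mem_sl.1 hx) hzc)).1⟩)
    obtain ⟨⟨s, ⟨j, t⟩⟩, hz, rfl⟩ := Finset.mem_image.1 hy
    obtain ⟨hzU, hyc⟩ := Finset.mem_filter.1 hz
    obtain ⟨hs, hx⟩ := (hmU _).1 hzU
    simp only at hs hx hyc
    have hj : j < P.n s.2 := mem_sl.1 hx
    have hsc := hct s j t hs hj hyc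
    have htt : ∀ t' : Bool, top s (j, t') := by
      rintro t' s' hs' ⟨j', t''⟩ hx' hsl
      have hj' : j' < P.n s'.2 := mem_sl.1 hx'
      have h5 : cmpW act A (slot P act s (j, t')) = c := by
        cases t' with
        | true => exact hsc
        | false => exact (hends s hs j hj).trans hsc
      have h6 : cmpW act A (slot P act s' (j', t'')) = c := by rw [hsl]; exact h5
      have h7 := hct s' j' t'' hs' hj' h6
      obtain ⟨h8, h9⟩ := hval s j t' hs hj hsc
      obtain ⟨h10, h11⟩ := hval s' j' t'' hs' hj' h7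
      have h13 : (s', (j', t'')) ∈ C := Finset.mem_filter.2 ⟨(hmU _).2 ⟨hs', hx'⟩, h6⟩
      exact hpk (τ (pos P act s' j'), s'.2, j')
        (Finset.mem_image.2 ⟨(s', (j', t'')), h13, rfl⟩) t' t'' (by
          simp only
          rw [← h9, ← h11, hsl])
    exact ⟨s, hs, j, hj, hsc, htt true, htt false⟩
  -- three disjoint subsets of `T`
  have : Nonempty (Ω × I) := ⟨hne.choose⟩
  have hneS : Nonempty (Ω × R) := by
    obtain ⟨p, hp⟩ := hne.image Prod.fst
    obtain ⟨s, -⟩ := hposn p hp
    exact ⟨s⟩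
  choose! x0 hx01 hx02 hx03 using hcell
  choose! sP hsP1 jP hjP1 hjP2 hjP3 hjP4 using hposn
  choose! sC hsC1 jC hjC1 hjC2 hjC3 hjC4 using hcomp
  set F1 : Finset ((Ω × R) × (ℕ × Bool)) := S.image fun s => (s, x0 s) with hF1
  set F2 : Finset ((Ω × R) × (ℕ × Bool)) := (Inc.image Prod.fst).image
    fun p => (sP p, (jP p, false)) with hF2
  set F3 : Finset ((Ω × R) × (ℕ × Bool)) := (DFs act A Inc).image
    fun c => (sC c, (jC c, true)) with hF3
  have hsig2 : ∀ p ∈ Inc.image Prod.fst, sigS (P.n (sP p).2) (jP p, false) =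
      (P.next (sP p).2 (jP p), true) := fun p _ => rfl
  have hc1 : F1.card = S.card :=
    Finset.card_image_of_injective _ (fun s s' hss => congrArg Prod.fst hss)
  have hc2 : F2.card = (Inc.image Prod.fst).card := by
    refine Finset.card_image_of_injOn ?_
    intro p hp p' hp' heq
    simp only [Prod.mk.injEq] at heq
    rw [← hjP2 p hp, ← hjP2 p' hp', heq.1, heq.2.1]
  have hc3 : F3.card = (DFs act A Inc).card := by
    refine Finset.card_image_of_injOn ?_
    intro c hc c' hc' heq
    simp only [Prod.mk.injEq] at heq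
    rw [← hjC2 c hc, ← hjC2 c' hc', heq.1, heq.2.1]
  have hsub : F1 ∪ (F2 ∪ F3) ⊆ T := by
    intro y hy
    rcases Finset.mem_union.1 hy with hy | hy
    · obtain ⟨s, hs, rfl⟩ := Finset.mem_image.1 hy
      exact Finset.mem_filter.2 ⟨(hmU _).2 ⟨hs, mem_sl.2 (hx01 s hs)⟩, hx02 s hs⟩
    · rcases Finset.mem_union.1 hy with hy | hy
      · obtain ⟨p, hp, rfl⟩ := Finset.mem_image.1 hy
        exact Finset.mem_filter.2 ⟨(hmU _).2 ⟨hsP1 p hp, mem_sl.2 (hjP1 p hp)⟩, hjP3 p hp⟩
      · obtain ⟨c, hc, rfl⟩ := Finset.mem_image.1 hy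
        exact Finset.mem_filter.2 ⟨(hmU _).2 ⟨hsC1 c hc, mem_sl.2 (hjC1 c hc)⟩, hjC3 c hc⟩
  have hd23 : Disjoint F2 F3 := by
    rw [Finset.disjoint_left]
    intro y hy hy'
    obtain ⟨p, hp, rfl⟩ := Finset.mem_image.1 hy
    obtain ⟨c, hc, heq⟩ := Finset.mem_image.1 hy'
    simp only [Prod.mk.injEq] at heq
    exact absurd heq.2.2 (by simp)
  have hd1 : Disjoint F1 (F2 ∪ F3) := by
    rw [Finset.disjoint_left]
    intro y hy hy'
    obtain ⟨s, hs, rfl⟩ := Finset.mem_image.1 hy
    rcases Finset.mem_union.1 hy' with hy' | hy'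
    · obtain ⟨p, hp, heq⟩ := Finset.mem_image.1 hy'
      simp only [Prod.mk.injEq] at heq
      obtain ⟨h5, h6⟩ := heq
      apply hx03 s hs
      rw [← h6, ← h5]
      exact hjP4 p hp
    · obtain ⟨c, hc, heq⟩ := Finset.mem_image.1 hy'
      simp only [Prod.mk.injEq] at heq
      obtain ⟨h5, h6⟩ := heq
      apply hx03 s hs
      rw [← h6, ← h5]
      exact hjC4 c hc
  have h5 := Finset.card_le_card hsub
  rw [Finset.card_union_of_disjoint hd1, Finset.card_union_of_disjoint hd23, hc1, hc2, hc3] at h5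
  omega

/-- **Good stackings.** -/
theorem stack {I : Type} {K : I → Type} {R : Type} [∀ i, Group (K i)] (P : Sys I K R)
    {Λ : Type} [LinearOrder Λ] (h : R → ℕ → Λ) (hS : P.Stack h) (hloc : ∀ i, LocInd (K i)) :
    LocInd P.Grp ∧ ∀ i, Function.Injective (P.inc i) := by
  have hn : ∀ r, 0 < P.n r := by
    intro r
    obtain ⟨j, hj, -⟩ := hS.top r
    omega
  obtain ⟨φ, hφ⟩ := ISO.main I K R P
  have hdich : ∀ (Ω : Type) (act : (Σ i, K i) → Equiv.Perm Ω) (A : Finset (Ω × (Σ i, K i))) i q,
      BDev act A i q ∨ ∃ f, CCoc act A i q f :=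
    fun Ω act A i q => dichotomy Thick.main act A i (hloc i) q
  constructor
  · refine LocInd.of_injective φ.toMonoidHom φ.injective ?_
    by_contra hcon
    obtain ⟨Ω, act, A, J, hco, hDev⟩ := Data.main (Σ i, K i) P.Rel hcon
    obtain ⟨Inc, S, hI, hsit⟩ := start P hco
    obtain ⟨τP, τ, hτ, hi⟩ := main_dev (stack_reducible hS (hdich Ω act A)) hn (hdich Ω act A)
      Inc.card Inc S rfl hsit
    refine hDev ⟨τP, fun a ha => ?_⟩
    have h5 := hi _ (hI a ha).1
    have h6 := hi _ (hI a ha).2
    simp only at h5 h6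
    rw [← h6, hτ a ha, h5]
    rfl
  · intro i
    rw [injective_iff_map_eq_one]
    intro x hx
    have hx1 : (PresentedGroup.of ⟨i, x⟩ : PG P.Rel) = 1 := by
      rw [← hφ, hx, map_one]
    obtain ⟨Ω, act, A, J, b, hco, hpath, hcl⟩ := Null.main (Σ i, K i) P.Rel [(⟨i, x⟩, true)] hx1
    obtain ⟨Inc, S, hI, hsit⟩ := start P hco
    have hred := main_red (stack_reducible hS (hdich Ω act A)) hn Inc.card Inc S rfl hsit
    have hB : BDev act A i b := by
      refine (hdich Ω act A i b).resolve_right ?_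
      rintro ⟨f, hf1, hf2, hf3⟩
      obtain ⟨gP, g, hg1, hg2⟩ := hred f (fun _ => 0) hf2
        (fun s hs => absurd hs (Finset.notMem_empty _))
      refine hf3 ⟨g i, fun a ha hb hj => ?_⟩
      have := hg1 a ha
      rwa [hb] at this
    obtain ⟨τ, hτ⟩ := hB
    have h5 : (b, (⟨i, x⟩ : Σ i, K i)) ∈ A := by
      have := hpath.1
      simpa [side] using this
    have h6 := hτ _ h5 rfl (Relation.EqvGen.refl _)
    have h7 : act (⟨i, x⟩ : Σ i, K i) b = b := by
      have := hcl
      simpa [ev, step] using this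
    simp only at h6
    rw [h7, ui_mk] at h6
    exact (mul_eq_left.1 h6.symm)

end Pool.Agent.H10.W
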