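import Pool.Agent.H10.W.Core2

/-!
# Stackings of relative presentations: definitions
-/

set_option autoImplicit false

namespace Pool.Agent.H10.W

open Pool.Agent.H10.Inj (LocInd)

variable {I : Type} {K : I → Type} {R : Type}

/-- The index of the corner after the letter `j` of the relator `r`. -/
def Sys.next (P : Sys I K R) (r : R) (j : ℕ) : ℕ := if j + 1 = P.n r then 0 else j + 1

/-- The corner at the start (`t = true`) or the end (`t = false`) of the letter `j` of the relator
`r`. -/
def Sys.cor (P : Sys I K R) (r : R) (j : ℕ) (t : Bool) : ℕ := if t then j else P.next r j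

/-- The start (`t = true`) or the end (`t = false`) of the copy of the letter `x` which starts at
`g`. -/
def endPt {Γ : Type} [Group Γ] (x g : Γ) (t : Bool) : Γ := if t then g else g * x

/-- A good stacking of the relative presentation `P`: heights `h r j` of the corners `(r, j)` in a
linearly ordered set, such that

* `red`: the letters before and after a corner lie in different groups;
* `inj`: different corners have different heights;
* `peak`: for every `i` and every finite nonempty set `C` of copies in `K i` of letters from `K i` (the
  copy `(g, r, j)` of the letter `x` runs from `g` to `g x`, `ui i` is the letter as an element of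
  `K i`) there is a copy in `C` whose corners at its two ends are the highest ones among the corners of
  the copies in `C` at these points;
* `top`, `bot`: every relator has a letter and an end of it at which its corner is the highest one of all
  corners at the ends of the letters from the same group, and a letter and an end of it at which its
  corner is the lowest one. -/
structure Sys.Stack [∀ i, Group (K i)] (P : Sys I K R) {Λ : Type} [LinearOrder Λ]
    (h : R → ℕ → Λ) : Prop where
  red : ∀ r j, j < P.n r → (P.l r (P.prev r j)).1 ≠ (P.l r j).1
  inj : ∀ r j r' j', j < P.n r → j' < P.n r' → h r j = h r' j' → r = r' ∧ j = j'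
  peak : ∀ (i : I) (C : Finset (K i × R × ℕ)), C.Nonempty →
    (∀ y ∈ C, y.2.2 < P.n y.2.1 ∧ (P.l y.2.1 y.2.2).1 = i) → ∃ y ∈ C, ∀ y' ∈ C, ∀ t t',
      endPt (ui i (P.l y'.2.1 y'.2.2)) y'.1 t' = endPt (ui i (P.l y.2.1 y.2.2)) y.1 t →
      h y'.2.1 (P.cor y'.2.1 y'.2.2 t') ≤ h y.2.1 (P.cor y.2.1 y.2.2 t)
  top : ∀ r, ∃ j < P.n r, ∃ t, ∀ r' j' t', j' < P.n r' → (P.l r' j').1 = (P.l r j).1 →
    h r' (P.cor r' j' t') ≤ h r (P.cor r j t)
  bot : ∀ r, ∃ j < P.n r, ∃ t, ∀ r' j' t', j' < P.n r' → (P.l r' j').1 = (P.l r j).1 →
    h r (P.cor r j t) ≤ h r' (P.cor r' j' t')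

end Pool.Agent.H10.W
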