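import Pool.Agent.H10.W.Stack
import Pool.Agent.H10.T.Univ
import Pool.Agent.H10.Inj.Cor

/-!
# Stackings of labelled oriented graphs
-/

set_option autoImplicit false
set_option linter.unusedSectionVars false

namespace Pool.Agent.H10.W

open Pool.Agent.H10.Inj (LocInd LOG)

/-- The generator which is the letter `j` of the relator `x_ini x_lab x_ter⁻¹ x_lab⁻¹` of the edge. -/
def occ {V E : Type} (L : LOG V E) (o : E × Fin 4) : V :=
  ![L.ini o.1, L.lab o.1, L.ter o.1, L.lab o.1] o.2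

/-- The corner at the start of the generator which is the letter `j`; the corner `j` lies before the
letter `j`. -/
def sC : Fin 4 → Fin 4 := ![0, 1, 3, 0]

/-- The corner at the end of the generator which is the letter `j`. -/
def eC : Fin 4 → Fin 4 := ![1, 2, 2, 3]

/-- A good stacking of the complex of the labelled oriented graph `L`: different heights `h e j` of the
corners `j` of the squares `e` such that the order of the corners at the starts of the occurrences of a
generator is the same as the order of the corners at the ends, and such that in every square there is an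
occurrence of a generator which is the highest one, and an occurrence of a generator which is the lowest
one, among all occurrences of the generator. No label is an end of its edge. -/
structure LOGStack {V E : Type} (L : LOG V E) {Λ : Type} [LinearOrder Λ] (h : E → Fin 4 → Λ) :
    Prop where
  red : ∀ e, L.lab e ≠ L.ini e ∧ L.lab e ≠ L.ter e
  inj : ∀ e j e' j', h e j = h e' j' → e = e' ∧ j = j'
  coh : ∀ o o', occ L o = occ L o' →
    (h o.1 (sC o.2) < h o'.1 (sC o'.2) ↔ h o.1 (eC o.2) < h o'.1 (eC o'.2))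
  top : ∀ e, ∃ j, ∀ o', occ L o' = occ L (e, j) → h o'.1 (sC o'.2) ≤ h e (sC j)
  bot : ∀ e, ∃ j, ∀ o', occ L o' = occ L (e, j) → h e (sC j) ≤ h o'.1 (sC o'.2)

/-- the peak on a line -/
theorem line_peak {Y Λ : Type} [LinearOrder Λ] (C : Finset Y) (hne : C.Nonempty) (a : Y → ℤ)
    (HS HE : Y → Λ) (coh : ∀ y ∈ C, ∀ y' ∈ C, HS y < HS y' ↔ HE y < HE y') :
    ∃ y ∈ C, (∀ y' ∈ C, a y' = a y → HS y' ≤ HS y ∧ HE y' ≤ HE y) ∧
      (∀ y' ∈ C, a y' = a y - 1 → HE y' ≤ HS y) ∧ (∀ y' ∈ C, a y' = a y + 1 → HS y' ≤ HE y) := by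
  classical
  have hle : ∀ y ∈ C, ∀ y' ∈ C, HS y' ≤ HS y → HE y' ≤ HE y := by
    intro y hy y' hy' hh
    by_contra hlt
    push Not at hlt
    exact absurd ((coh y hy y' hy').2 hlt) (not_lt.2 hh)
  have hmax : ∀ x ∈ C.image a, ∃ y ∈ C, a y = x ∧ ∀ y' ∈ C, a y' = x → HS y' ≤ HS y := by
    intro x hx
    obtain ⟨y₀, hy₀, hx₀⟩ := Finset.mem_image.1 hx
    obtain ⟨y, hy, hm⟩ := (C.filter fun y => a y = x).exists_max_image HS
      ⟨y₀, Finset.mem_filter.2 ⟨hy₀, hx₀⟩⟩
    obtain ⟨h1, h2⟩ := Finset.mem_filter.1 hy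
    exact ⟨y, h1, h2, fun y' h3 h4 => hm y' (Finset.mem_filter.2 ⟨h3, h4⟩)⟩
  obtain ⟨y₁, hy₁⟩ := hne
  have : Nonempty Y := ⟨y₁⟩
  choose! m hm1 hm2 hm3 using hmax
  have hAne : (C.image a).Nonempty := ⟨a y₁, Finset.mem_image_of_mem a hy₁⟩
  set B := (C.image a).filter fun x => ∀ y' ∈ C, a y' = x + 1 → HS y' ≤ HE (m x) with hB
  have hBne : B.Nonempty := by
    refine ⟨(C.image a).max' hAne, Finset.mem_filter.2 ⟨Finset.max'_mem _ _, ?_⟩⟩
    intro y' hy' hay
    have := Finset.le_max' (C.image a) (a y') (Finset.mem_image_of_mem a hy')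
    omega
  set x := B.min' hBne with hx
  have hxB : x ∈ B := Finset.min'_mem _ _
  obtain ⟨hxA, hxr⟩ := Finset.mem_filter.1 hxB
  refine ⟨m x, hm1 x hxA, ?_, ?_, ?_⟩
  · intro y' hy' ha
    rw [hm2 x hxA] at ha
    have h1 := hm3 x hxA y' hy' ha
    exact ⟨h1, hle _ (hm1 x hxA) _ hy' h1⟩
  · intro y' hy' ha
    rw [hm2 x hxA] at ha
    have hxA' : x - 1 ∈ C.image a := by rw [← ha]; exact Finset.mem_image_of_mem a hy'
    have hnB : x - 1 ∉ B := by
      intro hmem
      have := Finset.min'_le B _ hmem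
      omega
    have hnot : ¬ ∀ y' ∈ C, a y' = x - 1 + 1 → HS y' ≤ HE (m (x - 1)) :=
      fun hcon => hnB (Finset.mem_filter.2 ⟨hxA', hcon⟩)
    push Not at hnot
    obtain ⟨z, hz, haz, hlt⟩ := hnot
    rw [sub_add_cancel] at haz
    have h2 := hm3 x hxA z hz haz
    have h3 := hle _ (hm1 _ hxA') _ hy' (hm3 _ hxA' y' hy' ha)
    exact (h3.trans hlt.le).trans h2
  · intro y' hy' ha
    rw [hm2 x hxA] at ha
    exact hxr y' hy' ha

variable {V E : Type}

/-- the system of a labelled oriented graph -/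
def ofLOG (L : LOG V E) : Sys V (fun _ => Multiplicative ℤ) E where
  n _ := 4
  l e k := if k = 0 then ⟨L.ini e, Multiplicative.ofAdd 1⟩ else
    if k = 1 then ⟨L.lab e, Multiplicative.ofAdd 1⟩ else
    if k = 2 then ⟨L.ter e, Multiplicative.ofAdd (-1)⟩ else ⟨L.lab e, Multiplicative.ofAdd (-1)⟩

/-- the embedding of the group of `L` -/
theorem locInd_ofLOG (L : LOG V E) (h : LocInd (ofLOG L).Grp) : LocInd L.G := by
  have hx : ∀ e : E, (ofLOG L).inc (L.ini e) (Multiplicative.ofAdd 1) *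
      (ofLOG L).inc (L.lab e) (Multiplicative.ofAdd 1) =
      (ofLOG L).inc (L.lab e) (Multiplicative.ofAdd 1) *
      (ofLOG L).inc (L.ter e) (Multiplicative.ofAdd 1) := by
    intro e
    have h1 := T.Univ.prod_inc (ofLOG L) e
    have h2 : ((List.range ((ofLOG L).n e)).map fun k =>
        (ofLOG L).inc ((ofLOG L).l e k).1 ((ofLOG L).l e k).2) =
        [(ofLOG L).inc (L.ini e) (Multiplicative.ofAdd 1),
          (ofLOG L).inc (L.lab e) (Multiplicative.ofAdd 1),
          (ofLOG L).inc (L.ter e) (Multiplicative.ofAdd (-1)),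
          (ofLOG L).inc (L.lab e) (Multiplicative.ofAdd (-1))] := rfl
    rw [h2] at h1
    simp only [List.prod_cons, List.prod_nil, mul_one, ofAdd_neg, map_inv] at h1
    have h3 : (ofLOG L).inc (L.ini e) (Multiplicative.ofAdd 1) *
        (ofLOG L).inc (L.lab e) (Multiplicative.ofAdd 1) *
        ((ofLOG L).inc (L.lab e) (Multiplicative.ofAdd 1) *
        (ofLOG L).inc (L.ter e) (Multiplicative.ofAdd 1))⁻¹ = 1 := by
      rw [← h1, mul_inv_rev]
      group
    exact mul_inv_eq_one.1 h3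
  let φ : L.G →* (ofLOG L).Grp := Pool.Agent.H10.Inj.Inf.hom L
    (fun v => (ofLOG L).inc v (Multiplicative.ofAdd 1)) hx
  have hφ : ∀ v, φ (L.gen v) = (ofLOG L).inc v (Multiplicative.ofAdd 1) := fun v =>
    Pool.Agent.H10.Inj.Inf.hom_gen L _ hx v
  let f : ∀ v : V, Multiplicative ℤ →* L.G := fun v => zpowersHom _ (L.gen v)
  have hf : ∀ v (n : ℤ), f v (Multiplicative.ofAdd n) = L.gen v ^ n := fun v n => by
    simp [f, zpowersHom_apply]
  let ψ : (ofLOG L).Grp →* L.G := T.Univ.lift (ofLOG L) f (by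
    intro e
    have h2 : ((List.range ((ofLOG L).n e)).map fun k =>
        f ((ofLOG L).l e k).1 ((ofLOG L).l e k).2) =
        [f (L.ini e) (Multiplicative.ofAdd 1), f (L.lab e) (Multiplicative.ofAdd 1),
          f (L.ter e) (Multiplicative.ofAdd (-1)), f (L.lab e) (Multiplicative.ofAdd (-1))] := rfl
    rw [h2]
    simp only [List.prod_cons, List.prod_nil, mul_one, hf, zpow_one, zpow_neg]
    have h3 := Pool.Agent.H10.Inj.Inf.gen_rel L e
    rw [← mul_assoc, h3]
    group)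
  refine LocInd.of_injective φ ?_ h
  have hcomp : ψ.comp φ = MonoidHom.id _ := by
    apply PresentedGroup.ext
    intro v
    show ψ (φ (L.gen v)) = L.gen v
    rw [hφ]
    show T.Univ.lift (ofLOG L) f _ _ = _
    rw [T.Univ.lift_inc, hf, zpow_one]
  intro x y hxy
  have h5 := DFunLike.congr_fun hcomp x
  have h6 := DFunLike.congr_fun hcomp y
  simp only [MonoidHom.comp_apply, MonoidHom.id_apply] at h5 h6
  rw [← h5, ← h6, hxy]

/-- the corner or letter `j` as an element of `Fin 4` -/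
def jf (j : ℕ) : Fin 4 := ⟨j % 4, Nat.mod_lt _ (by norm_num)⟩

theorem occ_eq (L : LOG V E) (e : E) (j : ℕ) (hj : j < 4) :
    ((ofLOG L).l e j).1 = occ L (e, jf j) := by
  interval_cases j <;> rfl

theorem cor_low (L : LOG V E) (e : E) (j : ℕ) (hj : j < 4) :
    jf ((ofLOG L).cor e j (decide (j < 2))) = sC (jf j) ∧
    jf ((ofLOG L).cor e j (!decide (j < 2))) = eC (jf j) := by
  interval_cases j <;> exact ⟨rfl, rfl⟩

theorem ends_aux (L : LOG V E) (v : V) (g : Multiplicative ℤ) (e : E) (j : ℕ) (hj : j < 4)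
    (hv : ((ofLOG L).l e j).1 = v) (t : Bool) :
    (Multiplicative.toAdd (endPt (ui v ((ofLOG L).l e j)) g t) =
      Multiplicative.toAdd g + (if j < 2 then 0 else -1) ∧
      jf ((ofLOG L).cor e j t) = sC (jf j)) ∨
    (Multiplicative.toAdd (endPt (ui v ((ofLOG L).l e j)) g t) =
      Multiplicative.toAdd g + (if j < 2 then 0 else -1) + 1 ∧
      jf ((ofLOG L).cor e j t) = eC (jf j)) := by
  subst hv
  obtain ⟨h1, h2⟩ := cor_low L e j hj
  have hui : ∀ z : Σ _ : V, Multiplicative ℤ, ui z.1 z = z.2 := by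
    rintro ⟨i, y⟩
    exact ui_mk (K := fun _ : V => Multiplicative ℤ) i y
  rw [hui]
  have hl : Multiplicative.toAdd ((ofLOG L).l e j).2 = if j < 2 then 1 else -1 := by
    interval_cases j <;> rfl
  by_cases hj2 : j < 2
  · rw [if_pos hj2] at hl ⊢
    simp only [hj2, decide_true, Bool.not_true] at h1 h2
    cases t with
    | true => left; exact ⟨by simp [endPt], h1⟩
    | false => right; exact ⟨by simp [endPt, hl], h2⟩
  · rw [if_neg hj2] at hl ⊢
    simp only [hj2, decide_false, Bool.not_false] at h1 h2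
    cases t with
    | true => right; exact ⟨by simp [endPt], h2⟩
    | false => left; exact ⟨by simp [endPt, hl], h1⟩

theorem stack_ofLOG (L : LOG V E) {Λ : Type} [LinearOrder Λ] {h : E → Fin 4 → Λ}
    (hS : LOGStack L h) : (ofLOG L).Stack (fun e j => h e (jf j)) := by
  have hle : ∀ o o' : E × Fin 4, occ L o = occ L o' → h o.1 (sC o.2) ≤ h o'.1 (sC o'.2) →
      h o.1 (eC o.2) ≤ h o'.1 (eC o'.2) := by
    intro o o' ho hh
    by_contra hlt
    push Not at hlt
    exact absurd ((hS.coh o' o ho.symm).2 hlt) (not_lt.2 hh)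
  have hlow : ∀ (e : E) (j : ℕ), j < 4 → ∃ t, jf ((ofLOG L).cor e j t) = sC (jf j) :=
    fun e j hj => ⟨_, (cor_low L e j hj).1⟩
  have hhigh : ∀ (e : E) (j : ℕ), j < 4 → ∃ t, jf ((ofLOG L).cor e j t) = eC (jf j) :=
    fun e j hj => ⟨_, (cor_low L e j hj).2⟩
  have hcase : ∀ (e : E) (j : ℕ) (t : Bool), j < 4 →
      jf ((ofLOG L).cor e j t) = sC (jf j) ∨ jf ((ofLOG L).cor e j t) = eC (jf j) := by
    intro e j t hj
    obtain ⟨h1, h2⟩ := cor_low L e j hj
    by_cases ht : t = decide (j < 2)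
    · left; rw [ht]; exact h1
    · right
      have : t = !decide (j < 2) := by
        revert ht; cases t <;> cases decide (j < 2) <;> simp
      rw [this]; exact h2
  refine ⟨?_, ?_, ?_, ?_, ?_⟩
  · intro e j hj
    obtain ⟨h1, h2⟩ := hS.red e
    have hj' : j < 4 := hj
    interval_cases j
    · exact h1
    · exact h1.symm
    · exact h2
    · exact h2.symm
  · intro e j e' j' hj hj' heq
    obtain ⟨h1, h2⟩ := hS.inj _ _ _ _ heq
    refine ⟨h1, ?_⟩
    have h3 : j % 4 = j' % 4 := congrArg Fin.val h2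
    have h4 : j < 4 := hj
    have h5 : j' < 4 := hj'
    rwa [Nat.mod_eq_of_lt h4, Nat.mod_eq_of_lt h5] at h3
  · intro v C hC hCm
    obtain ⟨y, hy, p1, p2, p3⟩ := line_peak C hC
      (fun y => Multiplicative.toAdd y.1 + (if y.2.2 < 2 then 0 else -1))
      (fun y => h y.2.1 (sC (jf y.2.2))) (fun y => h y.2.1 (eC (jf y.2.2))) (by
        intro y hy y' hy'
        obtain ⟨h1, h2⟩ := hCm y hy
        obtain ⟨h3, h4⟩ := hCm y' hy'
        refine hS.coh (y.2.1, jf y.2.2) (y'.2.1, jf y'.2.2) ?_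
        rw [← occ_eq L _ _ h1, ← occ_eq L _ _ h3, h2, h4])
    refine ⟨y, hy, fun y' hy' t t' heq => ?_⟩
    obtain ⟨h1, h2⟩ := hCm y hy
    obtain ⟨h3, h4⟩ := hCm y' hy'
    have e1 := ends_aux L v y.1 y.2.1 y.2.2 h1 h2 t
    have e2 := ends_aux L v y'.1 y'.2.1 y'.2.2 h3 h4 t'
    have heq' := congrArg Multiplicative.toAdd heq
    have q1 := p1 y' hy'
    have q2 := p2 y' hy'
    have q3 := p3 y' hy'
    rcases e1 with ⟨a1, b1⟩ | ⟨a1, b1⟩ <;> rcases e2 with ⟨a2, b2⟩ | ⟨a2, b2⟩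
    · rw [b1, b2]
      exact (q1 (by omega)).1
    · rw [b1, b2]
      exact q2 (by omega)
    · rw [b1, b2]
      exact q3 (by omega)
    · rw [b1, b2]
      exact (q1 (by omega)).2
  · intro e
    obtain ⟨j, hj⟩ := hS.top e
    have hj4 : j.val < 4 := j.2
    have hjj : jf j.val = j := Fin.ext (Nat.mod_eq_of_lt hj4)
    have hS' : ∀ (e' : E) (j' : ℕ), j' < 4 → ((ofLOG L).l e' j').1 = ((ofLOG L).l e j.val).1 →
        h e' (sC (jf j')) ≤ h e (sC j) ∧ h e' (eC (jf j')) ≤ h e (eC j) := by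
      intro e' j' hj' hb
      rw [occ_eq L _ _ hj', occ_eq L _ _ hj4, hjj] at hb
      have h1 := hj (e', jf j') hb
      exact ⟨h1, hle (e', jf j') (e, j) hb h1⟩
    obtain ⟨t1, ht1⟩ := hlow e j.val hj4
    obtain ⟨t2, ht2⟩ := hhigh e j.val hj4
    rw [hjj] at ht1 ht2
    by_cases hc : h e (sC j) ≤ h e (eC j)
    · refine ⟨j.val, hj4, t2, fun e' j' t' hj' hb => ?_⟩
      obtain ⟨h1, h2⟩ := hS' e' j' hj' hb
      beta_reduce
      rw [ht2]
      rcases hcase e' j' t' hj' with h3 | h3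
      · rw [h3]; exact h1.trans hc
      · rw [h3]; exact h2
    · refine ⟨j.val, hj4, t1, fun e' j' t' hj' hb => ?_⟩
      obtain ⟨h1, h2⟩ := hS' e' j' hj' hb
      beta_reduce
      rw [ht1]
      rcases hcase e' j' t' hj' with h3 | h3
      · rw [h3]; exact h1
      · rw [h3]; exact h2.trans (not_le.1 hc).le
  · intro e
    obtain ⟨j, hj⟩ := hS.bot e
    have hj4 : j.val < 4 := j.2
    have hjj : jf j.val = j := Fin.ext (Nat.mod_eq_of_lt hj4)
    have hS' : ∀ (e' : E) (j' : ℕ), j' < 4 → ((ofLOG L).l e' j').1 = ((ofLOG L).l e j.val).1 →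
        h e (sC j) ≤ h e' (sC (jf j')) ∧ h e (eC j) ≤ h e' (eC (jf j')) := by
      intro e' j' hj' hb
      rw [occ_eq L _ _ hj', occ_eq L _ _ hj4, hjj] at hb
      have h1 := hj (e', jf j') hb
      exact ⟨h1, hle (e, j) (e', jf j') hb.symm h1⟩
    obtain ⟨t1, ht1⟩ := hlow e j.val hj4
    obtain ⟨t2, ht2⟩ := hhigh e j.val hj4
    rw [hjj] at ht1 ht2
    by_cases hc : h e (sC j) ≤ h e (eC j)
    · refine ⟨j.val, hj4, t1, fun e' j' t' hj' hb => ?_⟩
      obtain ⟨h1, h2⟩ := hS' e' j' hj' hb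
      beta_reduce
      rw [ht1]
      rcases hcase e' j' t' hj' with h3 | h3
      · rw [h3]; exact h1
      · rw [h3]; exact hc.trans h2
    · refine ⟨j.val, hj4, t2, fun e' j' t' hj' hb => ?_⟩
      obtain ⟨h1, h2⟩ := hS' e' j' hj' hb
      beta_reduce
      rw [ht2]
      rcases hcase e' j' t' hj' with h3 | h3
      · rw [h3]; exact (not_le.1 hc).le.trans h1
      · rw [h3]; exact h2

theorem locInd_multInt : LocInd (Multiplicative ℤ) := by
  intro H _ hne
  refine Pool.Agent.H10.Inj.One.surj_of_ne H.subtype ?_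
  by_contra hcon
  push Not at hcon
  exact hne ((Subgroup.eq_bot_iff_forall H).2 fun x hx => hcon ⟨x, hx⟩)

theorem LOGStack.sub {L : LOG V E} {Λ : Type} [LinearOrder Λ] {h : E → Fin 4 → Λ}
    (hS : LOGStack L h) (V₁ : Set V) (E₁ : Set E) (hc : L.Closed V₁ E₁) :
    LOGStack (L.sub V₁ E₁ hc) (fun e => h e.1) := by
  have hocc : ∀ (o : E₁ × Fin 4), (occ (L.sub V₁ E₁ hc) o).1 = occ L (o.1.1, o.2) := by
    rintro ⟨e, j⟩
    fin_cases j <;> rfl
  refine ⟨fun e => ?_, fun e j e' j' heq => ?_, fun o o' ho => ?_, fun e => ?_, fun e => ?_⟩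
  · obtain ⟨h1, h2⟩ := hS.red e.1
    exact ⟨fun h3 => h1 (congrArg Subtype.val h3), fun h3 => h2 (congrArg Subtype.val h3)⟩
  · obtain ⟨h1, h2⟩ := hS.inj _ _ _ _ heq
    exact ⟨Subtype.ext h1, h2⟩
  · have h1 := congrArg Subtype.val ho
    rw [hocc, hocc] at h1
    exact hS.coh (o.1.1, o.2) (o'.1.1, o'.2) h1
  · obtain ⟨j, hj⟩ := hS.top e.1
    refine ⟨j, fun o' ho => ?_⟩
    have h1 := congrArg Subtype.val ho
    rw [hocc, hocc] at h1
    exact hj (o'.1.1, o'.2) h1
  · obtain ⟨j, hj⟩ := hS.bot e.1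
    refine ⟨j, fun o' ho => ?_⟩
    have h1 := congrArg Subtype.val ho
    rw [hocc, hocc] at h1
    exact hj (o'.1.1, o'.2) h1

/-- Labelled oriented graphs with a good stacking. -/
theorem LOGStack.locInd {L : LOG V E} {Λ : Type} [LinearOrder Λ] {h : E → Fin 4 → Λ}
    (hS : LOGStack L h) (V₁ : Set V) (E₁ : Set E) (hc : L.Closed V₁ E₁) :
    LocInd (L.sub V₁ E₁ hc).G :=
  locInd_ofLOG _ (stack (ofLOG (L.sub V₁ E₁ hc)) _ (stack_ofLOG _ (hS.sub V₁ E₁ hc))
    (fun _ => locInd_multInt)).1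

end Pool.Agent.H10.W
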