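import Pool.Agent.H10.W.StackLog
import Pool.Agent.H10.W.Restrict

/-!
# Stackings: subsets of the relators
-/

set_option autoImplicit false

namespace Pool.Agent.H10.W

open Pool.Agent.H10.Inj (LocInd)

variable {I : Type} {K : I → Type} {R : Type} [∀ i, Group (K i)]

theorem Sys.Stack.restrict {P : Sys I K R} {Λ : Type} [LinearOrder Λ] {h : R → ℕ → Λ}
    (hS : P.Stack h) (S : Set R) : (P.restrict S).Stack (fun r => h r) := by
  classical
  refine ⟨fun r j hj => hS.red r.1 j hj, fun r j r' j' hj hj' heq => ?_, fun i C hC hCm => ?_,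
    fun r => ?_, fun r => ?_⟩
  · obtain ⟨h1, h2⟩ := hS.inj r.1 j r'.1 j' hj hj' heq
    exact ⟨Subtype.ext h1, h2⟩
  · obtain ⟨y, hy, hp⟩ := hS.peak i (C.image fun y => (y.1, y.2.1.1, y.2.2)) (hC.image _) (by
      intro y hy
      obtain ⟨z, hz, rfl⟩ := Finset.mem_image.1 hy
      exact hCm z hz)
    obtain ⟨z, hz, rfl⟩ := Finset.mem_image.1 hy
    refine ⟨z, hz, fun y' hy' t t' heq => ?_⟩
    exact hp (y'.1, y'.2.1.1, y'.2.2) (Finset.mem_image.2 ⟨y', hy', rfl⟩) t t' heq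
  · obtain ⟨j, hj, t, ht⟩ := hS.top r.1
    exact ⟨j, hj, t, fun r' j' t' hj' hb => ht r'.1 j' t' hj' hb⟩
  · obtain ⟨j, hj, t, ht⟩ := hS.bot r.1
    exact ⟨j, hj, t, fun r' j' t' hj' hb => ht r'.1 j' t' hj' hb⟩

end Pool.Agent.H10.W
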